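import Mathlib
import Pool.Agent.R528.RM.Violations

set_option autoImplicit false
set_option linter.unusedSectionVars false

/-! # Long runs of absent integers with a general length: the exact count -/

open MeasureTheory Filter Set
open scoped ENNReal Topology

namespace Pool.Agent.R320.IT

open Pool.Agent.R528.RM

/-- the logarithm of `k + 1` -/
noncomputable def L1 (k : ℕ) : ℝ := Real.log ((k : ℝ) + 1)

lemma L1_top : Tendsto L1 atTop atTop :=
  Real.tendsto_log_atTop.comp (tendsto_atTop_add_const_right _ 1 tendsto_natCast_atTop_atTop)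

lemma L1_nonneg (k : ℕ) : 0 ≤ L1 k := Real.log_nonneg (by
  have : (0 : ℝ) ≤ k := Nat.cast_nonneg k
  linarith)

/-- the weight of the run length `G k` at `k + 1` -/
noncomputable def wt (G : ℕ → ℕ) (k : ℕ) : ℝ := Real.exp (-((G k : ℝ) / L1 k)) / L1 k

lemma wt_nonneg (G : ℕ → ℕ) (k : ℕ) : 0 ≤ wt G k := div_nonneg (Real.exp_pos _).le (L1_nonneg k)

lemma wt_pos (G : ℕ → ℕ) : ∀ᶠ k in atTop, 0 < wt G k := by
  filter_upwards [L1_top.eventually_gt_atTop 0] with k hk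
  exact div_pos (Real.exp_pos _) hk

/-- the exponent -/
lemma expo (b : ℝ) {g : ℕ → ℕ} (hg : Tendsto (fun k => (g k : ℝ) / L1 k ^ 2) atTop (𝓝 1)) :
    Tendsto (fun k => (g k : ℝ) / L1 k + g k * Real.log (1 - 1 / (L1 k + b))) atTop (𝓝 (b - 1 / 2)) := by
  have hy : Tendsto (fun k => 1 / (L1 k + b)) atTop (𝓝 0) := (tendsto_inv_add b).comp L1_top
  have hr : Tendsto (fun k => L1 k / (L1 k + b)) atTop (𝓝 1) := (tendsto_ratio b).comp L1_top
  have hR : Tendsto (fun k => (g k : ℝ) * (Real.log (1 - 1 / (L1 k + b)) + (1 / (L1 k + b)) +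
      (1 / (L1 k + b)) ^ 2 / 2)) atTop (𝓝 0) := by
    have hb : Tendsto (fun k => 2 * ((g k : ℝ) / L1 k ^ 2 * (L1 k / (L1 k + b)) ^ 2 * (1 / (L1 k + b)))) atTop
        (𝓝 0) := by
      have := (((hg.mul (hr.pow 2)).mul hy).const_mul 2)
      simpa using this
    refine squeeze_zero_norm' ?_ hb
    have hsmall := hy.eventually (Metric.ball_mem_nhds 0 (show (0 : ℝ) < 1 / 2 by norm_num))
    filter_upwards [L1_top.eventually_gt_atTop (-b), L1_top.eventually_gt_atTop (0 : ℝ), hsmall] with k hL hL0 hs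
    have hpos : 0 < L1 k + b := by linarith
    obtain ⟨y, hyd⟩ : ∃ y, y = 1 / (L1 k + b) := ⟨_, rfl⟩
    have hy0 : 0 < y := by rw [hyd]; positivity
    have hs' : dist (1 / (L1 k + b)) 0 < 1 / 2 := hs
    rw [← hyd, dist_zero_right, Real.norm_eq_abs, abs_of_pos hy0] at hs'
    rw [← hyd]
    have h1 := Real.abs_log_sub_add_sum_range_le (x := y) (by rw [abs_of_pos hy0]; linarith) 2
    rw [Finset.sum_range_succ, Finset.sum_range_one, abs_of_pos hy0] at h1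
    have h2 : y ^ (2 + 1) / (1 - y) ≤ 2 * y ^ 3 := by
      rw [div_le_iff₀ (by linarith)]
      have h7 : 0 < y ^ 3 := by positivity
      calc y ^ (2 + 1) = y ^ 3 * 1 := by ring
        _ ≤ y ^ 3 * (2 * (1 - y)) := mul_le_mul_of_nonneg_left (by linarith) h7.le
        _ = 2 * y ^ 3 * (1 - y) := by ring
    have h3 : |Real.log (1 - y) + y + y ^ 2 / 2| ≤ 2 * y ^ 3 := by
      refine le_trans (le_of_eq ?_) (h1.trans h2)
      congr 1
      norm_num
      ring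
    rw [norm_mul, Real.norm_natCast, Real.norm_eq_abs]
    have h5 : (g k : ℝ) * |Real.log (1 - y) + y + y ^ 2 / 2| ≤ (g k : ℝ) * (2 * y ^ 3) :=
      mul_le_mul_of_nonneg_left h3 (Nat.cast_nonneg _)
    refine h5.trans (le_of_eq ?_)
    have h6 : L1 k / (L1 k + b) = L1 k * y := by rw [hyd]; ring
    rw [h6]
    field_simp
  have h1 : Tendsto (fun k => b * ((g k : ℝ) / L1 k ^ 2) * (L1 k / (L1 k + b)) -
      (g k : ℝ) / L1 k ^ 2 * (L1 k / (L1 k + b)) ^ 2 / 2 +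
      (g k : ℝ) * (Real.log (1 - 1 / (L1 k + b)) + (1 / (L1 k + b)) + (1 / (L1 k + b)) ^ 2 / 2)) atTop
      (𝓝 (b * 1 * 1 - 1 * 1 ^ 2 / 2 + 0)) :=
    (((hg.const_mul b).mul hr).sub ((hg.mul (hr.pow 2)).div_const 2)).add hR
  have e : b * 1 * 1 - 1 * 1 ^ 2 / 2 + 0 = b - 1 / 2 := by ring
  rw [e] at h1
  refine h1.congr' ?_
  filter_upwards [L1_top.eventually_gt_atTop (-b), L1_top.eventually_gt_atTop (0 : ℝ)] with k hL hL0
  have hne : L1 k + b ≠ 0 := by linarith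
  have hne0 : L1 k ≠ 0 := hL0.ne'
  obtain ⟨z, hz⟩ : ∃ z, z = Real.log (1 - 1 / (L1 k + b)) := ⟨_, rfl⟩
  rw [← hz]
  field_simp
  ring

/-- the probability of a run -/
lemma prob (a b : ℝ) {g : ℕ → ℕ} (hg : Tendsto (fun k => (g k : ℝ) / L1 k ^ 2) atTop (𝓝 1)) :
    Tendsto (fun k => (1 / (L1 k + a) * (1 - 1 / (L1 k + b)) ^ g k) / wt g k) atTop
      (𝓝 (Real.exp (b - 1 / 2))) := by
  have hr : Tendsto (fun k => L1 k / (L1 k + a)) atTop (𝓝 1) := (tendsto_ratio a).comp L1_top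
  have h1 := hr.mul ((Real.continuous_exp.tendsto _).comp (expo b hg))
  rw [one_mul] at h1
  refine h1.congr' ?_
  filter_upwards [L1_top.eventually_gt_atTop (1 - b), L1_top.eventually_gt_atTop (0 : ℝ)] with k hL hL0
  have hpos : 0 < 1 - 1 / (L1 k + b) := by
    have h2 : 1 < L1 k + b := by linarith
    have : 1 / (L1 k + b) < 1 := by
      rw [div_lt_one (by linarith)]
      exact h2
    linarith
  simp only [Function.comp, wt]
  rw [Real.exp_add, mul_comm (g k : ℝ) (Real.log _), Real.exp_mul, Real.exp_log hpos, Real.rpow_natCast,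
    Real.exp_neg]
  have hE := (Real.exp_pos ((g k : ℝ) / L1 k)).ne'
  field_simp

/-- summation -/
lemma sum_ratio {x w : ℕ → ℝ} (hw : ∀ k, 0 ≤ w k) (hp : ∀ᶠ k in atTop, 0 < w k) {c : ℝ}
    (h : Tendsto (fun k => x k / w k) atTop (𝓝 c))
    (hW : Tendsto (fun n => ∑ k ∈ Finset.range n, w k) atTop atTop) :
    Tendsto (fun n => (∑ k ∈ Finset.range n, x k) / ∑ k ∈ Finset.range n, w k) atTop (𝓝 c) := by
  have hlo : (fun k => x k - c * w k) =o[atTop] w := by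
    rw [Asymptotics.isLittleO_iff_tendsto']
    · have h1 := h.sub (tendsto_const_nhds (x := c))
      rw [sub_self] at h1
      refine h1.congr' ?_
      filter_upwards [hp] with k hk
      field_simp
    · filter_upwards [hp] with k hk h0
      exact absurd h0 hk.ne'
  have hS := hlo.sum_range hw hW
  have hS' := hS.tendsto_div_nhds_zero
  have h1 := hS'.add_const c
  rw [zero_add] at h1
  refine h1.congr' ?_
  filter_upwards [hW.eventually_gt_atTop 0] with n hn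
  rw [Finset.sum_sub_distrib, ← Finset.mul_sum]
  field_simp
  ring

/-- the growth factor over a window is negligible -/
lemma window2 (K c : ℝ) (hK0 : 0 ≤ K) {δ : ℝ} (hδ : 0 < δ) : ∀ᶠ k : ℕ in atTop, ∀ i : ℕ,
    (i : ℝ) ≤ 2 * L1 k ^ 2 → ((1 + K / k) ^ i - 1) * (L1 k + c + δ) ≤ δ := by
  have hx : Tendsto (fun k : ℕ => (k : ℝ) + 1) atTop atTop :=
    tendsto_atTop_add_const_right _ 1 tendsto_natCast_atTop_atTop
  have h1 : ∀ᶠ x : ℝ in atTop, 1 ≤ Real.log x ∧ |c| + δ ≤ Real.log x ∧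
      16 * K * Real.log x ^ 3 ≤ δ * x ∧ 4 * K * Real.log x ^ 2 ≤ x ∧ 2 ≤ x := by
    have t1 := Real.tendsto_log_atTop
    have h2 := (Real.isLittleO_pow_log_id_atTop (n := 3)).def
      (show (0 : ℝ) < δ / (16 * K + 1) by positivity)
    have h3 := (Real.isLittleO_pow_log_id_atTop (n := 2)).def
      (show (0 : ℝ) < 1 / (4 * K + 1) by positivity)
    filter_upwards [t1.eventually_ge_atTop 1, t1.eventually_ge_atTop (|c| + δ), h2, h3, eventually_ge_atTop 2]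
      with x h4 h5 h2 h3 h6
    rw [Real.norm_of_nonneg (by positivity), id, Real.norm_of_nonneg (by linarith)] at h2 h3
    refine ⟨h4, h5, ?_, ?_, h6⟩
    · have h7 : 16 * K * Real.log x ^ 3 ≤ (16 * K + 1) * Real.log x ^ 3 := by
        have : 0 ≤ Real.log x ^ 3 := by positivity
        nlinarith
      have h8 : (16 * K + 1) * Real.log x ^ 3 ≤ (16 * K + 1) * (δ / (16 * K + 1) * x) :=
        mul_le_mul_of_nonneg_left h2 (by positivity)
      have h9 : (16 * K + 1) * (δ / (16 * K + 1) * x) = δ * x := by field_simp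
      linarith
    · have h7 : 4 * K * Real.log x ^ 2 ≤ (4 * K + 1) * Real.log x ^ 2 := by
        have : 0 ≤ Real.log x ^ 2 := by positivity
        nlinarith
      have h8 : (4 * K + 1) * Real.log x ^ 2 ≤ (4 * K + 1) * (1 / (4 * K + 1) * x) :=
        mul_le_mul_of_nonneg_left h3 (by positivity)
      have h9 : (4 * K + 1) * (1 / (4 * K + 1) * x) = x := by field_simp
      linarith
  filter_upwards [hx.eventually h1, eventually_ge_atTop 1] with k h hk i hi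
  obtain ⟨h1, h2, h3, h4, h5⟩ := h
  have hk' : (1 : ℝ) ≤ k := by exact_mod_cast hk
  have hLd : L1 k = Real.log ((k : ℝ) + 1) := rfl
  obtain ⟨L, hL⟩ : ∃ L, L = Real.log ((k : ℝ) + 1) := ⟨_, rfl⟩
  rw [hLd] at hi ⊢
  rw [← hL] at h1 h2 h3 h4 hi ⊢
  have hKi : K / k * i ≤ 1 := by
    rw [div_mul_eq_mul_div, div_le_one (by linarith)]
    have h6 : K * i ≤ K * (2 * L ^ 2) := mul_le_mul_of_nonneg_left hi hK0
    nlinarith
  have hKi0 : 0 ≤ K / k * i := by positivity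
  have h6 : (1 + K / k) ^ i ≤ Real.exp (K / k * i) := by
    rw [mul_comm, Real.exp_nat_mul]
    apply pow_le_pow_left₀ (by positivity)
    have := Real.add_one_le_exp (K / k)
    linarith
  have h7 : Real.exp (K / k * i) - 1 ≤ 2 * (K / k * i) := by
    have h9 : Real.exp (K / k * i) ≤ 1 + 2 * (K / k * i) := by
      have h10 := Real.abs_exp_sub_one_le (x := K / k * i) (by rw [abs_of_nonneg hKi0]; exact hKi)
      rw [abs_of_nonneg hKi0] at h10
      have := le_abs_self (Real.exp (K / k * i) - 1)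
      linarith
    linarith
  have h8 : (1 + K / k) ^ i - 1 ≤ 4 * K * L ^ 2 / k := by
    have h9 : K / k * i ≤ K / k * (2 * L ^ 2) := mul_le_mul_of_nonneg_left hi (by positivity)
    have h10 : K / k * (2 * L ^ 2) = 2 * K * L ^ 2 / k := by ring
    have h11 : 4 * K * L ^ 2 / k = 2 * (2 * K * L ^ 2 / k) := by ring
    rw [h11]
    linarith
  have h9 : L + c + δ ≤ 2 * L := by
    have := le_abs_self c
    linarith
  have h10 : 0 ≤ (1 + K / k) ^ i - 1 := by
    have : 1 ≤ (1 + K / k) ^ i := one_le_pow₀ (by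
      have : 0 ≤ K / k := by positivity
      linarith)
    linarith
  calc ((1 + K / k) ^ i - 1) * (L + c + δ) ≤ ((1 + K / k) ^ i - 1) * (2 * L) := mul_le_mul_of_nonneg_left h9 h10
    _ ≤ 4 * K * L ^ 2 / k * (2 * L) := mul_le_mul_of_nonneg_right h8 (by linarith)
    _ = 8 * K * L ^ 3 / k := by ring
    _ ≤ δ := by
      rw [div_le_iff₀ (by linarith)]
      nlinarith

variable {Ω : Type} {m0 : MeasurableSpace Ω} {μ : Measure Ω} [IsProbabilityMeasure μ]
  {ℱ : Filtration ℕ m0} {A : ℕ → Set Ω}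

/-- bounds for all densities in the window -/
lemma near_window2 {K : ℝ} (hK0 : 0 ≤ K) {n₀ : ℕ}
    (hK : ∀ᵐ ω ∂μ, ∀ n, n₀ ≤ n → |(dens μ ℱ A (n + 1) ω)⁻¹ - (dens μ ℱ A n ω)⁻¹| ≤ K / n * |(dens μ ℱ A n ω)⁻¹|)
    (c : ℝ) {δ : ℝ} (hδ : 0 < δ) {k g : ℕ} (hk : n₀ ≤ k) (hk1 : 1 ≤ k)
    (hw : ∀ i ≤ g, ((1 + K / k) ^ i - 1) * (L1 k + c + δ) ≤ δ)
    (hpos : 1 ≤ L1 k + c - 2 * δ) (n : ℕ) (hn1 : k ≤ n) (hn2 : n ≤ k + g) :
    ∀ᵐ ω ∂μ, ω ∈ near μ ℱ A c δ k → 1 / (L1 k + (c + 2 * δ)) ≤ dens μ ℱ A n ω ∧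
      dens μ ℱ A n ω ≤ 1 / (L1 k + (c - 2 * δ)) := by
  filter_upwards [hK] with ω hω hnear
  obtain ⟨i, rfl⟩ : ∃ i, n = k + i := ⟨n - k, by omega⟩
  have h1 := (slow (fun n => (dens μ ℱ A n ω)⁻¹) hK0 hk hk1 hω i).2
  have hnear : |(dens μ ℱ A k ω)⁻¹ - (L1 k + c)| ≤ δ := hnear
  obtain ⟨L, hL⟩ : ∃ L, L = L1 k := ⟨_, rfl⟩
  have h2 := hw i (by omega)
  rw [← hL] at h2 hnear hpos ⊢
  have h3 := abs_le.1 hnear
  have h4 : |(dens μ ℱ A k ω)⁻¹| ≤ L + c + δ := by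
    rw [abs_le]
    constructor <;> linarith
  have h5 : 0 ≤ (1 + K / k) ^ i - 1 := by
    have : 1 ≤ (1 + K / k) ^ i := one_le_pow₀ (by
      have : 0 ≤ K / k := by positivity
      linarith)
    linarith
  have h6 : |(dens μ ℱ A (k + i) ω)⁻¹ - (dens μ ℱ A k ω)⁻¹| ≤ δ :=
    h1.trans ((mul_le_mul_of_nonneg_left h4 h5).trans h2)
  have h7 := abs_le.1 h6
  obtain ⟨x, hx⟩ : ∃ x, x = dens μ ℱ A (k + i) ω := ⟨_, rfl⟩
  rw [← hx] at h7 ⊢
  have h8 : L + (c - 2 * δ) ≤ x⁻¹ := by linarith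
  have h9 : x⁻¹ ≤ L + (c + 2 * δ) := by linarith
  have h10 : 0 < x⁻¹ := by linarith
  have h11 : 0 < x := inv_pos.1 h10
  constructor
  · rw [one_div, inv_le_comm₀ (by linarith) h11]
    exact h9
  · rw [one_div, le_inv_comm₀ h11 (by linarith)]
    exact h8

/-- the count of runs -/
noncomputable def VG (A : ℕ → Set Ω) (G : ℕ → ℕ) (n : ℕ) (ω : Ω) : ℝ :=
  ∑ k ∈ Finset.range n, (run A k (G k)).indicator (fun _ => (1 : ℝ)) ω

/-- the deterministic bounds for the conditional probabilities of runs -/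
theorem setup (hA : ∀ n, MeasurableSet[ℱ n] (A n)) {K : ℝ} (hK0 : 0 ≤ K) {n₀ : ℕ}
    (hK : ∀ᵐ ω ∂μ, ∀ n, n₀ ≤ n → |(dens μ ℱ A (n + 1) ω)⁻¹ - (dens μ ℱ A n ω)⁻¹| ≤ K / n * |(dens μ ℱ A n ω)⁻¹|)
    {G : ℕ → ℕ} (hG : Tendsto (fun k => (G k : ℝ) / L1 k ^ 2) atTop (𝓝 1)) (c : ℝ) {δ : ℝ} (hδ : 0 < δ) :
    ∃ (B : ℕ → Set Ω) (u l : ℕ → ℝ), (∀ k, MeasurableSet[ℱ k] (B k)) ∧ (∀ k, 0 ≤ u k) ∧ (∀ k, u k ≤ 1) ∧
      (∀ k, 0 ≤ l k) ∧ (∀ k, l k ≤ 1) ∧
      (∀ k, ∀ C ⊆ B k, MeasurableSet[ℱ k] C → μ.real (C ∩ run A k (G k)) ≤ u k * μ.real C) ∧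
      (∀ k, ∀ C ⊆ B k, MeasurableSet[ℱ k] C → l k * μ.real C ≤ μ.real (C ∩ run A k (G k))) ∧
      Tendsto (fun k => u k / wt G k) atTop (𝓝 (Real.exp (c + 2 * δ - 1 / 2))) ∧
      Tendsto (fun k => l k / wt G k) atTop (𝓝 (Real.exp (c - 2 * δ - 1 / 2))) ∧
      ∃ k₀, ∀ k, k₀ ≤ k → B k = near μ ℱ A c δ k := by
  classical
  have hG2 : ∀ᶠ k in atTop, (G k : ℝ) ≤ 2 * L1 k ^ 2 := by
    filter_upwards [hG.eventually (eventually_le_nhds (show (1 : ℝ) < 2 by norm_num)),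
      L1_top.eventually_gt_atTop 0] with k h1 h2
    rwa [div_le_iff₀ (by positivity)] at h1
  obtain ⟨k₀, hk₀⟩ : ∃ k₀ : ℕ, ∀ k, k₀ ≤ k → n₀ ≤ k ∧ 1 ≤ k ∧
      (∀ i ≤ G k, ((1 + K / k) ^ i - 1) * (L1 k + c + δ) ≤ δ) ∧
      1 ≤ L1 k + c - 2 * δ := by
    rw [← eventually_atTop]
    filter_upwards [eventually_ge_atTop n₀, eventually_ge_atTop 1, window2 K c hK0 hδ, hG2,
      L1_top.eventually_ge_atTop (1 - c + 2 * δ)] with k h1 h2 h3 h4 h5
    refine ⟨h1, h2, fun i hi => h3 i (le_trans ?_ h4), by linarith⟩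
    exact_mod_cast hi
  set B : ℕ → Set Ω := fun k => if k₀ ≤ k then near μ ℱ A c δ k else ∅ with hB
  set l' : ℕ → ℝ := fun k => 1 / (L1 k + (c + 2 * δ)) with hl'
  set u' : ℕ → ℝ := fun k => 1 / (L1 k + (c - 2 * δ)) with hu'
  set u : ℕ → ℝ := fun k => if k₀ ≤ k then u' k * (1 - l' k) ^ G k else 0 with hu
  set l : ℕ → ℝ := fun k => if k₀ ≤ k then l' k * (1 - u' k) ^ G k else 0 with hl
  have hBm : ∀ k, MeasurableSet[ℱ k] (B k) := by
    intro k
    by_cases h : k₀ ≤ k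
    · simp only [hB, if_pos h]
      exact near_meas c δ k
    · simp only [hB, if_neg h]
      exact @MeasurableSet.empty _ (ℱ k)
  have hb : ∀ k, k₀ ≤ k → 0 < l' k ∧ l' k ≤ u' k ∧ u' k ≤ 1 := by
    intro k hk
    obtain ⟨h1, h2, h3, h4⟩ := hk₀ k hk
    refine ⟨one_div_pos.2 (by linarith), one_div_le_one_div_of_le (by linarith) (by linarith), ?_⟩
    simp only [hu']
    rw [div_le_one (by linarith)]
    linarith
  have hwin : ∀ k, k₀ ≤ k → ∀ n, k ≤ n → n ≤ k + G k → ∀ᵐ ω ∂μ, ω ∈ near μ ℱ A c δ k →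
      l' k ≤ dens μ ℱ A n ω ∧ dens μ ℱ A n ω ≤ u' k := by
    intro k hk n hn1 hn2
    obtain ⟨h1, h2, h3, h4⟩ := hk₀ k hk
    exact near_window2 (μ := μ) hK0 hK c hδ h1 h2 h3 h4 n hn1 hn2
  refine ⟨B, u, l, hBm, ?_, ?_, ?_, ?_, ?_, ?_, ?_, ?_, k₀, fun k hk => by simp only [hB, if_pos hk]⟩
  · intro k
    by_cases h : k₀ ≤ k
    · obtain ⟨h1, h2, h3⟩ := hb k h
      simp only [hu, if_pos h]
      have : 0 ≤ 1 - l' k := by linarith
      have : 0 ≤ u' k := by linarith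
      positivity
    · simp only [hu, if_neg h]
      exact le_rfl
  · intro k
    by_cases h : k₀ ≤ k
    · obtain ⟨h1, h2, h3⟩ := hb k h
      simp only [hu, if_pos h]
      exact mul_le_one₀ h3 (pow_nonneg (by linarith) _) (pow_le_one₀ (by linarith) (by linarith))
    · simp only [hu, if_neg h]
      exact zero_le_one
  · intro k
    by_cases h : k₀ ≤ k
    · obtain ⟨h1, h2, h3⟩ := hb k h
      simp only [hl, if_pos h]
      have : 0 ≤ 1 - u' k := by linarith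
      positivity
    · simp only [hl, if_neg h]
      exact le_rfl
  · intro k
    by_cases h : k₀ ≤ k
    · obtain ⟨h1, h2, h3⟩ := hb k h
      simp only [hl, if_pos h]
      exact mul_le_one₀ (h2.trans h3) (pow_nonneg (by linarith) _) (pow_le_one₀ (by linarith) (by linarith))
    · simp only [hl, if_neg h]
      exact zero_le_one
  · intro k C hC hCm
    by_cases h : k₀ ≤ k
    · obtain ⟨h1, h2, h3⟩ := hb k h
      simp only [hB, if_pos h] at hC
      simp only [hu, if_pos h]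
      refine ((run_bounds (μ := μ) hA (by linarith) h3 k (G k) hCm ?_) (G k) le_rfl).2
      intro n hn1 hn2
      filter_upwards [hwin k h n hn1 hn2] with ω hω hωC
      exact hω (hC hωC)
    · simp only [hB, if_neg h] at hC
      have : C = ∅ := subset_empty_iff.1 hC
      rw [this]
      simp
  · intro k C hC hCm
    by_cases h : k₀ ≤ k
    · obtain ⟨h1, h2, h3⟩ := hb k h
      simp only [hB, if_pos h] at hC
      simp only [hl, if_pos h]
      refine ((run_bounds (μ := μ) hA (by linarith) h3 k (G k) hCm ?_) (G k) le_rfl).1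
      intro n hn1 hn2
      filter_upwards [hwin k h n hn1 hn2] with ω hω hωC
      exact hω (hC hωC)
    · simp only [hB, if_neg h] at hC
      have : C = ∅ := subset_empty_iff.1 hC
      rw [this]
      simp
  · refine (prob (c - 2 * δ) (c + 2 * δ) hG).congr' ?_
    filter_upwards [eventually_ge_atTop k₀] with k hk
    simp only [hu, if_pos hk, hu', hl']
  · refine (prob (c + 2 * δ) (c - 2 * δ) hG).congr' ?_
    filter_upwards [eventually_ge_atTop k₀] with k hk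
    simp only [hl, if_pos hk, hu', hl']

/-- the core estimate -/
theorem core2 (hA : ∀ n, MeasurableSet[ℱ n] (A n)) {K : ℝ} (hK0 : 0 ≤ K) {n₀ : ℕ}
    (hK : ∀ᵐ ω ∂μ, ∀ n, n₀ ≤ n → |(dens μ ℱ A (n + 1) ω)⁻¹ - (dens μ ℱ A n ω)⁻¹| ≤ K / n * |(dens μ ℱ A n ω)⁻¹|)
    {G : ℕ → ℕ} (hG : Tendsto (fun k => (G k : ℝ) / L1 k ^ 2) atTop (𝓝 1))
    (hW : Tendsto (fun n => ∑ k ∈ Finset.range n, wt G k) atTop atTop)
    (c : ℝ) {δ : ℝ} (hδ : 0 < δ) :
    ∀ᵐ ω ∂μ, (∃ k₁, ∀ k, k₁ ≤ k → ω ∈ near μ ℱ A c δ k) → ∀ ε : ℝ, 0 < ε →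
      ∀ᶠ n : ℕ in atTop, Real.exp (c - 2 * δ - 1 / 2) - ε < VG A G n ω / ∑ k ∈ Finset.range n, wt G k ∧
        VG A G n ω / ∑ k ∈ Finset.range n, wt G k < Real.exp (c + 2 * δ - 1 / 2) + ε := by
  classical
  obtain ⟨B, u, l, hBm, hu0, hu1, hl0, hl1, hup, hlow, hur, hlr, k₀, hk₀⟩ :=
    setup (μ := μ) hA hK0 hK hG c hδ
  obtain ⟨W, hWd⟩ : ∃ W : ℕ → ℝ, W = fun n => ∑ k ∈ Finset.range n, wt G k := ⟨_, rfl⟩
  have hWn : ∀ n, ∑ k ∈ Finset.range n, wt G k = W n := fun n => by rw [hWd]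
  have hUa := sum_ratio (wt_nonneg G) (wt_pos G) hur hW
  have hLa := sum_ratio (wt_nonneg G) (wt_pos G) hlr hW
  simp only [hWn] at hUa hLa hW ⊢
  have hUtop : Tendsto (fun n => ∑ k ∈ Finset.range n, u k) atTop atTop := by
    have h1 := hUa.pos_mul_atTop (Real.exp_pos _) hW
    refine h1.congr' ?_
    filter_upwards [hW.eventually_gt_atTop 0] with n hn
    field_simp
  have hlaw := count_law (μ := μ) hA B hBm G u hu0 hu1 hUtop hup
  have hq1 := fun k => qq_le_of (μ := μ) hA (hBm k) (hup k)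
  have hq2 := fun k => le_qq_of (μ := μ) hA (hBm k) (hlow k)
  filter_upwards [hlaw, ae_all_iff.2 hq1, ae_all_iff.2 hq2] with ω hlaw hq1 hq2 hnear ε hε
  obtain ⟨k₁, hk₁⟩ := hnear
  set U : ℕ → ℝ := fun n => ∑ k ∈ Finset.range n, u k with hUdef
  set T : ℕ → ℝ := fun n => ∑ k ∈ Finset.range n, (NN A B G k ω - QQ μ ℱ A B G k ω) with hT
  have hT0 : Tendsto (fun n : ℕ => T n / W n) atTop (𝓝 0) := by
    have h1 := hlaw.mul hUa
    rw [zero_mul] at h1
    refine h1.congr' ?_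
    filter_upwards [hUtop.eventually_gt_atTop 0] with n hn
    have hn' : 0 < U n := hn
    show T n / U n * (U n / W n) = T n / W n
    field_simp
  set k₂ := max k₀ k₁ with hk₂
  have hBk : ∀ k, k₂ ≤ k → ω ∈ B k := by
    intro k hk
    rw [hk₀ k ((le_max_left _ _).trans hk)]
    exact hk₁ k ((le_max_right _ _).trans hk)
  have hVN : ∀ n, VG A G n ω ≤ ∑ k ∈ Finset.range n, NN A B G k ω + k₂ := by
    intro n
    induction n with
    | zero => simp [VG]
    | succ n ih =>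
      by_cases hn : k₂ ≤ n
      · have h1 : NN A B G n ω = (run A n (G n)).indicator (fun _ => (1 : ℝ)) ω := by
          unfold NN
          rw [indicator_of_mem (hBk n hn), one_mul]
        unfold VG at ih ⊢
        rw [Finset.sum_range_succ, Finset.sum_range_succ, h1]
        linarith
      · have h1 : VG A G (n + 1) ω ≤ (n + 1 : ℕ) := by
          unfold VG
          calc ∑ k ∈ Finset.range (n + 1), (run A k (G k)).indicator (fun _ => (1 : ℝ)) ω
              ≤ ∑ k ∈ Finset.range (n + 1), (1 : ℝ) := Finset.sum_le_sum fun k _ => (ind01 _ ω).2.1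
            _ = _ := by simp
        have h2 : (0 : ℝ) ≤ ∑ k ∈ Finset.range (n + 1), NN A B G k ω :=
          Finset.sum_nonneg fun k _ => mul_nonneg (ind01 _ ω).1 (ind01 _ ω).1
        have h3 : ((n + 1 : ℕ) : ℝ) ≤ k₂ := by exact_mod_cast (by omega : n + 1 ≤ k₂)
        linarith
  have hNV : ∀ n, ∑ k ∈ Finset.range n, NN A B G k ω ≤ VG A G n ω := by
    intro n
    unfold VG
    apply Finset.sum_le_sum
    intro k _
    unfold NN
    have h1 := ind01 (B k) ω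
    have h2 := ind01 (run A k (G k)) ω
    nlinarith
  have hQU : ∀ n, ∑ k ∈ Finset.range n, QQ μ ℱ A B G k ω ≤ U n := by
    intro n
    apply Finset.sum_le_sum
    intro k _
    unfold QQ
    by_cases h : ω ∈ B k
    · rw [indicator_of_mem h, one_mul]
      exact hq1 k h
    · rw [indicator_of_notMem h, zero_mul]
      exact hu0 k
  have hLQ : ∀ n, ∑ k ∈ Finset.range n, l k - k₂ ≤ ∑ k ∈ Finset.range n, QQ μ ℱ A B G k ω := by
    intro n
    induction n with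
    | zero => simp
    | succ n ih =>
      rw [Finset.sum_range_succ, Finset.sum_range_succ]
      by_cases hn : k₂ ≤ n
      · have h1 : l n ≤ QQ μ ℱ A B G n ω := by
          unfold QQ
          rw [indicator_of_mem (hBk n hn), one_mul]
          exact hq2 n (hBk n hn)
        linarith
      · have h2 : ∑ k ∈ Finset.range n, l k ≤ n := by
          calc ∑ k ∈ Finset.range n, l k ≤ ∑ k ∈ Finset.range n, (1 : ℝ) := Finset.sum_le_sum fun k _ => hl1 k
            _ = n := by simp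
        have h3 : (0 : ℝ) ≤ ∑ k ∈ Finset.range n, QQ μ ℱ A B G k ω := by
          apply Finset.sum_nonneg
          intro k _
          unfold QQ
          by_cases h : ω ∈ B k
          · rw [indicator_of_mem h, one_mul]
            exact (hl0 k).trans (hq2 k h)
          · rw [indicator_of_notMem h, zero_mul]
        have h4 : 0 ≤ QQ μ ℱ A B G n ω := by
          unfold QQ
          by_cases h : ω ∈ B n
          · rw [indicator_of_mem h, one_mul]
            exact (hl0 n).trans (hq2 n h)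
          · rw [indicator_of_notMem h, zero_mul]
        have h5 : ((n : ℝ) + 1) ≤ k₂ := by exact_mod_cast (by omega : n + 1 ≤ k₂)
        have h6 := hl1 n
        linarith
  have hk₂0 : Tendsto (fun n : ℕ => (k₂ : ℝ) / W n) atTop (𝓝 0) := tendsto_const_nhds.div_atTop hW
  have hup2 : Tendsto (fun n : ℕ => (U n + T n + k₂) / W n) atTop (𝓝 (Real.exp (c + 2 * δ - 1 / 2))) := by
    have := (hUa.add hT0).add hk₂0
    rw [add_zero, add_zero] at this
    refine this.congr fun n => ?_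
    rw [add_div, add_div]
  have hlo2 : Tendsto (fun n : ℕ => (∑ k ∈ Finset.range n, l k + T n - k₂) / W n) atTop
      (𝓝 (Real.exp (c - 2 * δ - 1 / 2))) := by
    have := (hLa.add hT0).sub hk₂0
    rw [add_zero, sub_zero] at this
    refine this.congr fun n => ?_
    rw [sub_div, add_div]
  have hTsum : ∀ n, T n = ∑ k ∈ Finset.range n, NN A B G k ω - ∑ k ∈ Finset.range n, QQ μ ℱ A B G k ω := fun n =>
    Finset.sum_sub_distrib _ _
  filter_upwards [hup2.eventually (eventually_lt_nhds (show Real.exp (c + 2 * δ - 1 / 2) < Real.exp (c + 2 * δ - 1 / 2) + ε by linarith)),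
    hlo2.eventually (eventually_gt_nhds (show Real.exp (c - 2 * δ - 1 / 2) - ε < Real.exp (c - 2 * δ - 1 / 2) by linarith)),
    hW.eventually_gt_atTop 0] with n h1 h2 h3
  have h4 := hVN n
  have h5 := hNV n
  have h6 := hQU n
  have h7 := hLQ n
  have h8 := hTsum n
  constructor
  · refine h2.trans_le ?_
    apply div_le_div_of_nonneg_right _ h3.le
    linarith
  · refine lt_of_le_of_lt ?_ h1
    apply div_le_div_of_nonneg_right _ h3.le
    linarith

/-- the convergent case -/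
theorem conv (hA : ∀ n, MeasurableSet[ℱ n] (A n)) {K : ℝ} (hK0 : 0 ≤ K) {n₀ : ℕ}
    (hK : ∀ᵐ ω ∂μ, ∀ n, n₀ ≤ n → |(dens μ ℱ A (n + 1) ω)⁻¹ - (dens μ ℱ A n ω)⁻¹| ≤ K / n * |(dens μ ℱ A n ω)⁻¹|)
    {G : ℕ → ℕ} (hG : Tendsto (fun k => (G k : ℝ) / L1 k ^ 2) atTop (𝓝 1))
    (hW : Summable (wt G)) (c : ℝ) {δ : ℝ} (hδ : 0 < δ) :
    ∀ᵐ ω ∂μ, (∃ k₁, ∀ k, k₁ ≤ k → ω ∈ near μ ℱ A c δ k) → ∀ᶠ k in atTop, ω ∉ run A k (G k) := by
  obtain ⟨B, u, l, hBm, hu0, hu1, hl0, hl1, hup, hlow, hur, hlr, k₀, hk₀⟩ :=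
    setup (μ := μ) hA hK0 hK hG c hδ
  have hus : Summable u := by
    have h1 : u =O[atTop] (wt G) := by
      refine Asymptotics.isBigO_of_div_tendsto_nhds ?_ _ hur
      filter_upwards [wt_pos G] with k hk h0
      exact absurd h0 hk.ne'
    exact summable_of_isBigO_nat hW h1
  have hm : ∀ k, μ (B k ∩ run A k (G k)) ≤ ENNReal.ofReal (u k) := by
    intro k
    have h1 := hup k (B k) subset_rfl (hBm k)
    have h2 : μ.real (B k ∩ run A k (G k)) ≤ u k := by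
      refine h1.trans ?_
      have := hu0 k
      have h3 : μ.real (B k) ≤ 1 := measureReal_le_one
      nlinarith
    rw [← ofReal_measureReal (by exact measure_ne_top _ _)]
    exact ENNReal.ofReal_le_ofReal h2
  have hsum : ∑' k, μ (B k ∩ run A k (G k)) ≠ ∞ := by
    refine ne_top_of_le_ne_top ?_ (ENNReal.tsum_le_tsum hm)
    rw [← ENNReal.ofReal_tsum_of_nonneg hu0 hus]
    exact ENNReal.ofReal_ne_top
  filter_upwards [ae_eventually_notMem hsum] with ω hω ⟨k₁, hk₁⟩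
  filter_upwards [hω, eventually_ge_atTop k₀, eventually_ge_atTop k₁] with k h1 h2 h3 h4
  exact h1 ⟨by rw [hk₀ k h2]; exact hk₁ k h3, h4⟩

lemma near_all {ω : Ω} {C : ℝ} (hC : Tendsto (fun n : ℕ => (dens μ ℱ A n ω)⁻¹ - Real.log n) atTop (𝓝 C))
    {c δ : ℝ} (hδ : |C - c| < δ) : ∃ k₁, ∀ k, k₁ ≤ k → ω ∈ near μ ℱ A c δ k := by
  have hC' : Tendsto (fun k : ℕ => (dens μ ℱ A k ω)⁻¹ - L1 k) atTop (𝓝 C) := by
    have h3 : Tendsto (fun k : ℕ => Real.log ((k : ℝ) + 1) - Real.log k) atTop (𝓝 0) := by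
      have h4 : Tendsto (fun k : ℕ => Real.log (1 + 1 / (k : ℝ))) atTop (𝓝 (Real.log (1 + 0))) := by
        apply Tendsto.log
        · exact tendsto_const_nhds.add tendsto_one_div_atTop_nhds_zero_nat
        · norm_num
      rw [add_zero, Real.log_one] at h4
      refine h4.congr' ?_
      filter_upwards [eventually_ge_atTop 1] with k hk
      have hk' : (0 : ℝ) < k := by exact_mod_cast hk
      rw [← Real.log_div (by positivity) (by positivity)]
      congr 1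
      field_simp
    have h5 := hC.sub h3
    rw [sub_zero] at h5
    refine h5.congr fun k => ?_
    unfold L1
    ring
  rw [← eventually_atTop]
  filter_upwards [hC'.eventually (Metric.ball_mem_nhds C (show 0 < δ - |C - c| by linarith))] with k hk
  have hk : dist ((dens μ ℱ A k ω)⁻¹ - L1 k) C < δ - |C - c| := hk
  rw [Real.dist_eq] at hk
  show |(dens μ ℱ A k ω)⁻¹ - (L1 k + c)| ≤ δ
  have h1 : (dens μ ℱ A k ω)⁻¹ - (L1 k + c) = ((dens μ ℱ A k ω)⁻¹ - L1 k - C) + (C - c) := by ring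
  rw [h1]
  have := abs_add_le ((dens μ ℱ A k ω)⁻¹ - L1 k - C) (C - c)
  linarith

/-- **the number of long runs, divergent case** -/
theorem law_div (hA : ∀ n, MeasurableSet[ℱ n] (A n)) {K : ℝ} (hK0 : 0 ≤ K) {n₀ : ℕ}
    (hK : ∀ᵐ ω ∂μ, ∀ n, n₀ ≤ n → |(dens μ ℱ A (n + 1) ω)⁻¹ - (dens μ ℱ A n ω)⁻¹| ≤ K / n * |(dens μ ℱ A n ω)⁻¹|)
    {G : ℕ → ℕ} (hG : Tendsto (fun k => (G k : ℝ) / L1 k ^ 2) atTop (𝓝 1))
    (hW : Tendsto (fun n => ∑ k ∈ Finset.range n, wt G k) atTop atTop) :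
    ∀ᵐ ω ∂μ, ∀ C : ℝ, Tendsto (fun n : ℕ => (dens μ ℱ A n ω)⁻¹ - Real.log n) atTop (𝓝 C) →
      Tendsto (fun n : ℕ => VG A G n ω / ∑ k ∈ Finset.range n, wt G k) atTop (𝓝 (Real.exp (C - 1 / 2))) := by
  have h1 : ∀ (m : ℕ) (c : ℚ), ∀ᵐ ω ∂μ, (∃ k₁, ∀ k, k₁ ≤ k → ω ∈ near μ ℱ A c (1 / ((m : ℝ) + 1)) k) →
      ∀ ε : ℝ, 0 < ε → ∀ᶠ n : ℕ in atTop, Real.exp (c - 2 * (1 / ((m : ℝ) + 1)) - 1 / 2) - ε <
        VG A G n ω / ∑ k ∈ Finset.range n, wt G k ∧
        VG A G n ω / ∑ k ∈ Finset.range n, wt G k < Real.exp (c + 2 * (1 / ((m : ℝ) + 1)) - 1 / 2) + ε := by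
    intro m c
    exact core2 hA hK0 hK hG hW c (by positivity)
  have h2 := ae_all_iff.2 fun m => ae_all_iff.2 (h1 m)
  filter_upwards [h2] with ω h2 C hC
  have hcont : Tendsto (fun x : ℝ => Real.exp (C + x - 1 / 2)) (𝓝 0) (𝓝 (Real.exp (C - 1 / 2))) := by
    have h3 : Continuous (fun x : ℝ => Real.exp (C + x - 1 / 2)) := by fun_prop
    have := h3.tendsto 0
    simpa using this
  have hseq : Tendsto (fun m : ℕ => 3 * (1 / ((m : ℝ) + 1))) atTop (𝓝 0) := by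
    have := (tendsto_one_div_add_atTop_nhds_zero_nat (𝕜 := ℝ)).const_mul 3
    simpa using this
  have hkey : ∀ m : ℕ, ∀ ε : ℝ, 0 < ε → ∀ᶠ n : ℕ in atTop,
      Real.exp (C - 3 * (1 / ((m : ℝ) + 1)) - 1 / 2) - ε < VG A G n ω / ∑ k ∈ Finset.range n, wt G k ∧
        VG A G n ω / ∑ k ∈ Finset.range n, wt G k < Real.exp (C + 3 * (1 / ((m : ℝ) + 1)) - 1 / 2) + ε := by
    intro m ε hε
    have hm : 0 < 1 / ((m : ℝ) + 1) := by positivity
    obtain ⟨c, hc1, hc2⟩ := exists_rat_btwn (show C < C + 1 / ((m : ℝ) + 1) / 2 by linarith)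
    have h3 : ∃ k₁, ∀ k, k₁ ≤ k → ω ∈ near μ ℱ A c (1 / ((m : ℝ) + 1)) k := by
      apply near_all hC
      rw [abs_lt]
      constructor <;> linarith
    filter_upwards [h2 m c h3 ε hε] with n hn
    constructor
    · refine lt_of_le_of_lt ?_ hn.1
      have : Real.exp (C - 3 * (1 / ((m : ℝ) + 1)) - 1 / 2) ≤ Real.exp (c - 2 * (1 / ((m : ℝ) + 1)) - 1 / 2) :=
        Real.exp_le_exp.2 (by linarith)
      linarith
    · refine lt_of_lt_of_le hn.2 ?_
      have : Real.exp (c + 2 * (1 / ((m : ℝ) + 1)) - 1 / 2) ≤ Real.exp (C + 3 * (1 / ((m : ℝ) + 1)) - 1 / 2) :=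
        Real.exp_le_exp.2 (by linarith)
      linarith
  have hup := (hcont.comp hseq)
  have hlow := hcont.comp (by simpa using hseq.neg : Tendsto (fun m : ℕ => -(3 * (1 / ((m : ℝ) + 1)))) atTop (𝓝 0))
  rw [tendsto_order]
  constructor
  · intro a ha
    obtain ⟨m, hm⟩ := (hlow.eventually (eventually_gt_nhds ha)).exists
    simp only [Function.comp] at hm
    have h3 := hkey m (Real.exp (C + -(3 * (1 / ((m : ℝ) + 1))) - 1 / 2) - a) (by linarith)
    filter_upwards [h3] with n hn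
    have e : C - 3 * (1 / ((m : ℝ) + 1)) - 1 / 2 = C + -(3 * (1 / ((m : ℝ) + 1))) - 1 / 2 := by ring
    rw [e] at hn
    linarith [hn.1]
  · intro a ha
    obtain ⟨m, hm⟩ := (hup.eventually (eventually_lt_nhds ha)).exists
    simp only [Function.comp] at hm
    have h3 := hkey m (a - Real.exp (C + (3 * (1 / ((m : ℝ) + 1))) - 1 / 2)) (by linarith)
    filter_upwards [h3] with n hn
    linarith [hn.2]

/-- **the convergent case** -/
theorem law_conv (hA : ∀ n, MeasurableSet[ℱ n] (A n)) {K : ℝ} (hK0 : 0 ≤ K) {n₀ : ℕ}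
    (hK : ∀ᵐ ω ∂μ, ∀ n, n₀ ≤ n → |(dens μ ℱ A (n + 1) ω)⁻¹ - (dens μ ℱ A n ω)⁻¹| ≤ K / n * |(dens μ ℱ A n ω)⁻¹|)
    {G : ℕ → ℕ} (hG : Tendsto (fun k => (G k : ℝ) / L1 k ^ 2) atTop (𝓝 1)) (hW : Summable (wt G)) :
    ∀ᵐ ω ∂μ, ∀ C : ℝ, Tendsto (fun n : ℕ => (dens μ ℱ A n ω)⁻¹ - Real.log n) atTop (𝓝 C) →
      ∀ᶠ k in atTop, ω ∉ run A k (G k) := by
  have h1 : ∀ c : ℚ, ∀ᵐ ω ∂μ, (∃ k₁, ∀ k, k₁ ≤ k → ω ∈ near μ ℱ A c 1 k) →
      ∀ᶠ k in atTop, ω ∉ run A k (G k) := fun c => conv hA hK0 hK hG hW c one_pos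
  filter_upwards [ae_all_iff.2 h1] with ω h1 C hC
  obtain ⟨c, hc1, hc2⟩ := exists_rat_btwn (show C < C + 1 by linarith)
  refine h1 c (near_all hC ?_)
  rw [abs_lt]
  constructor <;> linarith

end Pool.Agent.R320.IT
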