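import Mathlib
import Pool.Agent.R320.IT.Core

set_option autoImplicit false
set_option linter.unusedSectionVars false

/-! # The integral test for gaps: general threshold -/

open MeasureTheory Filter Set
open scoped ENNReal Topology

namespace Pool.Agent.R320.IT

open Pool.Agent.R528.RM

/-- the run length belonging to the threshold `h` -/
noncomputable def rlen (h : ℕ → ℝ) (k : ℕ) : ℕ := ⌈h (k + 1)⌉₊ - 1

lemma log_succ (k : ℕ) : Real.log ((k + 1 : ℕ) : ℝ) = L1 k := by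
  unfold L1
  push_cast
  rfl

lemma rlen_bounds {h : ℕ → ℝ} {k : ℕ} (hk : 0 < h (k + 1)) :
    h (k + 1) - 1 ≤ rlen h k ∧ (rlen h k : ℝ) ≤ h (k + 1) := by
  have h1 : 0 < ⌈h (k + 1)⌉₊ := Nat.ceil_pos.2 hk
  have h2 : ((rlen h k : ℕ) : ℝ) + 1 = (⌈h (k + 1)⌉₊ : ℝ) := by
    unfold rlen
    have : ⌈h (k + 1)⌉₊ - 1 + 1 = ⌈h (k + 1)⌉₊ := by omega
    exact_mod_cast this
  have h3 := Nat.le_ceil (h (k + 1))
  have h4 := Nat.ceil_lt_add_one hk.le
  constructor <;> linarith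

lemma h_pos {h : ℕ → ℝ} (hh : Tendsto (fun n : ℕ => h n / Real.log n ^ 2) atTop (𝓝 1)) :
    ∀ᶠ k : ℕ in atTop, 0 < h (k + 1) ∧ 0 < L1 k := by
  have h1 := (tendsto_add_atTop_iff_nat 1).2 hh
  filter_upwards [h1.eventually (eventually_gt_nhds (show (1 / 2 : ℝ) < 1 by norm_num)),
    L1_top.eventually_gt_atTop 0] with k hk hL
  rw [log_succ, lt_div_iff₀ (by positivity)] at hk
  exact ⟨lt_trans (by positivity) hk, hL⟩

lemma rlen_lim {h : ℕ → ℝ} (hh : Tendsto (fun n : ℕ => h n / Real.log n ^ 2) atTop (𝓝 1)) :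
    Tendsto (fun k => (rlen h k : ℝ) / L1 k ^ 2) atTop (𝓝 1) := by
  have h1 : Tendsto (fun k : ℕ => h (k + 1) / L1 k ^ 2) atTop (𝓝 1) := by
    refine ((tendsto_add_atTop_iff_nat 1).2 hh).congr fun k => ?_
    rw [log_succ]
  have h2 : Tendsto (fun k : ℕ => 1 / L1 k ^ 2) atTop (𝓝 0) := by
    simp_rw [one_div]
    exact ((tendsto_pow_atTop (two_ne_zero)).comp L1_top).inv_tendsto_atTop
  have h3 := h1.sub h2
  rw [sub_zero] at h3
  refine tendsto_of_tendsto_of_tendsto_of_le_of_le' h3 h1 ?_ ?_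
  · filter_upwards [h_pos hh] with k hk
    rw [← sub_div]
    exact div_le_div_of_nonneg_right (rlen_bounds hk.1).1 (by positivity)
  · filter_upwards [h_pos hh] with k hk
    exact div_le_div_of_nonneg_right (rlen_bounds hk.1).2 (by positivity)

lemma v_ratio {h v : ℕ → ℝ} (hh : Tendsto (fun n : ℕ => h n / Real.log n ^ 2) atTop (𝓝 1))
    (hv : Tendsto (fun n : ℕ => v n * Real.log n * Real.exp (h n / Real.log n)) atTop (𝓝 1)) :
    Tendsto (fun k => v (k + 1) / wt (rlen h) k) atTop (𝓝 1) := by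
  have h0 : Tendsto (fun k : ℕ => -(1 / L1 k)) atTop (𝓝 0) := by
    simp_rw [one_div]
    simpa using L1_top.inv_tendsto_atTop.neg
  have h1 : Tendsto (fun k : ℕ => ((rlen h k : ℝ) - h (k + 1)) / L1 k) atTop (𝓝 0) := by
    refine tendsto_of_tendsto_of_tendsto_of_le_of_le' h0 (tendsto_const_nhds (x := (0 : ℝ))) ?_ ?_
    · filter_upwards [h_pos hh] with k hk
      have := (rlen_bounds hk.1).1
      rw [← neg_div]
      exact div_le_div_of_nonneg_right (by linarith) hk.2.le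
    · filter_upwards [h_pos hh] with k hk
      have := (rlen_bounds hk.1).2
      exact div_nonpos_of_nonpos_of_nonneg (by linarith) hk.2.le
  have h2 := (Real.continuous_exp.tendsto _).comp h1
  rw [Real.exp_zero] at h2
  have h3 := ((tendsto_add_atTop_iff_nat 1).2 hv).mul h2
  rw [one_mul] at h3
  refine h3.congr' ?_
  filter_upwards [h_pos hh] with k hk
  simp only [Function.comp, wt]
  rw [log_succ, sub_div, Real.exp_sub, Real.exp_neg]
  have hE := (Real.exp_pos ((rlen h k : ℝ) / L1 k)).ne'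
  have hE2 := (Real.exp_pos (h (k + 1) / L1 k)).ne'
  have := hk.2.ne'
  field_simp

lemma gap_iff {S : Set ℕ} (hS : S.Infinite) {n : ℕ} {x : ℝ} :
    x ≤ (pn S (n + 1) : ℝ) - pn S n ↔ ∀ j, 1 ≤ j → j ≤ ⌈x⌉₊ - 1 → pn S n + j ∉ S := by
  have h0 := nth_mono hS (Nat.lt_succ_self n)
  simp only [Nat.succ_eq_add_one] at h0
  have h1 := gap_ge_iff hS (n := n) (k := pn S n) rfl ((⌈x⌉₊ - 1 : ℕ) : ℝ)
  rw [Nat.ceil_natCast] at h1
  rw [← h1, Nat.cast_le]
  have h2 : (pn S (n + 1) : ℝ) - pn S n = ((pn S (n + 1) - pn S n : ℕ) : ℝ) := by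
    rw [Nat.cast_sub h0.le]
  rw [h2, ← Nat.ceil_le]
  unfold gap
  omega

variable {Ω : Type} {m0 : MeasurableSpace Ω} {μ : Measure Ω} [IsProbabilityMeasure μ]
  {ℱ : Filtration ℕ m0} {A : ℕ → Set Ω}

/-- the number of gaps at least `h` after members up to `x` -/
noncomputable def big (S : Set ℕ) (h : ℕ → ℝ) (x : ℕ) : ℕ :=
  Set.ncard {n : ℕ | pn S n ≤ x ∧ h (pn S n) ≤ (pn S (n + 1) : ℝ) - pn S n}

/-- comparison of the two counts -/
theorem big_VG (ω : Ω) (hS : (rset A ω).Infinite) (h : ℕ → ℝ) (x : ℕ) :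
    VG A (rlen h) x ω ≤ big (rset A ω) h x ∧ (big (rset A ω) h x : ℝ) ≤ VG A (rlen h) x ω + 1 := by
  classical
  obtain ⟨S, hSd⟩ : ∃ S : Set ℕ, S = rset A ω := ⟨_, rfl⟩
  have hmem : ∀ k, k ∈ S ↔ ω ∈ A k := fun k => by rw [hSd]; rfl
  rw [← hSd] at hS ⊢
  set P : ℕ → Prop := fun k => k ∈ S ∧ ∀ j, 1 ≤ j → j ≤ ⌈h k⌉₊ - 1 → k + j ∉ S with hP
  have h1 : big S h x = ((Finset.range (x + 1)).filter P).card := by
    unfold big
    rw [← Set.ncard_coe_finset, ← Set.ncard_image_of_injective _ (nth_mono hS).injective]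
    congr 1
    ext k
    simp only [mem_image, mem_ofPred_eq, Finset.coe_filter, Finset.mem_range]
    constructor
    · rintro ⟨n, ⟨hn1, hn2⟩, rfl⟩
      exact ⟨by omega, nth_mem hS n, (gap_iff hS).1 hn2⟩
    · rintro ⟨hk1, hk2, hk3⟩
      obtain ⟨n, hn⟩ := exists_nth hk2
      refine ⟨n, ⟨by omega, ?_⟩, hn⟩
      rw [gap_iff hS, hn]
      exact hk3
  have h2 : VG A (rlen h) x ω = ∑ k ∈ Finset.range x, (if P (k + 1) then (1 : ℝ) else 0) := by
    unfold VG
    apply Finset.sum_congr rfl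
    intro k _
    have h3 : ω ∈ run A k (rlen h k) ↔ P (k + 1) := by
      simp only [run, hP, mem_ofPred_eq, hmem, rlen]
    by_cases h : P (k + 1)
    · rw [indicator_of_mem (h3.2 h), if_pos h]
    · rw [indicator_of_notMem (fun h' => h (h3.1 h')), if_neg h]
  have h3 : (((Finset.range (x + 1)).filter P).card : ℝ) = ∑ k ∈ Finset.range (x + 1), (if P k then (1 : ℝ) else 0) := by
    rw [Finset.sum_boole]
  rw [h1, h3, h2, Finset.sum_range_succ']
  have h4 : (0 : ℝ) ≤ (if P 0 then (1 : ℝ) else 0) ∧ (if P 0 then (1 : ℝ) else 0) ≤ (1 : ℝ) := by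
    split_ifs <;> norm_num
  constructor <;> linarith [h4.1, h4.2]

lemma hC2 {ω : Ω} {C : ℝ} (hC : Tendsto (fun n : ℕ => (dens μ ℱ A n ω)⁻¹ - Real.log n) atTop (𝓝 C)) :
    Tendsto (fun n : ℕ => ((dens μ ℱ A n ω)⁻¹ - Real.log n) / Real.log (Real.log (Real.log n))) atTop (𝓝 0) :=
  hC.div_atTop tendsto_lll

/-- **the integral test** -/
theorem gen (hA : ∀ n, MeasurableSet[ℱ n] (A n)) (K : ℝ) (n₀ : ℕ)
    (hK : ∀ᵐ ω ∂μ, ∀ n, n₀ ≤ n → |(dens μ ℱ A (n + 1) ω)⁻¹ - (dens μ ℱ A n ω)⁻¹| ≤ K / n * |(dens μ ℱ A n ω)⁻¹|)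
    (hC : ∀ᵐ ω ∂μ, ∃ C : ℝ, Tendsto (fun n : ℕ => (dens μ ℱ A n ω)⁻¹ - Real.log n) atTop (𝓝 C))
    {h v : ℕ → ℝ} (hh : Tendsto (fun n : ℕ => h n / Real.log n ^ 2) atTop (𝓝 1)) (hv0 : ∀ n, 0 ≤ v n)
    (hv : Tendsto (fun n : ℕ => v n * Real.log n * Real.exp (h n / Real.log n)) atTop (𝓝 1)) :
    ∀ᵐ ω ∂μ, (rset A ω).Infinite ∧ ∃ C : ℝ,
      Tendsto (fun n : ℕ => (dens μ ℱ A n ω)⁻¹ - Real.log n) atTop (𝓝 C) ∧
      (¬ Summable v → Tendsto (fun x : ℕ => (big (rset A ω) h x : ℝ) / ∑ n ∈ Finset.range (x + 1), v n) atTop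
        (𝓝 (Real.exp (C - 1 / 2)))) ∧
      (Summable v → ∀ᶠ n in atTop, (pn (rset A ω) (n + 1) : ℝ) - pn (rset A ω) n < h (pn (rset A ω) n)) := by
  have hK' : ∀ᵐ ω ∂μ, ∀ n, n₀ ≤ n → |(dens μ ℱ A (n + 1) ω)⁻¹ - (dens μ ℱ A n ω)⁻¹| ≤
      |K| / n * |(dens μ ℱ A n ω)⁻¹| := by
    filter_upwards [hK] with ω hω n hn
    refine (hω n hn).trans ?_
    apply mul_le_mul_of_nonneg_right _ (abs_nonneg _)
    exact div_le_div_of_nonneg_right (le_abs_self K) (Nat.cast_nonneg n)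
  have hG := rlen_lim hh
  have hr := v_ratio hh hv
  have hr' : Tendsto (fun k => wt (rlen h) k / v (k + 1)) atTop (𝓝 1) := by
    have := hr.inv₀ one_ne_zero
    rw [inv_one] at this
    exact this.congr fun k => by rw [inv_div]
  have hvp : ∀ᶠ k in atTop, 0 < v (k + 1) := by
    filter_upwards [hr.eventually (eventually_gt_nhds (show (0 : ℝ) < 1 by norm_num)), wt_pos (rlen h)] with k h1 h2
    by_contra h3
    have h4 : v (k + 1) = 0 := le_antisymm (not_lt.1 h3) (hv0 _)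
    rw [h4, zero_div] at h1
    exact lt_irrefl _ h1
  have hinf : ∀ᵐ ω ∂μ, (rset A ω).Infinite := by
    have := second_order (μ := μ) hA (by
      filter_upwards [hC] with ω ⟨C, hC⟩
      exact hC2 hC)
    exact this.mono fun ω h => h.1
  by_cases hs : Summable v
  · have hs1 : Summable (fun k => v (k + 1)) := (summable_nat_add_iff 1).2 hs
    have hW : Summable (wt (rlen h)) := by
      have h1 : wt (rlen h) =O[atTop] (fun k => v (k + 1)) := by
        refine Asymptotics.isBigO_of_div_tendsto_nhds ?_ _ hr'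
        filter_upwards [hvp] with k hk h0
        exact absurd h0 hk.ne'
      exact summable_of_isBigO_nat hs1 h1
    filter_upwards [hinf, hC, law_conv (μ := μ) hA (abs_nonneg K) hK' hG hW] with ω hS ⟨C, hC⟩ hω
    refine ⟨hS, C, hC, fun h => absurd hs h, fun _ => ?_⟩
    have h1 := hω C hC
    rw [eventually_atTop] at h1
    obtain ⟨k₁, hk₁⟩ := h1
    filter_upwards [(tendsto_nth hS).eventually_ge_atTop (k₁ + 1)] with n hn
    by_contra hcon
    push Not at hcon
    have h2 := (gap_iff hS).1 hcon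
    obtain ⟨k, hk⟩ : ∃ k, pn (rset A ω) n = k + 1 := ⟨pn (rset A ω) n - 1, by omega⟩
    refine hk₁ k (by omega) ?_
    have h3 := nth_mem hS n
    rw [hk] at h2 h3
    exact ⟨h3, fun j hj1 hj2 => h2 j hj1 hj2⟩
  · have hs1 : ¬ Summable (fun k => v (k + 1)) := fun h => hs ((summable_nat_add_iff 1).1 h)
    have hV1 : Tendsto (fun n => ∑ k ∈ Finset.range n, v (k + 1)) atTop atTop :=
      (not_summable_iff_tendsto_nat_atTop_of_nonneg fun k => hv0 _).1 hs1
    have hW : Tendsto (fun n => ∑ k ∈ Finset.range n, wt (rlen h) k) atTop atTop := by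
      refine (not_summable_iff_tendsto_nat_atTop_of_nonneg (wt_nonneg _)).1 fun hsum => hs1 ?_
      have h1 : (fun k => v (k + 1)) =O[atTop] wt (rlen h) := by
        refine Asymptotics.isBigO_of_div_tendsto_nhds ?_ _ hr
        filter_upwards [wt_pos (rlen h)] with k hk h0
        exact absurd h0 hk.ne'
      exact summable_of_isBigO_nat hsum h1
    have hsr := sum_ratio (fun k => hv0 (k + 1)) hvp hr' hV1
    filter_upwards [hinf, hC, law_div (μ := μ) hA (abs_nonneg K) hK' hG hW] with ω hS ⟨C, hC⟩ hω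
    refine ⟨hS, C, hC, fun _ => ?_, fun h => absurd h hs⟩
    have h1 := (hω C hC).mul hsr
    rw [mul_one] at h1
    have h2 : Tendsto (fun n : ℕ => VG A (rlen h) n ω / ∑ k ∈ Finset.range n, v (k + 1)) atTop
        (𝓝 (Real.exp (C - 1 / 2))) := by
      refine h1.congr' ?_
      filter_upwards [hW.eventually_gt_atTop 0] with n hn
      have := hn.ne'
      field_simp
    have h3 : Tendsto (fun n : ℕ => (big (rset A ω) h n : ℝ) / ∑ k ∈ Finset.range n, v (k + 1)) atTop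
        (𝓝 (Real.exp (C - 1 / 2))) := by
      have h4 : Tendsto (fun n : ℕ => VG A (rlen h) n ω / ∑ k ∈ Finset.range n, v (k + 1) +
          1 / ∑ k ∈ Finset.range n, v (k + 1)) atTop (𝓝 (Real.exp (C - 1 / 2) + 0)) :=
        h2.add (tendsto_const_nhds.div_atTop hV1)
      rw [add_zero] at h4
      refine tendsto_of_tendsto_of_tendsto_of_le_of_le' h2 h4 ?_ ?_
      · filter_upwards [hV1.eventually_gt_atTop 0] with x hx
        exact div_le_div_of_nonneg_right (big_VG ω hS h x).1 hx.le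
      · filter_upwards [hV1.eventually_gt_atTop 0] with x hx
        rw [← add_div]
        exact div_le_div_of_nonneg_right (big_VG ω hS h x).2 hx.le
    have h5 : Tendsto (fun n : ℕ => (∑ k ∈ Finset.range n, v (k + 1)) / ∑ k ∈ Finset.range (n + 1), v k) atTop
        (𝓝 1) := by
      have h6 : Tendsto (fun n : ℕ => 1 - v 0 / ((∑ k ∈ Finset.range n, v (k + 1)) + v 0)) atTop (𝓝 (1 - 0)) :=
        tendsto_const_nhds.sub (tendsto_const_nhds.div_atTop (tendsto_atTop_add_const_right _ _ hV1))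
      rw [sub_zero] at h6
      refine h6.congr' ?_
      filter_upwards [hV1.eventually_gt_atTop 0] with n hn
      rw [Finset.sum_range_succ']
      have : (∑ k ∈ Finset.range n, v (k + 1)) + v 0 ≠ 0 := by
        have := hv0 0
        linarith
      field_simp
      ring
    have h7 := h3.mul h5
    rw [mul_one] at h7
    refine h7.congr' ?_
    filter_upwards [hV1.eventually_gt_atTop 0] with n hn
    have := hn.ne'
    field_simp

end Pool.Agent.R320.IT
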