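import Mathlib
import Pool.Agent.R320.IT.Gen

set_option autoImplicit false
set_option linter.unusedSectionVars false

/-! # The integral test for differences of square roots -/

open MeasureTheory Filter Set
open scoped ENNReal Topology

namespace Pool.Agent.R320.IT

open Pool.Agent.R528.RM

/-- the weight -/
noncomputable def wf (f : ℕ → ℝ) (n : ℕ) : ℝ := Real.exp (-(2 * √n * f n / Real.log n)) / Real.log n

lemma wf_nonneg (f : ℕ → ℝ) (n : ℕ) : 0 ≤ wf f n := by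
  unfold wf
  rcases Nat.eq_zero_or_pos n with h | h
  · subst h; simp
  · exact div_nonneg (Real.exp_pos _).le (Real.log_nonneg (by exact_mod_cast h))

/-- the threshold for the gaps -/
noncomputable def hf (f : ℕ → ℝ) (n : ℕ) : ℝ := 2 * √n * max (f n) 0 + max (f n) 0 ^ 2

lemma sqrt_iff {p q : ℕ} (hpq : p < q) (y : ℝ) :
    y ≤ √q - √p ↔ 2 * √p * max y 0 + max y 0 ^ 2 ≤ (q : ℝ) - p := by
  have hq : √(q : ℝ) ^ 2 = q := Real.sq_sqrt (Nat.cast_nonneg q)
  have hp : √(p : ℝ) ^ 2 = p := Real.sq_sqrt (Nat.cast_nonneg p)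
  have h0 : 0 ≤ √(p : ℝ) := Real.sqrt_nonneg _
  have h1 : 0 ≤ √(q : ℝ) := Real.sqrt_nonneg _
  have h2 : √(p : ℝ) ≤ √(q : ℝ) := Real.sqrt_le_sqrt (by exact_mod_cast hpq.le)
  obtain ⟨z, hz⟩ : ∃ z, z = max y 0 := ⟨_, rfl⟩
  have hz0 : 0 ≤ z := by rw [hz]; exact le_max_right _ _
  have e1 : y ≤ √q - √p ↔ z ≤ √q - √p := by
    rw [hz, max_le_iff]
    exact ⟨fun h => ⟨h, by linarith⟩, fun h => h.1⟩
  rw [e1, ← hz]
  constructor
  · intro h
    nlinarith
  · intro h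
    have h3 : (√(p : ℝ) + z) ^ 2 ≤ √(q : ℝ) ^ 2 := by nlinarith
    have := abs_le_of_sq_le_sq' h3 h1
    linarith [this.2]

lemma log_pow_div (m : ℕ) : Tendsto (fun n : ℕ => Real.log n ^ m / (n : ℝ)) atTop (𝓝 0) := by
  have h1 : Tendsto (fun x : ℝ => Real.log x ^ m / x) atTop (𝓝 0) :=
    (Real.isLittleO_pow_log_id_atTop (n := m)).tendsto_div_nhds_zero
  exact h1.comp tendsto_natCast_atTop_atTop

lemma f_facts {f : ℕ → ℝ} (hf : Tendsto (fun n : ℕ => 2 * √n * f n / Real.log n ^ 2) atTop (𝓝 1)) :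
    Tendsto (fun n : ℕ => f n ^ 2 / Real.log n) atTop (𝓝 0) ∧
      Tendsto (fun n : ℕ => f n ^ 2 / Real.log n ^ 2) atTop (𝓝 0) ∧ ∀ᶠ n in atTop, 0 < f n := by
  refine ⟨?_, ?_, ?_⟩
  · have h1 := (hf.pow 2).mul ((log_pow_div 3).div_const 4)
    rw [zero_div, mul_zero] at h1
    refine h1.congr' ?_
    filter_upwards [tendsto_log.eventually_gt_atTop 0, eventually_gt_atTop 0] with n hn hn0
    have hn' : (0 : ℝ) < n := by exact_mod_cast hn0
    have e : (2 * √(n : ℝ) * f n / Real.log n ^ 2) ^ 2 * (Real.log n ^ 3 / n / 4) =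
        (√(n : ℝ) ^ 2) * f n ^ 2 / (n * Real.log n) := by
      field_simp
      ring
    rw [e, Real.sq_sqrt hn'.le]
    field_simp
  · have h1 := (hf.pow 2).mul ((log_pow_div 2).div_const 4)
    rw [zero_div, mul_zero] at h1
    refine h1.congr' ?_
    filter_upwards [tendsto_log.eventually_gt_atTop 0, eventually_gt_atTop 0] with n hn hn0
    have hn' : (0 : ℝ) < n := by exact_mod_cast hn0
    have e : (2 * √(n : ℝ) * f n / Real.log n ^ 2) ^ 2 * (Real.log n ^ 2 / n / 4) =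
        (√(n : ℝ) ^ 2) * f n ^ 2 / (n * Real.log n ^ 2) := by
      field_simp
      ring
    rw [e, Real.sq_sqrt hn'.le]
    field_simp
  · filter_upwards [hf.eventually (eventually_gt_nhds (show (0 : ℝ) < 1 by norm_num)),
      tendsto_log.eventually_gt_atTop 0, eventually_gt_atTop 0] with n h1 h2 h3
    have hn' : (0 : ℝ) < √(n : ℝ) := Real.sqrt_pos.2 (by exact_mod_cast h3)
    have h4 : 0 < 2 * √(n : ℝ) * f n := by
      have h5 := mul_pos h1 (pow_pos h2 2)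
      rwa [div_mul_cancel₀ _ (pow_pos h2 2).ne'] at h5
    exact pos_of_mul_pos_right h4 (by positivity)

variable {Ω : Type} {m0 : MeasurableSpace Ω} {μ : Measure Ω} [IsProbabilityMeasure μ]
  {ℱ : Filtration ℕ m0} {A : ℕ → Set Ω}

/-- the number of large differences of square roots -/
noncomputable def bigRoot (S : Set ℕ) (f : ℕ → ℝ) (x : ℕ) : ℕ :=
  Set.ncard {n : ℕ | pn S n ≤ x ∧ f (pn S n) ≤ √(pn S (n + 1)) - √(pn S n)}

/-- **the integral test for the differences of square roots** -/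
theorem andrica (hA : ∀ n, MeasurableSet[ℱ n] (A n)) (K : ℝ) (n₀ : ℕ)
    (hK : ∀ᵐ ω ∂μ, ∀ n, n₀ ≤ n → |(dens μ ℱ A (n + 1) ω)⁻¹ - (dens μ ℱ A n ω)⁻¹| ≤ K / n * |(dens μ ℱ A n ω)⁻¹|)
    (hC : ∀ᵐ ω ∂μ, ∃ C : ℝ, Tendsto (fun n : ℕ => (dens μ ℱ A n ω)⁻¹ - Real.log n) atTop (𝓝 C))
    {f : ℕ → ℝ} (hf : Tendsto (fun n : ℕ => 2 * √n * f n / Real.log n ^ 2) atTop (𝓝 1)) :
    ∀ᵐ ω ∂μ, (rset A ω).Infinite ∧ ∃ C : ℝ,
      Tendsto (fun n : ℕ => (dens μ ℱ A n ω)⁻¹ - Real.log n) atTop (𝓝 C) ∧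
      (¬ Summable (wf f) → Tendsto (fun x : ℕ => (bigRoot (rset A ω) f x : ℝ) /
        ∑ n ∈ Finset.range (x + 1), wf f n) atTop (𝓝 (Real.exp (C - 1 / 2)))) ∧
      (Summable (wf f) → ∀ᶠ n in atTop, √(pn (rset A ω) (n + 1)) - √(pn (rset A ω) n) < f (pn (rset A ω) n)) := by
  obtain ⟨hf1, hf2, hf3⟩ := f_facts hf
  have hh : Tendsto (fun n : ℕ => IT.hf f n / Real.log n ^ 2) atTop (𝓝 1) := by
    have h1 := hf.add hf2
    rw [add_zero] at h1
    refine h1.congr' ?_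
    filter_upwards [hf3] with n hn
    unfold IT.hf
    rw [max_eq_left hn.le]
    ring
  have hv : Tendsto (fun n : ℕ => wf f n * Real.log n * Real.exp (IT.hf f n / Real.log n)) atTop (𝓝 1) := by
    have h1 := (Real.continuous_exp.tendsto _).comp hf1
    rw [Real.exp_zero] at h1
    refine h1.congr' ?_
    filter_upwards [hf3, tendsto_log.eventually_gt_atTop 0] with n hn hL
    simp only [Function.comp]
    unfold IT.hf wf
    rw [max_eq_left hn.le, div_mul_cancel₀ _ hL.ne', ← Real.exp_add]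
    congr 1
    ring
  filter_upwards [gen (μ := μ) hA K n₀ hK hC hh (wf_nonneg f) hv] with ω ⟨hS, C, h1, h2, h3⟩
  have hlt : ∀ n, pn (rset A ω) n < pn (rset A ω) (n + 1) := fun n => nth_mono hS (Nat.lt_succ_self n)
  refine ⟨hS, C, h1, fun h => ?_, fun h => ?_⟩
  · refine (h2 h).congr fun x => ?_
    congr 2
    unfold big bigRoot
    congr 1
    ext n
    simp only [mem_ofPred_eq]
    rw [sqrt_iff (hlt n)]
    rfl
  · filter_upwards [h3 h] with n hn
    by_contra hcon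
    push Not at hcon
    rw [sqrt_iff (hlt n)] at hcon
    exact absurd hcon (not_le.2 hn)

lemma wf_log : wf (fun n => Real.log n ^ 2 / (2 * √n)) = fun n : ℕ => 1 / ((n : ℝ) * Real.log n) := by
  funext n
  unfold wf
  rcases Nat.eq_zero_or_pos n with h | h
  · subst h; simp
  · have hn : (0 : ℝ) < n := by exact_mod_cast h
    have hs : 0 < √(n : ℝ) := Real.sqrt_pos.2 hn
    rcases eq_or_ne (Real.log n) 0 with h0 | h0
    · rw [h0]; simp
    · have e : 2 * √(n : ℝ) * (Real.log n ^ 2 / (2 * √n)) / Real.log n = Real.log n := by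
        field_simp
      rw [e, Real.exp_neg, Real.exp_log hn]
      field_simp

lemma sum_inv_log : Tendsto (fun x : ℕ => (∑ n ∈ Finset.range (x + 1), 1 / ((n : ℝ) * Real.log n)) /
    Real.log (Real.log x)) atTop (𝓝 1) := by
  have h1 := sum_asymp (fun k : ℕ => 1 / (((k : ℝ) + 1) * Real.log (k + 1))) 1 (by
    refine (tendsto_const_nhds (x := (1 : ℝ))).congr' ?_
    filter_upwards [L1_top.eventually_gt_atTop 0] with k hk
    have hk' : 0 < Real.log ((k : ℝ) + 1) := hk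
    have : (0 : ℝ) < (k : ℝ) + 1 := by positivity
    field_simp)
  refine h1.congr fun x => ?_
  have h2 : ∑ n ∈ Finset.range (x + 1), 1 / ((n : ℝ) * Real.log n) =
      ∑ k ∈ Finset.range x, 1 / (((k : ℝ) + 1) * Real.log (k + 1)) := by
    rw [Finset.sum_range_succ']
    simp
  rw [h2]
  rfl

lemma f0_lim : Tendsto (fun n : ℕ => 2 * √n * (Real.log n ^ 2 / (2 * √n)) / Real.log n ^ 2) atTop (𝓝 1) := by
  refine (tendsto_const_nhds (x := (1 : ℝ))).congr' ?_
  filter_upwards [tendsto_log.eventually_gt_atTop 0, eventually_gt_atTop 0] with n hn hn0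
  have hs : 0 < √(n : ℝ) := Real.sqrt_pos.2 (by exact_mod_cast hn0)
  field_simp

lemma not_summable_w0 : ¬ Summable (fun n : ℕ => 1 / ((n : ℝ) * Real.log n)) := by
  have h0 : ∀ n : ℕ, 0 ≤ 1 / ((n : ℝ) * Real.log n) := fun n => by
    rw [← congrFun wf_log n]; exact wf_nonneg _ n
  rw [not_summable_iff_tendsto_nat_atTop_of_nonneg h0]
  refine (tendsto_add_atTop_iff_nat 1).1 ?_
  have hll : Tendsto (fun n : ℕ => Real.log (Real.log (n : ℝ))) atTop atTop :=
    (Real.tendsto_log_atTop.comp Real.tendsto_log_atTop).comp tendsto_natCast_atTop_atTop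
  refine (sum_inv_log.pos_mul_atTop one_pos hll).congr' ?_
  filter_upwards [hll.eventually_gt_atTop 0] with x hx
  field_simp

/-- the integral test with the explicit example -/
theorem andrica_all (hA : ∀ n, MeasurableSet[ℱ n] (A n)) (K : ℝ) (n₀ : ℕ)
    (hK : ∀ᵐ ω ∂μ, ∀ n, n₀ ≤ n → |(dens μ ℱ A (n + 1) ω)⁻¹ - (dens μ ℱ A n ω)⁻¹| ≤ K / n * |(dens μ ℱ A n ω)⁻¹|)
    (hC : ∀ᵐ ω ∂μ, ∃ C : ℝ, Tendsto (fun n : ℕ => (dens μ ℱ A n ω)⁻¹ - Real.log n) atTop (𝓝 C))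
    {f : ℕ → ℝ} (hf : Tendsto (fun n : ℕ => 2 * √n * f n / Real.log n ^ 2) atTop (𝓝 1)) :
    ∀ᵐ ω ∂μ, (rset A ω).Infinite ∧ ∃ C : ℝ,
      Tendsto (fun n : ℕ => (dens μ ℱ A n ω)⁻¹ - Real.log n) atTop (𝓝 C) ∧
      (¬ Summable (wf f) → Tendsto (fun x : ℕ => (bigRoot (rset A ω) f x : ℝ) /
        ∑ n ∈ Finset.range (x + 1), wf f n) atTop (𝓝 (Real.exp (C - 1 / 2)))) ∧
      (Summable (wf f) → ∀ᶠ n in atTop, √(pn (rset A ω) (n + 1)) - √(pn (rset A ω) n) < f (pn (rset A ω) n)) ∧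
      Tendsto (fun x : ℕ => (bigRoot (rset A ω) (fun n => Real.log n ^ 2 / (2 * √n)) x : ℝ) /
        Real.log (Real.log x)) atTop (𝓝 (Real.exp (C - 1 / 2))) := by
  filter_upwards [andrica (μ := μ) hA K n₀ hK hC hf, andrica (μ := μ) hA K n₀ hK hC f0_lim] with ω
    ⟨hS, C, h1, h2, h3⟩ ⟨_, C', h1', h2', _⟩
  have hCC : C' = C := tendsto_nhds_unique h1' h1
  subst hCC
  refine ⟨hS, C', h1, h2, h3, ?_⟩
  rw [wf_log] at h2'
  have h4 := (h2' not_summable_w0).mul sum_inv_log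
  rw [mul_one] at h4
  refine h4.congr' ?_
  have hpos : Tendsto (fun x : ℕ => ∑ n ∈ Finset.range (x + 1), 1 / ((n : ℝ) * Real.log n)) atTop atTop := by
    have h0 : ∀ n : ℕ, 0 ≤ 1 / ((n : ℝ) * Real.log n) := fun n => by
      rw [← congrFun wf_log n]; exact wf_nonneg _ n
    exact (tendsto_add_atTop_iff_nat 1).2 ((not_summable_iff_tendsto_nat_atTop_of_nonneg h0).1 not_summable_w0)
  filter_upwards [hpos.eventually_gt_atTop 0] with x hx
  have := hx.ne'
  field_simp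

end Pool.Agent.R320.IT
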