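import Mathlib
import Pool.Agent.R528.RM.StrongLaw
import Pool.Agent.R320.IT.Core

set_option autoImplicit false
set_option linter.unusedSectionVars false

/-! # Counting the events of a sequence with nested information -/

open MeasureTheory Filter Set
open scoped ENNReal Topology

namespace Pool.Agent.R320.IT

open Pool.Agent.R528.RM

variable {Ω : Type} {m0 : MeasurableSpace Ω} {μ : Measure Ω} [IsProbabilityMeasure μ]

/-- conditional probability of an event -/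
noncomputable def cp (μ : Measure Ω) (𝒢 : MeasurableSpace Ω) (N : Set Ω) : Ω → ℝ :=
  μ[N.indicator (fun _ => (1 : ℝ)) | 𝒢]

lemma ind_int' {N : Set Ω} (hN : MeasurableSet N) : Integrable (N.indicator (fun _ => (1 : ℝ))) μ :=
  (integrable_const _).indicator hN

lemma int_cp {𝒢 : MeasurableSpace Ω} (hle : 𝒢 ≤ m0) {N : Set Ω} (hN : MeasurableSet[m0] N) {T : Set Ω}
    (hT : MeasurableSet[𝒢] T) : ∫ ω in T, cp μ 𝒢 N ω ∂μ = μ.real (T ∩ N) := by
  unfold cp
  rw [setIntegral_condExp hle (ind_int' hN) hT, setIntegral_indicator hN, setIntegral_const, smul_eq_mul,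
    mul_one]

lemma cp_le {𝒢 : MeasurableSpace Ω} (hle : 𝒢 ≤ m0) {N : Set Ω} (hN : MeasurableSet[m0] N) {u : ℝ}
    (hup : ∀ C, MeasurableSet[𝒢] C → μ.real (C ∩ N) ≤ u * μ.real C) : ∀ᵐ ω ∂μ, cp μ 𝒢 N ω ≤ u := by
  have hqm : StronglyMeasurable[𝒢] (cp μ 𝒢 N) := stronglyMeasurable_condExp
  have hqi : Integrable (cp μ 𝒢 N) μ := integrable_condExp
  rw [ae_iff]
  set T : Set Ω := {ω | u < cp μ 𝒢 N ω} with hT
  have hTm : MeasurableSet[𝒢] T := hqm.measurable measurableSet_Ioi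
  have hTm0 : MeasurableSet[m0] T := hle _ hTm
  have h2 := hup T hTm
  rw [← int_cp hle hN hTm] at h2
  have h4 : ∫ ω in T, (cp μ 𝒢 N ω - u) ∂μ ≤ 0 := by
    rw [integral_sub hqi.integrableOn (integrable_const _).integrableOn, setIntegral_const, smul_eq_mul]
    linarith
  have h5 : μ T = 0 := by
    by_contra hne
    have h6 : 0 < ∫ ω in T, (cp μ 𝒢 N ω - u) ∂μ := by
      rw [setIntegral_pos_iff_support_of_nonneg_ae]
      · have h7 : Function.support (fun ω => cp μ 𝒢 N ω - u) ∩ T = T := by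
          ext ω
          simp only [mem_inter_iff, Function.mem_support, ne_eq]
          constructor
          · exact fun h => h.2
          · exact fun h => ⟨by have : u < cp μ 𝒢 N ω := h; intro h0; linarith, h⟩
        rw [h7]
        exact pos_iff_ne_zero.2 hne
      · rw [EventuallyLE, ae_restrict_iff' hTm0]
        exact Eventually.of_forall fun ω h => by
          have : u < cp μ 𝒢 N ω := h
          simp only [Pi.zero_apply]; linarith
      · exact (hqi.sub (integrable_const _)).integrableOn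
    linarith
  refine measure_mono_null (fun ω h => ?_) h5
  simp only [mem_ofPred_eq, not_le] at h
  exact h

lemma le_cp {𝒢 : MeasurableSpace Ω} (hle : 𝒢 ≤ m0) {N B : Set Ω} (hN : MeasurableSet[m0] N)
    (hB : MeasurableSet[𝒢] B) {l : ℝ}
    (hlow : ∀ C ⊆ B, MeasurableSet[𝒢] C → l * μ.real C ≤ μ.real (C ∩ N)) :
    ∀ᵐ ω ∂μ, ω ∈ B → l ≤ cp μ 𝒢 N ω := by
  have hqm : StronglyMeasurable[𝒢] (cp μ 𝒢 N) := stronglyMeasurable_condExp
  have hqi : Integrable (cp μ 𝒢 N) μ := integrable_condExp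
  rw [ae_iff]
  set T : Set Ω := {ω | ω ∈ B ∧ cp μ 𝒢 N ω < l} with hT
  have hTm : MeasurableSet[𝒢] T := by
    have h2 : MeasurableSet[𝒢] {ω | cp μ 𝒢 N ω < l} := hqm.measurable measurableSet_Iio
    exact @MeasurableSet.inter _ 𝒢 _ _ hB h2
  have hTm0 : MeasurableSet[m0] T := hle _ hTm
  have h2 := hlow T (fun ω h => h.1) hTm
  rw [← int_cp hle hN hTm] at h2
  have h4 : ∫ ω in T, (l - cp μ 𝒢 N ω) ∂μ ≤ 0 := by
    rw [integral_sub (integrable_const _).integrableOn hqi.integrableOn, setIntegral_const, smul_eq_mul]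
    linarith
  have h5 : μ T = 0 := by
    by_contra hne
    have h6 : 0 < ∫ ω in T, (l - cp μ 𝒢 N ω) ∂μ := by
      rw [setIntegral_pos_iff_support_of_nonneg_ae]
      · have h7 : Function.support (fun ω => l - cp μ 𝒢 N ω) ∩ T = T := by
          ext ω
          simp only [mem_inter_iff, Function.mem_support, ne_eq]
          constructor
          · exact fun h => h.2
          · exact fun h => ⟨by have := h.2; intro h0; linarith, h⟩
        rw [h7]
        exact pos_iff_ne_zero.2 hne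
      · rw [EventuallyLE, ae_restrict_iff' hTm0]
        exact Eventually.of_forall fun ω h => by simp only [Pi.zero_apply]; linarith [h.2]
      · exact ((integrable_const _).sub hqi).integrableOn
    linarith
  refine measure_mono_null (fun ω h => ?_) h5
  simp only [mem_ofPred_eq, Classical.not_imp, not_le] at h
  exact h

/-- the counting law -/
theorem count_gen (𝒢 : ℕ → MeasurableSpace Ω) (hle : ∀ k, 𝒢 k ≤ m0) (E : ℕ → Set Ω)
    (hE0 : ∀ i, MeasurableSet (E i)) (hE : ∀ i j, i < j → MeasurableSet[𝒢 j] (E i))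
    (hmono : ∀ i j, i ≤ j → 𝒢 i ≤ 𝒢 j)
    (u : ℕ → ℝ) (hu0 : ∀ k, 0 ≤ u k) (hu1 : ∀ k, u k ≤ 1)
    (hU : Tendsto (fun n => ∑ k ∈ Finset.range n, u k) atTop atTop)
    (hup : ∀ k, ∀ C, MeasurableSet[𝒢 k] C → μ.real (C ∩ E k) ≤ u k * μ.real C) :
    ∀ᵐ ω ∂μ, Tendsto (fun n => (∑ k ∈ Finset.range n, ((E k).indicator (fun _ => (1 : ℝ)) ω - cp μ (𝒢 k) (E k) ω)) /
      ∑ k ∈ Finset.range n, u k) atTop (𝓝 0) := by
  have hq0 : ∀ k, ∀ᵐ ω ∂μ, 0 ≤ cp μ (𝒢 k) (E k) ω := fun k =>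
    condExp_nonneg (Eventually.of_forall fun ω => indicator_nonneg (fun _ _ => zero_le_one) ω)
  have hq1 : ∀ k, ∀ᵐ ω ∂μ, cp μ (𝒢 k) (E k) ω ≤ u k := fun k => cp_le (hle k) (hE0 k) (hup k)
  have hqn : ∀ k, ∀ᵐ ω ∂μ, ‖cp μ (𝒢 k) (E k) ω‖ ≤ 1 := fun k => by
    filter_upwards [hq0 k, hq1 k] with ω h1 h2
    rw [Real.norm_eq_abs, abs_of_nonneg h1]; linarith [hu1 k]
  have hNn : ∀ k ω, ‖(E k).indicator (fun _ => (1 : ℝ)) ω‖ ≤ 1 := fun k ω => by
    obtain ⟨h1, h2, _⟩ := ind01 (E k) ω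
    rw [Real.norm_eq_abs, abs_of_nonneg h1]; exact h2
  have hqm : ∀ k, StronglyMeasurable[𝒢 k] (cp μ (𝒢 k) (E k)) := fun k => stronglyMeasurable_condExp
  have hqi : ∀ k, Integrable (cp μ (𝒢 k) (E k)) μ := fun k => integrable_condExp
  have hNi : ∀ k, Integrable ((E k).indicator (fun _ => (1 : ℝ))) μ := fun k => ind_int' (hE0 k)
  have hXi : ∀ k, Integrable (fun ω => (E k).indicator (fun _ => (1 : ℝ)) ω - cp μ (𝒢 k) (E k) ω) μ := fun k =>
    (hNi k).sub (hqi k)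
  -- pulling out a bounded `𝒢 k`-measurable factor
  have hpull : ∀ k, ∀ f : Ω → ℝ, StronglyMeasurable[𝒢 k] f → ∀ c : ℝ, (∀ᵐ ω ∂μ, ‖f ω‖ ≤ c) →
      ∫ ω, f ω * (E k).indicator (fun _ => (1 : ℝ)) ω ∂μ = ∫ ω, f ω * cp μ (𝒢 k) (E k) ω ∂μ := by
    intro k f hf c hfc
    have h1 := condExp_stronglyMeasurable_mul_of_bound (hle k) hf (hNi k) c hfc
    have h2 := integral_condExp (μ := μ) (hle k) (f := f * (E k).indicator (fun _ => (1 : ℝ)))
    have h3 : ∫ ω, f ω * (E k).indicator (fun _ => (1 : ℝ)) ω ∂μ =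
        ∫ ω, (f * (E k).indicator (fun _ => (1 : ℝ))) ω ∂μ := rfl
    rw [h3, ← h2]
    exact integral_congr_ae h1
  have hbi : ∀ k, ∀ f : Ω → ℝ, AEStronglyMeasurable f μ → ∀ c : ℝ, (∀ᵐ ω ∂μ, ‖f ω‖ ≤ c) →
      Integrable (fun ω => f ω * (E k).indicator (fun _ => (1 : ℝ)) ω) μ ∧
      Integrable (fun ω => f ω * cp μ (𝒢 k) (E k) ω) μ := fun k f hf c hfc =>
    ⟨(hNi k).bdd_mul hf hfc, (hqi k).bdd_mul hf hfc⟩
  refine strong_law (μ := μ) (fun k ω => (E k).indicator (fun _ => (1 : ℝ)) ω) (fun k ω => cp μ (𝒢 k) (E k) ω) u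
    (fun _ => 2) hu0 hu1 hU (fun k => Eventually.of_forall fun ω => (ind01 (E k) ω).1) hq0 hq1
    (fun k => (hXi k).aestronglyMeasurable) ?_ ?_ ?_
  · intro k
    filter_upwards [hqn k] with ω h2
    exact (norm_sub_le _ _).trans (by linarith [hNn k ω])
  · intro i j hij
    have hfm : StronglyMeasurable[𝒢 j] (fun ω => (E i).indicator (fun _ => (1 : ℝ)) ω - cp μ (𝒢 i) (E i) ω) :=
      (ind_sm (hE i j hij)).sub ((hqm i).mono (hmono i j hij.le))
    have hfc : ∀ᵐ ω ∂μ, ‖(E i).indicator (fun _ => (1 : ℝ)) ω - cp μ (𝒢 i) (E i) ω‖ ≤ 2 := by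
      filter_upwards [hqn i] with ω h2
      exact (norm_sub_le _ _).trans (by linarith [hNn i ω])
    obtain ⟨i1, i2⟩ := hbi j _ ((hfm.mono (hle j)).aestronglyMeasurable) 2 hfc
    have e : ∀ ω, ((E i).indicator (fun _ => (1 : ℝ)) ω - cp μ (𝒢 i) (E i) ω) *
        ((E j).indicator (fun _ => (1 : ℝ)) ω - cp μ (𝒢 j) (E j) ω) =
        ((E i).indicator (fun _ => (1 : ℝ)) ω - cp μ (𝒢 i) (E i) ω) * (E j).indicator (fun _ => (1 : ℝ)) ω -
        ((E i).indicator (fun _ => (1 : ℝ)) ω - cp μ (𝒢 i) (E i) ω) * cp μ (𝒢 j) (E j) ω := fun ω => mul_sub _ _ _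
    rw [integral_congr_ae (Eventually.of_forall e), integral_sub i1 i2, hpull j _ hfm 2 hfc, sub_self]
  · intro k
    obtain ⟨i1, i2⟩ := hbi k (cp μ (𝒢 k) (E k)) ((hqm k).mono (hle k)).aestronglyMeasurable 1 (hqn k)
    have e : ∀ ω, ((E k).indicator (fun _ => (1 : ℝ)) ω - cp μ (𝒢 k) (E k) ω) ^ 2 =
        (E k).indicator (fun _ => (1 : ℝ)) ω - cp μ (𝒢 k) (E k) ω * (E k).indicator (fun _ => (1 : ℝ)) ω -
        (cp μ (𝒢 k) (E k) ω * (E k).indicator (fun _ => (1 : ℝ)) ω - cp μ (𝒢 k) (E k) ω * cp μ (𝒢 k) (E k) ω) := by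
      intro ω
      have := (ind01 (E k) ω).2.2
      calc _ = (E k).indicator (fun _ => (1 : ℝ)) ω * (E k).indicator (fun _ => (1 : ℝ)) ω -
          2 * (cp μ (𝒢 k) (E k) ω * (E k).indicator (fun _ => (1 : ℝ)) ω) + cp μ (𝒢 k) (E k) ω * cp μ (𝒢 k) (E k) ω := by
            ring
        _ = _ := by rw [this]; ring
    have j1 : Integrable (fun ω => (E k).indicator (fun _ => (1 : ℝ)) ω -
        cp μ (𝒢 k) (E k) ω * (E k).indicator (fun _ => (1 : ℝ)) ω) μ := (hNi k).sub i1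
    have j2 : Integrable (fun ω => cp μ (𝒢 k) (E k) ω * (E k).indicator (fun _ => (1 : ℝ)) ω -
        cp μ (𝒢 k) (E k) ω * cp μ (𝒢 k) (E k) ω) μ := i1.sub i2
    rw [integral_congr_ae (Eventually.of_forall e), integral_sub j1 j2,
      integral_sub (hNi k) i1, integral_sub i1 i2, hpull k _ (hqm k) 1 (hqn k), sub_self, sub_zero]
    have h1 : ∫ ω, (E k).indicator (fun _ => (1 : ℝ)) ω ∂μ = μ.real (E k) := by
      rw [integral_indicator (hE0 k), setIntegral_const, smul_eq_mul, mul_one]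
    have h2 := hup k univ (@MeasurableSet.univ _ (𝒢 k))
    rw [univ_inter, probReal_univ, mul_one] at h2
    have h4 : 0 ≤ ∫ ω, cp μ (𝒢 k) (E k) ω * cp μ (𝒢 k) (E k) ω ∂μ := integral_nonneg fun ω => mul_self_nonneg _
    rw [h1]
    linarith

/-- the number of the events with index `< n` -/
noncomputable def EC (E : ℕ → Set Ω) (n : ℕ) (ω : Ω) : ℝ :=
  ∑ k ∈ Finset.range n, (E k).indicator (fun _ => (1 : ℝ)) ω

/-- the abstract law -/
theorem seq_law (𝒢 : ℕ → MeasurableSpace Ω) (hle : ∀ k, 𝒢 k ≤ m0) (E : ℕ → Set Ω)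
    (hE0 : ∀ i, MeasurableSet (E i)) (hE : ∀ i j, i < j → MeasurableSet[𝒢 j] (E i))
    (hmono : ∀ i j, i ≤ j → 𝒢 i ≤ 𝒢 j) (B : ℕ → Set Ω) (hB : ∀ k, MeasurableSet[𝒢 k] (B k))
    {u l w : ℕ → ℝ} (hu0 : ∀ k, 0 ≤ u k) (hu1 : ∀ k, u k ≤ 1) (hl0 : ∀ k, 0 ≤ l k) (hl1 : ∀ k, l k ≤ 1)
    (hup : ∀ k, ∀ C ⊆ B k, MeasurableSet[𝒢 k] C → μ.real (C ∩ E k) ≤ u k * μ.real C)
    (hlow : ∀ k, ∀ C ⊆ B k, MeasurableSet[𝒢 k] C → l k * μ.real C ≤ μ.real (C ∩ E k))
    (hw0 : ∀ k, 0 ≤ w k) (hwp : ∀ᶠ k in atTop, 0 < w k) {a b : ℝ} (ha : 0 < a)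
    (hur : Tendsto (fun k => u k / w k) atTop (𝓝 a)) (hlr : Tendsto (fun k => l k / w k) atTop (𝓝 b))
    (hW : Tendsto (fun n => ∑ k ∈ Finset.range n, w k) atTop atTop) :
    ∀ᵐ ω ∂μ, (∃ k₁, ∀ k, k₁ ≤ k → ω ∈ B k) → ∀ ε : ℝ, 0 < ε → ∀ᶠ n : ℕ in atTop,
      b - ε < EC E n ω / ∑ k ∈ Finset.range n, w k ∧ EC E n ω / ∑ k ∈ Finset.range n, w k < a + ε := by
  classical
  obtain ⟨W, hWd⟩ : ∃ W : ℕ → ℝ, W = fun n => ∑ k ∈ Finset.range n, w k := ⟨_, rfl⟩
  have hWn : ∀ n, ∑ k ∈ Finset.range n, w k = W n := fun n => by rw [hWd]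
  have hUa := sum_ratio hw0 hwp hur hW
  have hLa := sum_ratio hw0 hwp hlr hW
  simp only [hWn] at hUa hLa hW ⊢
  have hUtop : Tendsto (fun n => ∑ k ∈ Finset.range n, u k) atTop atTop := by
    have h1 := hUa.pos_mul_atTop ha hW
    refine h1.congr' ?_
    filter_upwards [hW.eventually_gt_atTop 0] with n hn
    field_simp
  set N : ℕ → Set Ω := fun k => B k ∩ E k with hN
  have hN0 : ∀ k, MeasurableSet (N k) := fun k => ((hle k) _ (hB k)).inter (hE0 k)
  have hNj : ∀ i j, i < j → MeasurableSet[𝒢 j] (N i) := fun i j hij =>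
    @MeasurableSet.inter _ (𝒢 j) _ _ (hmono i j hij.le _ (hB i)) (hE i j hij)
  have hNup : ∀ k, ∀ C, MeasurableSet[𝒢 k] C → μ.real (C ∩ N k) ≤ u k * μ.real C := by
    intro k C hC
    have h1 := hup k (C ∩ B k) inter_subset_right (@MeasurableSet.inter _ (𝒢 k) _ _ hC (hB k))
    have h2 : C ∩ N k = C ∩ B k ∩ E k := by rw [hN, inter_assoc]
    rw [h2]
    refine h1.trans (mul_le_mul_of_nonneg_left ?_ (hu0 k))
    exact measureReal_mono inter_subset_left
  have hNlow : ∀ k, ∀ C ⊆ B k, MeasurableSet[𝒢 k] C → l k * μ.real C ≤ μ.real (C ∩ N k) := by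
    intro k C hC hCm
    have h2 : C ∩ N k = C ∩ E k := by
      rw [hN]
      ext ω
      simp only [mem_inter_iff]
      exact ⟨fun h => ⟨h.1, h.2.2⟩, fun h => ⟨h.1, hC h.1, h.2⟩⟩
    rw [h2]
    exact hlow k C hC hCm
  have hlaw := count_gen (μ := μ) 𝒢 hle N hN0 hNj hmono u hu0 hu1 hUtop hNup
  have hq1 : ∀ k, ∀ᵐ ω ∂μ, cp μ (𝒢 k) (N k) ω ≤ u k := fun k => cp_le (hle k) (hN0 k) (hNup k)
  have hq2 : ∀ k, ∀ᵐ ω ∂μ, ω ∈ B k → l k ≤ cp μ (𝒢 k) (N k) ω := fun k =>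
    le_cp (hle k) (hN0 k) (hB k) (hNlow k)
  have hq0 : ∀ k, ∀ᵐ ω ∂μ, 0 ≤ cp μ (𝒢 k) (N k) ω := fun k =>
    condExp_nonneg (Eventually.of_forall fun ω => indicator_nonneg (fun _ _ => zero_le_one) ω)
  filter_upwards [hlaw, ae_all_iff.2 hq1, ae_all_iff.2 hq2, ae_all_iff.2 hq0] with ω hlaw hq1 hq2 hq0 hnear ε hε
  obtain ⟨k₂, hBk⟩ := hnear
  set U : ℕ → ℝ := fun n => ∑ k ∈ Finset.range n, u k with hUdef
  set T : ℕ → ℝ := fun n => ∑ k ∈ Finset.range n, ((N k).indicator (fun _ => (1 : ℝ)) ω - cp μ (𝒢 k) (N k) ω) with hT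
  have hT0 : Tendsto (fun n : ℕ => T n / W n) atTop (𝓝 0) := by
    have h1 := hlaw.mul hUa
    rw [zero_mul] at h1
    refine h1.congr' ?_
    filter_upwards [hUtop.eventually_gt_atTop 0] with n hn
    have hn' : 0 < U n := hn
    show T n / U n * (U n / W n) = T n / W n
    field_simp
  have hVN : ∀ n, EC E n ω ≤ ∑ k ∈ Finset.range n, (N k).indicator (fun _ => (1 : ℝ)) ω + k₂ := by
    intro n
    induction n with
    | zero => simp [EC]
    | succ n ih =>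
      by_cases hn : k₂ ≤ n
      · have h1 : (N n).indicator (fun _ => (1 : ℝ)) ω = (E n).indicator (fun _ => (1 : ℝ)) ω := by
          by_cases he : ω ∈ E n
          · rw [indicator_of_mem he, indicator_of_mem (show ω ∈ N n from ⟨hBk n hn, he⟩)]
          · rw [indicator_of_notMem he, indicator_of_notMem (fun h : ω ∈ N n => he h.2)]
        unfold EC at ih ⊢
        rw [Finset.sum_range_succ, Finset.sum_range_succ, h1]
        linarith
      · have h1 : EC E (n + 1) ω ≤ (n + 1 : ℕ) := by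
          unfold EC
          calc ∑ k ∈ Finset.range (n + 1), (E k).indicator (fun _ => (1 : ℝ)) ω
              ≤ ∑ k ∈ Finset.range (n + 1), (1 : ℝ) := Finset.sum_le_sum fun k _ => (ind01 _ ω).2.1
            _ = _ := by simp
        have h2 : (0 : ℝ) ≤ ∑ k ∈ Finset.range (n + 1), (N k).indicator (fun _ => (1 : ℝ)) ω :=
          Finset.sum_nonneg fun k _ => (ind01 _ ω).1
        have h3 : ((n + 1 : ℕ) : ℝ) ≤ k₂ := by exact_mod_cast (by omega : n + 1 ≤ k₂)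
        linarith
  have hNV : ∀ n, ∑ k ∈ Finset.range n, (N k).indicator (fun _ => (1 : ℝ)) ω ≤ EC E n ω := by
    intro n
    unfold EC
    apply Finset.sum_le_sum
    intro k _
    exact indicator_le_indicator_of_subset inter_subset_right (fun _ => zero_le_one) ω
  have hQU : ∀ n, ∑ k ∈ Finset.range n, cp μ (𝒢 k) (N k) ω ≤ U n := fun n =>
    Finset.sum_le_sum fun k _ => hq1 k
  have hLQ : ∀ n, ∑ k ∈ Finset.range n, l k - k₂ ≤ ∑ k ∈ Finset.range n, cp μ (𝒢 k) (N k) ω := by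
    intro n
    induction n with
    | zero => simp
    | succ n ih =>
      rw [Finset.sum_range_succ, Finset.sum_range_succ]
      by_cases hn : k₂ ≤ n
      · have h1 : l n ≤ cp μ (𝒢 n) (N n) ω := hq2 n (hBk n hn)
        linarith
      · have h2 : ∑ k ∈ Finset.range n, l k ≤ n := by
          calc ∑ k ∈ Finset.range n, l k ≤ ∑ k ∈ Finset.range n, (1 : ℝ) := Finset.sum_le_sum fun k _ => hl1 k
            _ = n := by simp
        have h3 : (0 : ℝ) ≤ ∑ k ∈ Finset.range n, cp μ (𝒢 k) (N k) ω := Finset.sum_nonneg fun k _ => hq0 k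
        have h4 := hq0 n
        have h5 : ((n : ℝ) + 1) ≤ k₂ := by exact_mod_cast (by omega : n + 1 ≤ k₂)
        have h6 := hl1 n
        linarith
  have hk₂0 : Tendsto (fun n : ℕ => (k₂ : ℝ) / W n) atTop (𝓝 0) := tendsto_const_nhds.div_atTop hW
  have hup2 : Tendsto (fun n : ℕ => (U n + T n + k₂) / W n) atTop (𝓝 a) := by
    have := (hUa.add hT0).add hk₂0
    rw [add_zero, add_zero] at this
    refine this.congr fun n => ?_
    rw [add_div, add_div]
  have hlo2 : Tendsto (fun n : ℕ => (∑ k ∈ Finset.range n, l k + T n - k₂) / W n) atTop (𝓝 b) := by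
    have := (hLa.add hT0).sub hk₂0
    rw [add_zero, sub_zero] at this
    refine this.congr fun n => ?_
    rw [sub_div, add_div]
  have hTsum : ∀ n, T n = ∑ k ∈ Finset.range n, (N k).indicator (fun _ => (1 : ℝ)) ω -
      ∑ k ∈ Finset.range n, cp μ (𝒢 k) (N k) ω := fun n => Finset.sum_sub_distrib _ _
  filter_upwards [hup2.eventually (eventually_lt_nhds (show a < a + ε by linarith)),
    hlo2.eventually (eventually_gt_nhds (show b - ε < b by linarith)),
    hW.eventually_gt_atTop 0] with n h1 h2 h3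
  have h4 := hVN n
  have h5 := hNV n
  have h6 := hQU n
  have h7 := hLQ n
  have h8 := hTsum n
  constructor
  · refine h2.trans_le ?_
    apply div_le_div_of_nonneg_right _ h3.le
    linarith
  · refine lt_of_le_of_lt ?_ h1
    apply div_le_div_of_nonneg_right _ h3.le
    linarith

/-- the abstract convergent case -/
theorem seq_conv (E B : ℕ → Set Ω) (𝒢 : ℕ → MeasurableSpace Ω) (hB : ∀ k, MeasurableSet[𝒢 k] (B k))
    {u w : ℕ → ℝ} (hu0 : ∀ k, 0 ≤ u k)
    (hup : ∀ k, ∀ C ⊆ B k, MeasurableSet[𝒢 k] C → μ.real (C ∩ E k) ≤ u k * μ.real C)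
    (hwp : ∀ᶠ k in atTop, 0 < w k) {a : ℝ} (hur : Tendsto (fun k => u k / w k) atTop (𝓝 a)) (hW : Summable w) :
    ∀ᵐ ω ∂μ, (∃ k₁, ∀ k, k₁ ≤ k → ω ∈ B k) → ∀ᶠ k in atTop, ω ∉ E k := by
  have hus : Summable u := by
    have h1 : u =O[atTop] w := by
      refine Asymptotics.isBigO_of_div_tendsto_nhds ?_ _ hur
      filter_upwards [hwp] with k hk h0
      exact absurd h0 hk.ne'
    exact summable_of_isBigO_nat hW h1
  have hm : ∀ k, μ (B k ∩ E k) ≤ ENNReal.ofReal (u k) := by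
    intro k
    have h1 := hup k (B k) subset_rfl (hB k)
    have h2 : μ.real (B k ∩ E k) ≤ u k := by
      refine h1.trans ?_
      have := hu0 k
      have h3 : μ.real (B k) ≤ 1 := measureReal_le_one
      nlinarith
    rw [← ofReal_measureReal (by exact measure_ne_top _ _)]
    exact ENNReal.ofReal_le_ofReal h2
  have hsum : ∑' k, μ (B k ∩ E k) ≠ ∞ := by
    refine ne_top_of_le_ne_top ?_ (ENNReal.tsum_le_tsum hm)
    rw [← ENNReal.ofReal_tsum_of_nonneg hu0 hus]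
    exact ENNReal.ofReal_ne_top
  filter_upwards [ae_eventually_notMem hsum] with ω hω ⟨k₁, hk₁⟩
  filter_upwards [hω, eventually_ge_atTop k₁] with k h1 h3 h4
  exact h1 ⟨hk₁ k h3, h4⟩

end Pool.Agent.R320.IT
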