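import Mathlib
import Pool.Agent.R320.IT.Seq

set_option autoImplicit false
set_option linter.unusedSectionVars false

/-! # Empty windows in sieved sequential random models: integral test and exact count -/

open MeasureTheory Filter Set
open scoped ENNReal Topology

namespace Pool.Agent.R320.IT

open Pool.Agent.R528.RM

variable {Ω : Type} {m0 : MeasurableSpace Ω} {μ : Measure Ω} [IsProbabilityMeasure μ]
  {ℱ : Filtration ℕ m0} {A : ℕ → Set Ω}

/-- no element of `F` among `s + 1, ..., s + j` is chosen -/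
def void (A : ℕ → Set Ω) (F : Set ℕ) (s j : ℕ) : Set Ω :=
  {ω | ∀ m, s < m → m ≤ s + j → m ∈ F → ω ∉ A m}

open Classical in
/-- the number of elements of `F` among `s + 1, ..., s + j` -/
noncomputable def cF (F : Set ℕ) (s j : ℕ) : ℕ := ((Finset.range j).filter (fun i => s + i + 1 ∈ F)).card

lemma cF_zero (F : Set ℕ) (s : ℕ) : cF F s 0 = 0 := by simp [cF]

lemma cF_succ_mem {F : Set ℕ} {s j : ℕ} (h : s + j + 1 ∈ F) : cF F s (j + 1) = cF F s j + 1 := by
  classical
  unfold cF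
  rw [Finset.range_add_one, Finset.filter_insert, if_pos h, Finset.card_insert_of_notMem (by simp)]

lemma cF_succ_not {F : Set ℕ} {s j : ℕ} (h : s + j + 1 ∉ F) : cF F s (j + 1) = cF F s j := by
  classical
  unfold cF
  rw [Finset.range_add_one, Finset.filter_insert, if_neg h]

lemma cF_le (F : Set ℕ) (s j : ℕ) : cF F s j ≤ j := by
  classical
  unfold cF
  exact (Finset.card_filter_le _ _).trans (by simp)

lemma void_zero (F : Set ℕ) (s : ℕ) : void A F s 0 = univ := by
  ext ω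
  simp only [void, mem_ofPred_eq, mem_univ, iff_true]
  intro m h1 h2
  omega

lemma void_succ_mem {F : Set ℕ} {s j : ℕ} (h : s + j + 1 ∈ F) :
    void A F s (j + 1) = void A F s j \ A (s + j + 1) := by
  ext ω
  simp only [void, mem_ofPred_eq, Set.mem_sdiff]
  constructor
  · intro h1
    exact ⟨fun m h2 h3 => h1 m h2 (by omega), h1 _ (by omega) (by omega) h⟩
  · rintro ⟨h1, h2⟩ m h3 h4 h5
    rcases Nat.lt_or_ge m (s + j + 1) with h6 | h6
    · exact h1 m h3 (by omega) h5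
    · have : m = s + j + 1 := by omega
      rw [this]
      exact h2

lemma void_succ_not {F : Set ℕ} {s j : ℕ} (h : s + j + 1 ∉ F) : void A F s (j + 1) = void A F s j := by
  ext ω
  simp only [void, mem_ofPred_eq]
  constructor
  · intro h1 m h2 h3
    exact h1 m h2 (by omega)
  · intro h1 m h3 h4 h5
    rcases Nat.lt_or_ge m (s + j + 1) with h6 | h6
    · exact h1 m h3 (by omega) h5
    · have : m = s + j + 1 := by omega
      exact absurd (this ▸ h5) h

lemma void_meas (hA : ∀ n, MeasurableSet[ℱ n] (A n)) (F : Set ℕ) (s j : ℕ) :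
    MeasurableSet[ℱ (s + j)] (void A F s j) := by
  induction j with
  | zero => rw [void_zero]; exact @MeasurableSet.univ _ (ℱ _)
  | succ j ih =>
    have h1 : MeasurableSet[ℱ (s + (j + 1))] (void A F s j) := ℱ.mono (by omega) _ ih
    by_cases h : s + j + 1 ∈ F
    · rw [void_succ_mem h]
      exact MeasurableSet.diff h1 (hA (s + j + 1))
    · rw [void_succ_not h]
      exact h1

/-- bounds for the probability of an empty window -/
theorem void_bounds (hA : ∀ n, MeasurableSet[ℱ n] (A n)) {l u : ℝ} (hl1 : l ≤ 1) (hu1 : u ≤ 1)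
    (F : Set ℕ) (s G : ℕ) {B : Set Ω} (hB : MeasurableSet[ℱ s] B)
    (hlu : ∀ n, s ≤ n → n < s + G → n + 1 ∈ F → ∀ᵐ ω ∂μ, ω ∈ B → l ≤ dens μ ℱ A n ω ∧ dens μ ℱ A n ω ≤ u) :
    ∀ j ≤ G, (1 - u) ^ cF F s j * μ.real B ≤ μ.real (B ∩ void A F s j) ∧
      μ.real (B ∩ void A F s j) ≤ (1 - l) ^ cF F s j * μ.real B := by
  intro j
  induction j with
  | zero =>
    intro _
    rw [void_zero, cF_zero, pow_zero, pow_zero, one_mul, inter_univ]
    exact ⟨le_rfl, le_rfl⟩
  | succ j ih =>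
    intro hj
    obtain ⟨ih1, ih2⟩ := ih (by omega)
    by_cases h : s + j + 1 ∈ F
    · have hC : MeasurableSet[ℱ (s + j)] (B ∩ void A F s j) :=
        MeasurableSet.inter (ℱ.mono (by omega) _ hB) (void_meas hA F s j)
      have h1 := hlu (s + j) (by omega) (by omega) h
      have h2 := lower_ae (μ := μ) hA (s + j) hC (l := l) (h1.mono fun ω h hω => (h hω.1).1)
      have h3 := upper_ae (μ := μ) hA (s + j) hC (u := u) (h1.mono fun ω h hω => (h hω.1).2)
      have hA' : MeasurableSet (A (s + j + 1)) := ℱ.le _ _ (hA _)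
      have h4 : μ.real (B ∩ void A F s (j + 1)) =
          μ.real (B ∩ void A F s j) - μ.real ((B ∩ void A F s j) ∩ A (s + j + 1)) := by
        have := measureReal_inter_add_sdiff (μ := μ) (s := B ∩ void A F s j) hA'
        have h5 : B ∩ void A F s (j + 1) = (B ∩ void A F s j) \ A (s + j + 1) := by
          rw [void_succ_mem h, inter_sdiff_assoc]
        rw [h5]
        linarith
      rw [h4, cF_succ_mem h, pow_succ, pow_succ]
      constructor
      · have h5 : (1 - u) * ((1 - u) ^ cF F s j * μ.real B) ≤ (1 - u) * μ.real (B ∩ void A F s j) :=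
          mul_le_mul_of_nonneg_left ih1 (by linarith)
        nlinarith
      · have h5 : (1 - l) * μ.real (B ∩ void A F s j) ≤ (1 - l) * ((1 - l) ^ cF F s j * μ.real B) :=
          mul_le_mul_of_nonneg_left ih2 (by linarith)
        nlinarith
    · rw [void_succ_not h, cF_succ_not h]
      exact ⟨ih1, ih2⟩

/-- the exponent, general sequence -/
lemma expo3 {q κ b : ℝ} {L : ℕ → ℝ} (hL : Tendsto L atTop atTop) {g : ℕ → ℕ}
    (hq : 0 < q) (hg : Tendsto (fun k => q * g k / L k ^ 2) atTop (𝓝 κ)) :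
    Tendsto (fun k => q * g k / L k + g k * Real.log (1 - q / (L k + b))) atTop (𝓝 (κ * (b - q / 2))) := by
  have hy : Tendsto (fun k => q / (L k + b)) atTop (𝓝 0) := by
    have := (((tendsto_inv_add b).comp hL).const_mul q)
    rw [mul_zero] at this
    refine this.congr fun k => ?_
    simp only [Function.comp]
    ring
  have hr : Tendsto (fun k => L k / (L k + b)) atTop (𝓝 1) := (tendsto_ratio b).comp hL
  have hR : Tendsto (fun k => (g k : ℝ) * (Real.log (1 - q / (L k + b)) + (q / (L k + b)) +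
      (q / (L k + b)) ^ 2 / 2)) atTop (𝓝 0) := by
    have hb : Tendsto (fun k => 2 * (q * (q * g k / L k ^ 2) * (L k / (L k + b)) ^ 2 * (q / (L k + b)))) atTop
        (𝓝 0) := by
      have := ((((hg.const_mul q).mul (hr.pow 2)).mul hy).const_mul 2)
      simpa using this
    refine squeeze_zero_norm' ?_ hb
    have hsmall := hy.eventually (Metric.ball_mem_nhds 0 (show (0 : ℝ) < 1 / 2 by norm_num))
    filter_upwards [hL.eventually_gt_atTop (-b), hL.eventually_gt_atTop (0 : ℝ), hsmall] with k hLb hL0 hs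
    have hpos : 0 < L k + b := by linarith
    obtain ⟨y, hyd⟩ : ∃ y, y = q / (L k + b) := ⟨_, rfl⟩
    have hy0 : 0 < y := by rw [hyd]; positivity
    have hs' : dist (q / (L k + b)) 0 < 1 / 2 := hs
    rw [← hyd, dist_zero_right, Real.norm_eq_abs, abs_of_pos hy0] at hs'
    rw [← hyd]
    have h1 := Real.abs_log_sub_add_sum_range_le (x := y) (by rw [abs_of_pos hy0]; linarith) 2
    rw [Finset.sum_range_succ, Finset.sum_range_one, abs_of_pos hy0] at h1
    have h2 : y ^ (2 + 1) / (1 - y) ≤ 2 * y ^ 3 := by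
      rw [div_le_iff₀ (by linarith)]
      have h7 : 0 < y ^ 3 := by positivity
      calc y ^ (2 + 1) = y ^ 3 * 1 := by ring
        _ ≤ y ^ 3 * (2 * (1 - y)) := mul_le_mul_of_nonneg_left (by linarith) h7.le
        _ = 2 * y ^ 3 * (1 - y) := by ring
    have h3 : |Real.log (1 - y) + y + y ^ 2 / 2| ≤ 2 * y ^ 3 := by
      refine le_trans (le_of_eq ?_) (h1.trans h2)
      congr 1
      norm_num
      ring
    rw [norm_mul, Real.norm_natCast, Real.norm_eq_abs]
    have h5 : (g k : ℝ) * |Real.log (1 - y) + y + y ^ 2 / 2| ≤ (g k : ℝ) * (2 * y ^ 3) :=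
      mul_le_mul_of_nonneg_left h3 (Nat.cast_nonneg _)
    refine h5.trans (le_of_eq ?_)
    have h6 : L k / (L k + b) = L k * (y / q) := by rw [hyd]; field_simp
    rw [h6]
    field_simp
  have h1 : Tendsto (fun k => b * (q * g k / L k ^ 2) * (L k / (L k + b)) -
      q * (q * g k / L k ^ 2) * (L k / (L k + b)) ^ 2 / 2 +
      (g k : ℝ) * (Real.log (1 - q / (L k + b)) + (q / (L k + b)) + (q / (L k + b)) ^ 2 / 2)) atTop
      (𝓝 (b * κ * 1 - q * κ * 1 ^ 2 / 2 + 0)) :=
    (((hg.const_mul b).mul hr).sub (((hg.const_mul q).mul (hr.pow 2)).div_const 2)).add hR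
  have e : b * κ * 1 - q * κ * 1 ^ 2 / 2 + 0 = κ * (b - q / 2) := by ring
  rw [e] at h1
  refine h1.congr' ?_
  filter_upwards [hL.eventually_gt_atTop (-b), hL.eventually_gt_atTop (0 : ℝ)] with k hLb hL0
  have hne : L k + b ≠ 0 := by linarith
  have hne0 : L k ≠ 0 := hL0.ne'
  obtain ⟨z, hz⟩ : ∃ z, z = Real.log (1 - q / (L k + b)) := ⟨_, rfl⟩
  rw [← hz]
  field_simp
  ring

/-- the probability of an empty window -/
lemma prob3 {q κ b : ℝ} {L : ℕ → ℝ} (hL : Tendsto L atTop atTop) {g : ℕ → ℕ}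
    (hq : 0 < q) (hg : Tendsto (fun k => q * g k / L k ^ 2) atTop (𝓝 κ)) :
    Tendsto (fun k => (1 - q / (L k + b)) ^ g k / Real.exp (-(q * g k / L k))) atTop
      (𝓝 (Real.exp (κ * (b - q / 2)))) := by
  refine ((Real.continuous_exp.tendsto _).comp (expo3 (b := b) hL hq hg)).congr' ?_
  filter_upwards [hL.eventually_gt_atTop (q - b), hL.eventually_gt_atTop (0 : ℝ)] with k hLb hL0
  have hpos : 0 < 1 - q / (L k + b) := by
    have h2 : q < L k + b := by linarith
    have : q / (L k + b) < 1 := by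
      rw [div_lt_one (by linarith)]
      exact h2
    linarith
  simp only [Function.comp]
  rw [Real.exp_add, mul_comm (g k : ℝ) (Real.log _), Real.exp_mul, Real.exp_log hpos, Real.rpow_natCast,
    Real.exp_neg]
  have hE := (Real.exp_pos (q * (g k : ℝ) / L k)).ne'
  field_simp

/-- the growth factor over a window is negligible -/
lemma window3 (K c R : ℝ) (hK0 : 0 ≤ K) (hR0 : 0 ≤ R) {δ : ℝ} (hδ : 0 < δ) : ∀ᶠ k : ℕ in atTop, ∀ i : ℕ,
    (i : ℝ) ≤ R * L1 k ^ 2 → ((1 + K / k) ^ i - 1) * (L1 k + c + δ) ≤ δ := by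
  have hx : Tendsto (fun k : ℕ => (k : ℝ) + 1) atTop atTop :=
    tendsto_atTop_add_const_right _ 1 tendsto_natCast_atTop_atTop
  obtain ⟨P, hP⟩ : ∃ P, P = K * R := ⟨_, rfl⟩
  have hP0 : 0 ≤ P := by rw [hP]; positivity
  have h1 : ∀ᶠ x : ℝ in atTop, 1 ≤ Real.log x ∧ |c| + δ ≤ Real.log x ∧
      8 * P * Real.log x ^ 3 ≤ δ * x ∧ 2 * P * Real.log x ^ 2 ≤ x ∧ 2 ≤ x := by
    have t1 := Real.tendsto_log_atTop
    have h2 := (Real.isLittleO_pow_log_id_atTop (n := 3)).def
      (show (0 : ℝ) < δ / (8 * P + 1) by positivity)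
    have h3 := (Real.isLittleO_pow_log_id_atTop (n := 2)).def
      (show (0 : ℝ) < 1 / (2 * P + 1) by positivity)
    filter_upwards [t1.eventually_ge_atTop 1, t1.eventually_ge_atTop (|c| + δ), h2, h3, eventually_ge_atTop 2]
      with x h4 h5 h2 h3 h6
    rw [Real.norm_of_nonneg (by positivity), id, Real.norm_of_nonneg (by linarith)] at h2 h3
    refine ⟨h4, h5, ?_, ?_, h6⟩
    · have h7 : 8 * P * Real.log x ^ 3 ≤ (8 * P + 1) * Real.log x ^ 3 := by
        have : 0 ≤ Real.log x ^ 3 := by positivity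
        nlinarith
      have h8 : (8 * P + 1) * Real.log x ^ 3 ≤ (8 * P + 1) * (δ / (8 * P + 1) * x) :=
        mul_le_mul_of_nonneg_left h2 (by positivity)
      have h9 : (8 * P + 1) * (δ / (8 * P + 1) * x) = δ * x := by field_simp
      linarith
    · have h7 : 2 * P * Real.log x ^ 2 ≤ (2 * P + 1) * Real.log x ^ 2 := by
        have : 0 ≤ Real.log x ^ 2 := by positivity
        nlinarith
      have h8 : (2 * P + 1) * Real.log x ^ 2 ≤ (2 * P + 1) * (1 / (2 * P + 1) * x) :=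
        mul_le_mul_of_nonneg_left h3 (by positivity)
      have h9 : (2 * P + 1) * (1 / (2 * P + 1) * x) = x := by field_simp
      linarith
  filter_upwards [hx.eventually h1, eventually_ge_atTop 1] with k h hk i hi
  obtain ⟨h1, h2, h3, h4, h5⟩ := h
  have hk' : (1 : ℝ) ≤ k := by exact_mod_cast hk
  have hLd : L1 k = Real.log ((k : ℝ) + 1) := rfl
  obtain ⟨L, hL⟩ : ∃ L, L = Real.log ((k : ℝ) + 1) := ⟨_, rfl⟩
  rw [hLd] at hi ⊢
  rw [← hL] at h1 h2 h3 h4 hi ⊢
  have hKiP : K * i ≤ P * L ^ 2 := by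
    have h6 : K * i ≤ K * (R * L ^ 2) := mul_le_mul_of_nonneg_left hi hK0
    rw [hP]
    linarith
  have hKi : K / k * i ≤ 1 := by
    rw [div_mul_eq_mul_div, div_le_one (by linarith)]
    nlinarith
  have hKi0 : 0 ≤ K / k * i := by positivity
  have h6 : (1 + K / k) ^ i ≤ Real.exp (K / k * i) := by
    rw [mul_comm, Real.exp_nat_mul]
    apply pow_le_pow_left₀ (by positivity)
    have := Real.add_one_le_exp (K / k)
    linarith
  have h7 : Real.exp (K / k * i) - 1 ≤ 2 * (K / k * i) := by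
    have h9 : Real.exp (K / k * i) ≤ 1 + 2 * (K / k * i) := by
      have h10 := Real.abs_exp_sub_one_le (x := K / k * i) (by rw [abs_of_nonneg hKi0]; exact hKi)
      rw [abs_of_nonneg hKi0] at h10
      have := le_abs_self (Real.exp (K / k * i) - 1)
      linarith
    linarith
  have h8 : (1 + K / k) ^ i - 1 ≤ 2 * P * L ^ 2 / k := by
    have h9 : K / k * i ≤ P * L ^ 2 / k := by
      rw [div_mul_eq_mul_div]
      exact div_le_div_of_nonneg_right hKiP (by linarith)
    have h11 : 2 * P * L ^ 2 / k = 2 * (P * L ^ 2 / k) := by ring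
    rw [h11]
    linarith
  have h9 : L + c + δ ≤ 2 * L := by
    have := le_abs_self c
    linarith
  have h10 : 0 ≤ (1 + K / k) ^ i - 1 := by
    have : 1 ≤ (1 + K / k) ^ i := one_le_pow₀ (by
      have : 0 ≤ K / k := by positivity
      linarith)
    linarith
  calc ((1 + K / k) ^ i - 1) * (L + c + δ) ≤ ((1 + K / k) ^ i - 1) * (2 * L) := mul_le_mul_of_nonneg_left h9 h10
    _ ≤ 2 * P * L ^ 2 / k * (2 * L) := mul_le_mul_of_nonneg_right h8 (by linarith)
    _ = 4 * P * L ^ 3 / k := by ring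
    _ ≤ δ := by
      rw [div_le_iff₀ (by linarith)]
      nlinarith

/-- the profile at `k` is within `δ` of `log (k + 1) + c` -/
def nearD (D : ℕ → Ω → ℝ) (c δ : ℝ) (k : ℕ) : Set Ω := {ω | |D k ω - (L1 k + c)| ≤ δ}

lemma nearD_meas {D : ℕ → Ω → ℝ} (hD : ∀ n, StronglyMeasurable[ℱ n] (D n)) (c δ : ℝ) (k : ℕ) :
    MeasurableSet[ℱ k] (nearD D c δ k) := by
  have h1 : MeasurableSet {x : ℝ | |x - (L1 k + c)| ≤ δ} :=
    (isClosed_le (by fun_prop) continuous_const).measurableSet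
  exact (hD k).measurable h1

/-- bounds for the profile in the window -/
lemma nearD_window {K : ℝ} (hK0 : 0 ≤ K) {n₀ : ℕ} {x : ℕ → ℝ}
    (hK : ∀ n, n₀ ≤ n → |x (n + 1) - x n| ≤ K / n * |x n|)
    (c : ℝ) {δ : ℝ} {k g : ℕ} (hk : n₀ ≤ k) (hk1 : 1 ≤ k)
    (hw : ∀ i ≤ g, ((1 + K / k) ^ i - 1) * (L1 k + c + δ) ≤ δ)
    (hpos : 1 ≤ L1 k + c - 2 * δ) (hδ : 0 < δ) (hnear : |x k - (L1 k + c)| ≤ δ) (n : ℕ) (hn1 : k ≤ n)
    (hn2 : n ≤ k + g) : L1 k + (c - 2 * δ) ≤ x n ∧ x n ≤ L1 k + (c + 2 * δ) := by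
  obtain ⟨i, rfl⟩ : ∃ i, n = k + i := ⟨n - k, by omega⟩
  have h1 := (slow x hK0 hk hk1 hK i).2
  obtain ⟨L, hL⟩ : ∃ L, L = L1 k := ⟨_, rfl⟩
  have h2 := hw i (by omega)
  rw [← hL] at h2 hnear hpos ⊢
  have h3 := abs_le.1 hnear
  have h4 : |x k| ≤ L + c + δ := by
    rw [abs_le]
    constructor <;> linarith
  have h5 : 0 ≤ (1 + K / k) ^ i - 1 := by
    have : 1 ≤ (1 + K / k) ^ i := one_le_pow₀ (by
      have : 0 ≤ K / k := by positivity
      linarith)
    linarith
  have h6 : |x (k + i) - x k| ≤ δ := h1.trans ((mul_le_mul_of_nonneg_left h4 h5).trans h2)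
  have h7 := abs_le.1 h6
  constructor <;> linarith

/-- a sequence of windows -/
structure Win (s M : ℕ → ℕ) (F : ℕ → Set ℕ) (q κ : ℝ) : Prop where
  top : Tendsto s atTop atTop
  dis : ∀ᶠ k in atTop, s k + M k ≤ s (k + 1)
  len : ∃ R : ℝ, 0 ≤ R ∧ ∀ᶠ k in atTop, (M k : ℝ) ≤ R * L1 (s k) ^ 2
  lim : Tendsto (fun k => q * cF (F k) (s k) (M k) / L1 (s k) ^ 2) atTop (𝓝 κ)

/-- the weight of a window -/
noncomputable def ww (s M : ℕ → ℕ) (F : ℕ → Set ℕ) (q : ℝ) (k : ℕ) : ℝ :=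
  Real.exp (-(q * cF (F k) (s k) (M k) / L1 (s k)))

lemma ww_pos (s M : ℕ → ℕ) (F : ℕ → Set ℕ) (q : ℝ) (k : ℕ) : 0 < ww s M F q k := Real.exp_pos _

/-- the core estimate for windows -/
theorem void_core (hA : ∀ n, MeasurableSet[ℱ n] (A n)) {K : ℝ} (hK0 : 0 ≤ K) {n₀ : ℕ} {q κ : ℝ} (hq : 0 < q)
    {D : ℕ → Ω → ℝ} (hD : ∀ n, StronglyMeasurable[ℱ n] (D n))
    (hK : ∀ᵐ ω ∂μ, ∀ n, n₀ ≤ n → |D (n + 1) ω - D n ω| ≤ K / n * |D n ω|)
    {P : Set ℕ} (hDd : ∀ᵐ ω ∂μ, ∀ n, n₀ ≤ n → n + 1 ∈ P → dens μ ℱ A n ω = q / D n ω)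
    {s M : ℕ → ℕ} {F : ℕ → Set ℕ} (hF : ∀ k, F k ⊆ P) (hw : Win s M F q κ) (c : ℝ) {δ : ℝ} (hδ : 0 < δ) :
    ∀ᵐ ω ∂μ, (∃ k₁, ∀ k, k₁ ≤ k → ω ∈ nearD D c δ k) →
      (¬ Summable (ww s M F q) → ∀ ε : ℝ, 0 < ε → ∀ᶠ n : ℕ in atTop,
        Real.exp (κ * (c - 2 * δ - q / 2)) - ε <
          EC (fun k => void A (F k) (s k) (M k)) n ω / ∑ k ∈ Finset.range n, ww s M F q k ∧
        EC (fun k => void A (F k) (s k) (M k)) n ω / ∑ k ∈ Finset.range n, ww s M F q k <
          Real.exp (κ * (c + 2 * δ - q / 2)) + ε) ∧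
      (Summable (ww s M F q) → ∀ᶠ k in atTop, ω ∉ void A (F k) (s k) (M k)) := by
  classical
  obtain ⟨R, hR0, hR⟩ := hw.len
  obtain ⟨k₀, hk₀⟩ : ∃ k₀ : ℕ, ∀ k, k₀ ≤ k → n₀ ≤ s k ∧ 1 ≤ s k ∧ s k + M k ≤ s (k + 1) ∧
      (∀ i ≤ M k, ((1 + K / s k) ^ i - 1) * (L1 (s k) + c + δ) ≤ δ) ∧
      1 ≤ L1 (s k) + c - 2 * δ ∧ q ≤ L1 (s k) + c - 2 * δ := by
    rw [← eventually_atTop]
    filter_upwards [hw.top.eventually_ge_atTop n₀, hw.top.eventually_ge_atTop 1, hw.dis,
      hw.top.eventually (window3 K c R hK0 hR0 hδ), hR,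
      (L1_top.comp hw.top).eventually_ge_atTop (1 - c + 2 * δ),
      (L1_top.comp hw.top).eventually_ge_atTop (q - c + 2 * δ)] with k h1 h2 h3 h4 h5 h6 h7
    simp only [Function.comp] at h6 h7
    refine ⟨h1, h2, h3, fun i hi => h4 i (le_trans ?_ h5), by linarith, by linarith⟩
    exact_mod_cast hi
  set s' : ℕ → ℕ := fun k => if k₀ ≤ k then s k else 0 with hs'
  set E : ℕ → Set Ω := fun k => void A (F k) (s k) (M k) with hE
  set E' : ℕ → Set Ω := fun k => if k₀ ≤ k then E k else ∅ with hE'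
  set B : ℕ → Set Ω := fun k => if k₀ ≤ k then nearD D c δ (s k) else ∅ with hB
  have hsmono : ∀ i j, k₀ ≤ i → i ≤ j → s i ≤ s j := by
    intro i j hi hij
    induction j, hij using Nat.le_induction with
    | base => exact le_rfl
    | succ j hj ih =>
      have := (hk₀ j (hi.trans hj)).2.2.1
      omega
  have hs'mono : ∀ i j, i ≤ j → s' i ≤ s' j := by
    intro i j hij
    by_cases hi : k₀ ≤ i
    · simp only [hs', if_pos hi, if_pos (hi.trans hij)]
      exact hsmono i j hi hij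
    · simp only [hs', if_neg hi]
      exact Nat.zero_le _
  have hs'e : ∀ k, k₀ ≤ k → s' k = s k := fun k h => by simp only [hs', if_pos h]
  have hBm : ∀ k, MeasurableSet[ℱ (s' k)] (B k) := by
    intro k
    by_cases h : k₀ ≤ k
    · have e2 : B k = nearD D c δ (s k) := by simp only [hB, if_pos h]
      rw [hs'e k h, e2]
      exact nearD_meas hD c δ (s k)
    · have e2 : B k = ∅ := by simp only [hB, if_neg h]
      rw [e2]
      exact @MeasurableSet.empty _ (ℱ (s' k))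
  have hE0 : ∀ i, MeasurableSet (E' i) := by
    intro i
    by_cases h : k₀ ≤ i
    · simp only [hE', if_pos h]
      exact ℱ.le _ _ (void_meas hA (F i) (s i) (M i))
    · simp only [hE', if_neg h]
      exact MeasurableSet.empty
  have hEj : ∀ i j, i < j → MeasurableSet[ℱ (s' j)] (E' i) := by
    intro i j hij
    by_cases h : k₀ ≤ i
    · have e2 : E' i = void A (F i) (s i) (M i) := by simp only [hE', hE, if_pos h]
      rw [hs'e j (h.trans hij.le), e2]
      refine ℱ.mono ?_ _ (void_meas hA (F i) (s i) (M i))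
      have h1 := (hk₀ i h).2.2.1
      have h2 := hsmono (i + 1) j (by omega) (by omega)
      omega
    · have e2 : E' i = ∅ := by simp only [hE', if_neg h]
      rw [e2]
      exact @MeasurableSet.empty _ (ℱ (s' j))
  set l' : ℕ → ℝ := fun k => q / (L1 (s k) + (c + 2 * δ)) with hl'
  set u' : ℕ → ℝ := fun k => q / (L1 (s k) + (c - 2 * δ)) with hu'
  set u : ℕ → ℝ := fun k => if k₀ ≤ k then (1 - l' k) ^ cF (F k) (s k) (M k) else 0 with hu
  set l : ℕ → ℝ := fun k => if k₀ ≤ k then (1 - u' k) ^ cF (F k) (s k) (M k) else 0 with hl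
  have hb : ∀ k, k₀ ≤ k → 0 < l' k ∧ l' k ≤ u' k ∧ u' k ≤ 1 := by
    intro k hk
    obtain ⟨h1, h2, h3, h4, h5, h6⟩ := hk₀ k hk
    refine ⟨div_pos hq (by linarith), div_le_div_of_nonneg_left hq.le (by linarith) (by linarith), ?_⟩
    simp only [hu']
    rw [div_le_one (by linarith)]
    linarith
  have hwin : ∀ k, k₀ ≤ k → ∀ n, s k ≤ n → n < s k + M k → n + 1 ∈ F k → ∀ᵐ ω ∂μ, ω ∈ nearD D c δ (s k) →
      l' k ≤ dens μ ℱ A n ω ∧ dens μ ℱ A n ω ≤ u' k := by
    intro k hk n hn1 hn2 hnF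
    obtain ⟨h1, h2, h3, h4, h5, h6⟩ := hk₀ k hk
    filter_upwards [hK, hDd] with ω hKω hDω hnear
    obtain ⟨g1, g2⟩ := nearD_window hK0 (x := fun n => D n ω) hKω c h1 h2 h4 h5 hδ hnear n hn1 hn2.le
    rw [hDω n (h1.trans hn1) (hF k hnF)]
    have g3 : 0 < D n ω := by linarith
    exact ⟨div_le_div_of_nonneg_left hq.le g3 g2, div_le_div_of_nonneg_left hq.le (by linarith) g1⟩
  have hu0 : ∀ k, 0 ≤ u k := by
    intro k
    by_cases h : k₀ ≤ k
    · obtain ⟨h1, h2, h3⟩ := hb k h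
      simp only [hu, if_pos h]
      exact pow_nonneg (by linarith) _
    · simp only [hu, if_neg h]; exact le_rfl
  have hu1 : ∀ k, u k ≤ 1 := by
    intro k
    by_cases h : k₀ ≤ k
    · obtain ⟨h1, h2, h3⟩ := hb k h
      simp only [hu, if_pos h]
      exact pow_le_one₀ (by linarith) (by linarith)
    · simp only [hu, if_neg h]; exact zero_le_one
  have hl0 : ∀ k, 0 ≤ l k := by
    intro k
    by_cases h : k₀ ≤ k
    · obtain ⟨h1, h2, h3⟩ := hb k h
      simp only [hl, if_pos h]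
      exact pow_nonneg (by linarith) _
    · simp only [hl, if_neg h]; exact le_rfl
  have hl1 : ∀ k, l k ≤ 1 := by
    intro k
    by_cases h : k₀ ≤ k
    · obtain ⟨h1, h2, h3⟩ := hb k h
      simp only [hl, if_pos h]
      exact pow_le_one₀ (by linarith) (by linarith)
    · simp only [hl, if_neg h]; exact zero_le_one
  have hup : ∀ k, ∀ C ⊆ B k, MeasurableSet[ℱ (s' k)] C → μ.real (C ∩ E' k) ≤ u k * μ.real C := by
    intro k C hC hCm
    by_cases h : k₀ ≤ k
    · obtain ⟨h1, h2, h3⟩ := hb k h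
      simp only [hB, if_pos h] at hC
      rw [hs'e k h] at hCm
      simp only [hu, hE', hE, if_pos h]
      refine (void_bounds (μ := μ) hA (by linarith : l' k ≤ 1) h3 (F k) (s k) (M k) hCm ?_ (M k) le_rfl).2
      intro n hn1 hn2 hn3
      filter_upwards [hwin k h n hn1 hn2 hn3] with ω hω hωC
      exact hω (hC hωC)
    · simp only [hB, if_neg h] at hC
      have : C = ∅ := subset_empty_iff.1 hC
      rw [this]
      simp
  have hlow : ∀ k, ∀ C ⊆ B k, MeasurableSet[ℱ (s' k)] C → l k * μ.real C ≤ μ.real (C ∩ E' k) := by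
    intro k C hC hCm
    by_cases h : k₀ ≤ k
    · obtain ⟨h1, h2, h3⟩ := hb k h
      simp only [hB, if_pos h] at hC
      rw [hs'e k h] at hCm
      simp only [hl, hE', hE, if_pos h]
      refine (void_bounds (μ := μ) hA (by linarith : l' k ≤ 1) h3 (F k) (s k) (M k) hCm ?_ (M k) le_rfl).1
      intro n hn1 hn2 hn3
      filter_upwards [hwin k h n hn1 hn2 hn3] with ω hω hωC
      exact hω (hC hωC)
    · simp only [hB, if_neg h] at hC
      have : C = ∅ := subset_empty_iff.1 hC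
      rw [this]
      simp
  have hLtop : Tendsto (fun k => L1 (s k)) atTop atTop := L1_top.comp hw.top
  have hur : Tendsto (fun k => u k / ww s M F q k) atTop (𝓝 (Real.exp (κ * (c + 2 * δ - q / 2)))) := by
    refine (prob3 (b := c + 2 * δ) hLtop hq hw.lim).congr' ?_
    filter_upwards [eventually_ge_atTop k₀] with k hk
    simp only [hu, if_pos hk, hl', ww]
  have hlr : Tendsto (fun k => l k / ww s M F q k) atTop (𝓝 (Real.exp (κ * (c - 2 * δ - q / 2)))) := by
    refine (prob3 (b := c - 2 * δ) hLtop hq hw.lim).congr' ?_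
    filter_upwards [eventually_ge_atTop k₀] with k hk
    simp only [hl, if_pos hk, hu', ww]
  have hnearB : ∀ ω, (∃ k₁, ∀ k, k₁ ≤ k → ω ∈ nearD D c δ k) → ∃ k₁, ∀ k, k₁ ≤ k → ω ∈ B k := by
    rintro ω ⟨k₁, hk₁⟩
    rw [← eventually_atTop]
    filter_upwards [hw.top.eventually_ge_atTop k₁, eventually_ge_atTop k₀] with k h1 h2
    simp only [hB, if_pos h2]
    exact hk₁ _ h1
  have hEE : ∀ n ω, EC E' n ω ≤ EC E n ω ∧ EC E n ω ≤ EC E' n ω + k₀ := by
    intro n ω
    induction n with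
    | zero => simp [EC]
    | succ n ih =>
      unfold EC at ih ⊢
      rw [Finset.sum_range_succ, Finset.sum_range_succ]
      by_cases hn : k₀ ≤ n
      · have h1 : E' n = E n := by simp only [hE', if_pos hn]
        rw [h1]
        constructor <;> linarith [ih.1, ih.2]
      · have h1 : E' n = ∅ := by simp only [hE', if_neg hn]
        have h2 := ind01 (E n) ω
        have h3 : ∑ k ∈ Finset.range n, (E k).indicator (fun _ => (1 : ℝ)) ω ≤ n := by
          calc ∑ k ∈ Finset.range n, (E k).indicator (fun _ => (1 : ℝ)) ω ≤ ∑ k ∈ Finset.range n, (1 : ℝ) :=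
                Finset.sum_le_sum fun k _ => (ind01 _ ω).2.1
            _ = n := by simp
        have h4 : (0 : ℝ) ≤ ∑ k ∈ Finset.range n, (E' k).indicator (fun _ => (1 : ℝ)) ω :=
          Finset.sum_nonneg fun k _ => (ind01 _ ω).1
        have h5 : ((n : ℝ) + 1) ≤ k₀ := by exact_mod_cast (by omega : n + 1 ≤ k₀)
        rw [h1, indicator_empty]
        constructor <;> linarith [ih.1, ih.2, h2.1, h2.2.1]
  by_cases hsum : Summable (ww s M F q)
  · have h1 := seq_conv (μ := μ) E' B (fun k => ℱ (s' k)) hBm hu0 hup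
      (Eventually.of_forall (ww_pos s M F q)) hur hsum
    filter_upwards [h1] with ω h1 hnear
    refine ⟨fun h => absurd hsum h, fun _ => ?_⟩
    filter_upwards [h1 (hnearB ω hnear), eventually_ge_atTop k₀] with k h2 h3
    simpa only [hE', if_pos h3] using h2
  · have hW : Tendsto (fun n => ∑ k ∈ Finset.range n, ww s M F q k) atTop atTop :=
      (not_summable_iff_tendsto_nat_atTop_of_nonneg fun k => (ww_pos s M F q k).le).1 hsum
    have h1 := seq_law (μ := μ) (fun k => ℱ (s' k)) (fun k => ℱ.le _) E' hE0 hEj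
      (fun i j hij => ℱ.mono (hs'mono i j hij)) B hBm hu0 hu1 hl0 hl1 hup hlow
      (fun k => (ww_pos s M F q k).le) (Eventually.of_forall (ww_pos s M F q)) (Real.exp_pos _) hur hlr hW
    filter_upwards [h1] with ω h1 hnear
    refine ⟨fun _ ε hε => ?_, fun h => absurd h hsum⟩
    have h2 := h1 (hnearB ω hnear) (ε / 2) (by linarith)
    have h3 : Tendsto (fun n : ℕ => (k₀ : ℝ) / ∑ k ∈ Finset.range n, ww s M F q k) atTop (𝓝 0) :=
      tendsto_const_nhds.div_atTop hW
    filter_upwards [h2, h3.eventually (eventually_lt_nhds (show (0 : ℝ) < ε / 2 by linarith)),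
      hW.eventually_gt_atTop 0] with n g1 g2 g3
    obtain ⟨e1, e2⟩ := hEE n ω
    constructor
    · refine lt_of_lt_of_le ?_ (div_le_div_of_nonneg_right e1 g3.le)
      linarith [g1.1]
    · refine lt_of_le_of_lt (div_le_div_of_nonneg_right e2 g3.le) ?_
      rw [add_div]
      linarith [g1.2]

lemma nearD_all {D : ℕ → Ω → ℝ} {ω : Ω} {C : ℝ} (hC : Tendsto (fun n : ℕ => D n ω - Real.log n) atTop (𝓝 C))
    {c δ : ℝ} (hδ : |C - c| < δ) : ∃ k₁, ∀ k, k₁ ≤ k → ω ∈ nearD D c δ k := by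
  have hC' : Tendsto (fun k : ℕ => D k ω - L1 k) atTop (𝓝 C) := by
    have h3 : Tendsto (fun k : ℕ => Real.log ((k : ℝ) + 1) - Real.log k) atTop (𝓝 0) := by
      have h4 : Tendsto (fun k : ℕ => Real.log (1 + 1 / (k : ℝ))) atTop (𝓝 (Real.log (1 + 0))) := by
        apply Tendsto.log
        · exact tendsto_const_nhds.add tendsto_one_div_atTop_nhds_zero_nat
        · norm_num
      rw [add_zero, Real.log_one] at h4
      refine h4.congr' ?_
      filter_upwards [eventually_ge_atTop 1] with k hk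
      have hk' : (0 : ℝ) < k := by exact_mod_cast hk
      rw [← Real.log_div (by positivity) (by positivity)]
      congr 1
      field_simp
    have h5 := hC.sub h3
    rw [sub_zero] at h5
    refine h5.congr fun k => ?_
    unfold L1
    ring
  rw [← eventually_atTop]
  filter_upwards [hC'.eventually (Metric.ball_mem_nhds C (show 0 < δ - |C - c| by linarith))] with k hk
  have hk : dist (D k ω - L1 k) C < δ - |C - c| := hk
  rw [Real.dist_eq] at hk
  show |D k ω - (L1 k + c)| ≤ δ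
  have h1 : D k ω - (L1 k + c) = (D k ω - L1 k - C) + (C - c) := by ring
  rw [h1]
  have := abs_add_le (D k ω - L1 k - C) (C - c)
  linarith

/-- **the law for the empty windows** -/
theorem void_law (hA : ∀ n, MeasurableSet[ℱ n] (A n)) {K : ℝ} (hK0 : 0 ≤ K) {n₀ : ℕ} {q κ : ℝ} (hq : 0 < q)
    (hκ : 0 ≤ κ) {D : ℕ → Ω → ℝ} (hD : ∀ n, StronglyMeasurable[ℱ n] (D n))
    (hK : ∀ᵐ ω ∂μ, ∀ n, n₀ ≤ n → |D (n + 1) ω - D n ω| ≤ K / n * |D n ω|)
    {P : Set ℕ} (hDd : ∀ᵐ ω ∂μ, ∀ n, n₀ ≤ n → n + 1 ∈ P → dens μ ℱ A n ω = q / D n ω)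
    {s M : ℕ → ℕ} {F : ℕ → Set ℕ} (hF : ∀ k, F k ⊆ P) (hw : Win s M F q κ) :
    ∀ᵐ ω ∂μ, ∀ C : ℝ, Tendsto (fun n : ℕ => D n ω - Real.log n) atTop (𝓝 C) →
      (¬ Summable (ww s M F q) → Tendsto (fun n : ℕ => EC (fun k => void A (F k) (s k) (M k)) n ω /
        ∑ k ∈ Finset.range n, ww s M F q k) atTop (𝓝 (Real.exp (κ * (C - q / 2))))) ∧
      (Summable (ww s M F q) → ∀ᶠ k in atTop, ω ∉ void A (F k) (s k) (M k)) := by
  have h1 := ae_all_iff.2 fun m : ℕ => ae_all_iff.2 fun c : ℚ =>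
    void_core (μ := μ) (ℱ := ℱ) (A := A) hA hK0 hq hD hK hDd hF hw (c : ℝ) (δ := 1 / ((m : ℝ) + 1)) (by positivity)
  filter_upwards [h1] with ω h1 C hC
  have hcm : ∀ m : ℕ, ∃ c : ℚ, C < c ∧ (c : ℝ) < C + 1 / ((m : ℝ) + 1) ∧
      ∃ k₁, ∀ k, k₁ ≤ k → ω ∈ nearD D c (1 / ((m : ℝ) + 1)) k := by
    intro m
    have hm : 0 < 1 / ((m : ℝ) + 1) := by positivity
    obtain ⟨c, hc1, hc2⟩ := exists_rat_btwn (show C < C + 1 / ((m : ℝ) + 1) by linarith)
    refine ⟨c, hc1, hc2, nearD_all hC ?_⟩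
    rw [abs_lt]
    constructor <;> linarith
  refine ⟨fun hs => ?_, fun hs => ?_⟩
  · have hcont : Tendsto (fun x : ℝ => Real.exp (κ * (C + x - q / 2))) (𝓝 0) (𝓝 (Real.exp (κ * (C - q / 2)))) := by
      have h3 : Continuous (fun x : ℝ => Real.exp (κ * (C + x - q / 2))) := by fun_prop
      have := h3.tendsto 0
      simpa using this
    have hseq : Tendsto (fun m : ℕ => 3 * (1 / ((m : ℝ) + 1))) atTop (𝓝 0) := by
      have := (tendsto_one_div_add_atTop_nhds_zero_nat (𝕜 := ℝ)).const_mul 3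
      simpa using this
    have hkey : ∀ m : ℕ, ∀ ε : ℝ, 0 < ε → ∀ᶠ n : ℕ in atTop,
        Real.exp (κ * (C + -(3 * (1 / ((m : ℝ) + 1))) - q / 2)) - ε <
          EC (fun k => void A (F k) (s k) (M k)) n ω / ∑ k ∈ Finset.range n, ww s M F q k ∧
        EC (fun k => void A (F k) (s k) (M k)) n ω / ∑ k ∈ Finset.range n, ww s M F q k <
          Real.exp (κ * (C + 3 * (1 / ((m : ℝ) + 1)) - q / 2)) + ε := by
      intro m ε hε
      obtain ⟨c, hc1, hc2, h3⟩ := hcm m
      filter_upwards [(h1 m c h3).1 hs ε hε] with n hn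
      have g1 : Real.exp (κ * (C + -(3 * (1 / ((m : ℝ) + 1))) - q / 2)) ≤
          Real.exp (κ * (c - 2 * (1 / ((m : ℝ) + 1)) - q / 2)) :=
        Real.exp_le_exp.2 (mul_le_mul_of_nonneg_left (by
          have hm : 0 < 1 / ((m : ℝ) + 1) := by positivity
          linarith) hκ)
      have g2 : Real.exp (κ * (c + 2 * (1 / ((m : ℝ) + 1)) - q / 2)) ≤
          Real.exp (κ * (C + 3 * (1 / ((m : ℝ) + 1)) - q / 2)) :=
        Real.exp_le_exp.2 (mul_le_mul_of_nonneg_left (by linarith) hκ)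
      constructor <;> linarith [hn.1, hn.2]
    have hup := (hcont.comp hseq)
    have hlow := hcont.comp (by simpa using hseq.neg : Tendsto (fun m : ℕ => -(3 * (1 / ((m : ℝ) + 1)))) atTop (𝓝 0))
    rw [tendsto_order]
    constructor
    · intro a ha
      obtain ⟨m, hm⟩ := (hlow.eventually (eventually_gt_nhds ha)).exists
      simp only [Function.comp] at hm
      filter_upwards [hkey m (Real.exp (κ * (C + -(3 * (1 / ((m : ℝ) + 1))) - q / 2)) - a) (by linarith)] with n hn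
      linarith [hn.1]
    · intro a ha
      obtain ⟨m, hm⟩ := (hup.eventually (eventually_lt_nhds ha)).exists
      simp only [Function.comp] at hm
      filter_upwards [hkey m (a - Real.exp (κ * (C + (3 * (1 / ((m : ℝ) + 1))) - q / 2))) (by linarith)] with n hn
      linarith [hn.2]
  · obtain ⟨c, hc1, hc2, h3⟩ := hcm 0
    exact (h1 0 c h3).2 hs

end Pool.Agent.R320.IT
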