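import Mathlib
import Pool.Agent.R320.IT.Void

set_option autoImplicit false
set_option linter.unusedSectionVars false

/-! # Empty windows: sieved windows, convenient weights, counting -/

open MeasureTheory Filter Set
open scoped ENNReal Topology

namespace Pool.Agent.R320.IT

open Pool.Agent.R528.RM

/-- the integers coprime to `Q` -/
def cop (Q : ℕ) : Set ℕ := {m | Nat.Coprime m Q}

lemma cF_mono (F : Set ℕ) (s : ℕ) : Monotone (cF F s) := by
  refine monotone_nat_of_le_succ fun j => ?_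
  by_cases h : s + j + 1 ∈ F
  · rw [cF_succ_mem h]; omega
  · rw [cF_succ_not h]

lemma cF_add (F : Set ℕ) (s a b : ℕ) : cF F s (a + b) = cF F s a + cF F (s + a) b := by
  induction b with
  | zero => simp [cF_zero]
  | succ b ih =>
    rw [← add_assoc]
    by_cases h : s + a + b + 1 ∈ F
    · rw [cF_succ_mem (s := s + a) h, cF_succ_mem (s := s) (j := a + b) (by rwa [← add_assoc]), ih]
      omega
    · rw [cF_succ_not (s := s + a) h, cF_succ_not (s := s) (j := a + b) (by rwa [← add_assoc]), ih]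

lemma cF_period {Q : ℕ} (s : ℕ) : cF (cop Q) s Q = Nat.totient Q := by
  classical
  rw [← Nat.filter_coprime_Ico_eq_totient Q (s + 1)]
  unfold cF
  refine Finset.card_bij (fun i _ => s + i + 1) ?_ ?_ ?_
  · intro i hi
    simp only [Finset.mem_filter, Finset.mem_range, cop, mem_ofPred_eq] at hi
    simp only [Finset.mem_filter, Finset.mem_Ico]
    exact ⟨⟨by omega, by omega⟩, hi.2.symm⟩
  · intro i _ j _ h
    have h' : s + i + 1 = s + j + 1 := h
    omega
  · intro m hm
    simp only [Finset.mem_filter, Finset.mem_Ico] at hm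
    refine ⟨m - (s + 1), ?_, ?_⟩
    · simp only [Finset.mem_filter, Finset.mem_range, cop, mem_ofPred_eq]
      refine ⟨by omega, ?_⟩
      rw [show s + (m - (s + 1)) + 1 = m by omega]
      exact hm.2.symm
    · show s + (m - (s + 1)) + 1 = m
      omega

lemma cF_periods {Q : ℕ} (s t : ℕ) : cF (cop Q) s (Q * t) = Nat.totient Q * t := by
  induction t with
  | zero => simp [cF_zero]
  | succ t ih => rw [Nat.mul_succ, cF_add, ih, cF_period, Nat.mul_succ]

lemma cF_cop {Q : ℕ} (hQ : 0 < Q) (s M : ℕ) :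
    |(Q : ℝ) / Nat.totient Q * cF (cop Q) s M - M| ≤ Q := by
  have hφ : (0 : ℝ) < Nat.totient Q := by exact_mod_cast Nat.totient_pos.2 hQ
  have h1 : cF (cop Q) s (Q * (M / Q)) ≤ cF (cop Q) s M := cF_mono _ _ (Nat.mul_div_le M Q)
  have h2 : cF (cop Q) s M ≤ cF (cop Q) s (Q * (M / Q + 1)) := by
    apply cF_mono
    rw [Nat.mul_succ]
    have := Nat.mod_add_div M Q
    have := Nat.mod_lt M hQ
    omega
  rw [cF_periods] at h1 h2
  have h3 : Q * (M / Q) ≤ M := Nat.mul_div_le M Q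
  have h4 : M ≤ Q * (M / Q) + Q := by
    have := Nat.mod_add_div M Q
    have := Nat.mod_lt M hQ
    omega
  obtain ⟨t, ht⟩ : ∃ t, t = M / Q := ⟨_, rfl⟩
  rw [← ht] at h1 h2 h3 h4
  have h1' : (Nat.totient Q : ℝ) * t ≤ cF (cop Q) s M := by exact_mod_cast h1
  have h2' : (cF (cop Q) s M : ℝ) ≤ Nat.totient Q * (t + 1) := by exact_mod_cast h2
  have h3' : (Q : ℝ) * t ≤ M := by exact_mod_cast h3
  have h4' : (M : ℝ) ≤ Q * t + Q := by exact_mod_cast h4
  have hq : (0 : ℝ) ≤ (Q : ℝ) / Nat.totient Q := by positivity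
  have e1 : (Q : ℝ) / Nat.totient Q * (Nat.totient Q * t) = Q * t := by field_simp
  have e2 : (Q : ℝ) / Nat.totient Q * (Nat.totient Q * (t + 1)) = Q * t + Q := by field_simp
  have h5 := mul_le_mul_of_nonneg_left h1' hq
  have h6 := mul_le_mul_of_nonneg_left h2' hq
  rw [e1] at h5
  rw [e2] at h6
  rw [abs_le]
  constructor <;> linarith

lemma cF_remove (F : Set ℕ) (e s M : ℕ) : cF (F \ {e}) s M ≤ cF F s M ∧ cF F s M ≤ cF (F \ {e}) s M + 1 := by
  classical
  unfold cF
  constructor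
  · apply Finset.card_le_card
    intro i hi
    simp only [Finset.mem_filter, Finset.mem_range, Set.mem_sdiff] at hi ⊢
    exact ⟨hi.1, hi.2.1⟩
  · have h1 : (Finset.range M).filter (fun i => s + i + 1 ∈ F) ⊆
        insert (e - s - 1) ((Finset.range M).filter (fun i => s + i + 1 ∈ F \ {e})) := by
      intro i hi
      simp only [Finset.mem_filter, Finset.mem_range, Finset.mem_insert, Set.mem_sdiff, mem_singleton_iff] at hi ⊢
      by_cases h : s + i + 1 = e
      · left; omega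
      · right; exact ⟨hi.1, hi.2, h⟩
    refine (Finset.card_le_card h1).trans ((Finset.card_insert_le _ _).trans (le_of_eq ?_))
    congr!

lemma cF_hole {Q : ℕ} (hQ : 0 < Q) (e s M : ℕ) :
    |(Q : ℝ) / Nat.totient Q * cF (cop Q \ {e}) s M - M| ≤ 2 * Q := by
  have hφ : (1 : ℝ) ≤ Nat.totient Q := by exact_mod_cast Nat.totient_pos.2 hQ
  have hq : (0 : ℝ) ≤ (Q : ℝ) / Nat.totient Q := by positivity
  have hqQ : (Q : ℝ) / Nat.totient Q ≤ Q := div_le_self (Nat.cast_nonneg _) hφ
  obtain ⟨h1, h2⟩ := cF_remove (cop Q) e s M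
  have h1' : (cF (cop Q \ {e}) s M : ℝ) ≤ cF (cop Q) s M := by exact_mod_cast h1
  have h2' : (cF (cop Q) s M : ℝ) ≤ cF (cop Q \ {e}) s M + 1 := by exact_mod_cast h2
  have h3 := abs_le.1 (cF_cop hQ s M)
  have h4 := mul_le_mul_of_nonneg_left h1' hq
  have h5 := mul_le_mul_of_nonneg_left h2' hq
  rw [abs_le]
  constructor <;> nlinarith

variable {Ω : Type} {m0 : MeasurableSpace Ω} {μ : Measure Ω} [IsProbabilityMeasure μ]
  {ℱ : Filtration ℕ m0} {A : ℕ → Set Ω}

/-- the number of the events with index in `[0, X]` -/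
lemma EC_card (E : ℕ → Set Ω) (X : ℕ) (ω : Ω) :
    EC E (X + 1) ω = (Set.ncard {x : ℕ | x ≤ X ∧ ω ∈ E x} : ℝ) := by
  classical
  have h1 : {x : ℕ | x ≤ X ∧ ω ∈ E x} = ((Finset.range (X + 1)).filter (fun x => ω ∈ E x) : Finset ℕ) := by
    ext x
    simp only [mem_ofPred_eq, Finset.coe_filter, Finset.mem_range]
    constructor
    · rintro ⟨a, b⟩; exact ⟨by omega, b⟩
    · rintro ⟨a, b⟩; exact ⟨by omega, b⟩
  rw [h1, Set.ncard_coe_finset]
  unfold EC
  rw [Finset.card_filter]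
  push_cast
  apply Finset.sum_congr rfl
  intro k _
  by_cases h : ω ∈ E k
  · rw [indicator_of_mem h, if_pos h]
  · rw [indicator_of_notMem h, if_neg h]

/-- **windows with convenient weights** -/
theorem win_final (hA : ∀ n, MeasurableSet[ℱ n] (A n)) {K : ℝ} {n₀ : ℕ} {Q : ℕ} (hQ : 0 < Q)
    {D : ℕ → Ω → ℝ} (hD : ∀ n, StronglyMeasurable[ℱ n] (D n))
    (hK : ∀ᵐ ω ∂μ, ∀ n, n₀ ≤ n → |D (n + 1) ω - D n ω| ≤ K / n * |D n ω|)
    (hDd : ∀ᵐ ω ∂μ, ∀ n, n₀ ≤ n → Nat.Coprime (n + 1) Q → dens μ ℱ A n ω = (Q : ℝ) / Nat.totient Q / D n ω)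
    {s M e : ℕ → ℕ} {T Lg : ℕ → ℝ} {κ : ℝ} (hs : Tendsto s atTop atTop)
    (hdis : ∀ᶠ k in atTop, s k + M k ≤ s (k + 1)) {R : ℝ} (hR : 0 ≤ R)
    (hMT : ∀ᶠ k in atTop, |(M k : ℝ) - T k| ≤ R)
    (hT : Tendsto (fun k => T k / L1 (s k) ^ 2) atTop (𝓝 κ)) (hκ : 0 ≤ κ)
    (hTL : Tendsto (fun k => T k / L1 (s k) - T k / Lg k) atTop (𝓝 0)) :
    ∀ᵐ ω ∂μ, ∀ C : ℝ, Tendsto (fun n : ℕ => D n ω - Real.log n) atTop (𝓝 C) →
      (¬ Summable (fun k => Real.exp (-(T k / Lg k))) →
        Tendsto (fun X : ℕ => (Set.ncard {x : ℕ | x ≤ X ∧ ω ∈ void A (cop Q \ {e x}) (s x) (M x)} : ℝ) /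
          ∑ k ∈ Finset.range (X + 1), Real.exp (-(T k / Lg k))) atTop
          (𝓝 (Real.exp (κ * (C - (Q : ℝ) / Nat.totient Q / 2))))) ∧
      (Summable (fun k => Real.exp (-(T k / Lg k))) →
        ∀ᶠ k in atTop, ω ∉ void A (cop Q \ {e k}) (s k) (M k)) := by
  have hφ : (0 : ℝ) < Nat.totient Q := by exact_mod_cast Nat.totient_pos.2 hQ
  have hQ' : (0 : ℝ) < Q := by exact_mod_cast hQ
  have hq : (0 : ℝ) < (Q : ℝ) / Nat.totient Q := by positivity
  obtain ⟨q, hqd⟩ : ∃ q, q = (Q : ℝ) / Nat.totient Q := ⟨_, rfl⟩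
  rw [← hqd] at hq
  simp only [← hqd] at hDd ⊢
  set F : ℕ → Set ℕ := fun k => cop Q \ {e k} with hF
  have hLtop : Tendsto (fun k => L1 (s k)) atTop atTop := L1_top.comp hs
  have hdiff : ∀ᶠ k in atTop, |q * cF (F k) (s k) (M k) - T k| ≤ 2 * Q + R := by
    filter_upwards [hMT] with k hk
    have h1 := abs_le.1 (cF_hole hQ (e k) (s k) (M k))
    rw [← hqd] at h1
    have h2 := abs_le.1 hk
    rw [abs_le]
    constructor <;> linarith
  have hd1 : Tendsto (fun k => q * cF (F k) (s k) (M k) / L1 (s k) - T k / L1 (s k)) atTop (𝓝 0) := by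
    have h0 : Tendsto (fun k => (2 * Q + R) / L1 (s k)) atTop (𝓝 0) := tendsto_const_nhds.div_atTop hLtop
    refine squeeze_zero_norm' ?_ h0
    filter_upwards [hdiff, hLtop.eventually_gt_atTop 0] with k h1 h2
    rw [← sub_div, norm_div, Real.norm_eq_abs, Real.norm_eq_abs, abs_of_pos h2]
    exact div_le_div_of_nonneg_right h1 h2.le
  have hlim : Tendsto (fun k => q * cF (F k) (s k) (M k) / L1 (s k) ^ 2) atTop (𝓝 κ) := by
    have h0 : Tendsto (fun k => (L1 (s k))⁻¹) atTop (𝓝 0) := hLtop.inv_tendsto_atTop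
    have h1 := (hd1.mul h0).add hT
    rw [mul_zero, zero_add] at h1
    refine h1.congr' ?_
    filter_upwards [hLtop.eventually_gt_atTop 0] with k hk
    field_simp
    ring
  have hwin : Win s M F q κ := by
    refine ⟨hs, hdis, ⟨κ + 1 + R, by positivity, ?_⟩, hlim⟩
    filter_upwards [hT.eventually (eventually_le_nhds (show κ < κ + 1 by linarith)), hMT,
      hLtop.eventually_ge_atTop 1] with k h1 h2 h3
    have h4 : 1 ≤ L1 (s k) ^ 2 := one_le_pow₀ h3
    rw [div_le_iff₀ (by positivity)] at h1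
    have h5 := abs_le.1 h2
    nlinarith
  have hlaw := void_law (μ := μ) (ℱ := ℱ) (A := A) (F := F) hA (K := |K|) (abs_nonneg K) (n₀ := n₀) hq hκ hD (by
    filter_upwards [hK] with ω hω n hn
    refine (hω n hn).trans ?_
    apply mul_le_mul_of_nonneg_right _ (abs_nonneg _)
    exact div_le_div_of_nonneg_right (le_abs_self K) (Nat.cast_nonneg n))
    (P := cop Q) (by
      filter_upwards [hDd] with ω hω n hn hc
      exact hω n hn hc) (fun k => sdiff_subset) hwin
  -- comparison of the weights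
  set v : ℕ → ℝ := fun k => Real.exp (-(T k / Lg k)) with hv
  have hv0 : ∀ k, 0 < v k := fun k => Real.exp_pos _
  have hr : Tendsto (fun k => v k / ww s M F q k) atTop (𝓝 1) := by
    have h1 := hd1.add hTL
    rw [add_zero] at h1
    have h2 := (Real.continuous_exp.tendsto _).comp h1
    rw [Real.exp_zero] at h2
    refine h2.congr fun k => ?_
    simp only [Function.comp, hv, ww]
    rw [← Real.exp_sub]
    congr 1
    ring
  have hr' : Tendsto (fun k => ww s M F q k / v k) atTop (𝓝 1) := by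
    have := hr.inv₀ one_ne_zero
    rw [inv_one] at this
    exact this.congr fun k => by rw [inv_div]
  have hsum : Summable v ↔ Summable (ww s M F q) := by
    constructor
    · intro h
      refine summable_of_isBigO_nat h (Asymptotics.isBigO_of_div_tendsto_nhds ?_ _ hr')
      exact Eventually.of_forall fun k h0 => absurd h0 (hv0 k).ne'
    · intro h
      refine summable_of_isBigO_nat h (Asymptotics.isBigO_of_div_tendsto_nhds ?_ _ hr)
      exact Eventually.of_forall fun k h0 => absurd h0 (ww_pos s M F q k).ne'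
  filter_upwards [hlaw] with ω hω C hC
  obtain ⟨h1, h2⟩ := hω C hC
  refine ⟨fun hns => ?_, fun hs' => h2 (hsum.1 hs')⟩
  have hW : Tendsto (fun n => ∑ k ∈ Finset.range n, ww s M F q k) atTop atTop :=
    (not_summable_iff_tendsto_nat_atTop_of_nonneg fun k => (ww_pos s M F q k).le).1 (fun h => hns (hsum.2 h))
  have hV : Tendsto (fun n => ∑ k ∈ Finset.range n, v k) atTop atTop :=
    (not_summable_iff_tendsto_nat_atTop_of_nonneg fun k => (hv0 k).le).1 hns
  have h3 := (h1 (fun h => hns (hsum.2 h))).mul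
    (sum_ratio (fun k => (hv0 k).le) (Eventually.of_forall hv0) hr' hV)
  rw [mul_one] at h3
  have h4 : Tendsto (fun n : ℕ => EC (fun k => void A (F k) (s k) (M k)) n ω / ∑ k ∈ Finset.range n, v k) atTop
      (𝓝 (Real.exp (κ * (C - q / 2)))) := by
    refine h3.congr' ?_
    filter_upwards [hW.eventually_gt_atTop 0] with n hn
    have := hn.ne'
    field_simp
  refine ((tendsto_add_atTop_iff_nat 1).2 h4).congr fun X => ?_
  show EC (fun k => void A (F k) (s k) (M k)) (X + 1) ω / ∑ k ∈ Finset.range (X + 1), v k = _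
  rw [EC_card]

end Pool.Agent.R320.IT
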