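import Mathlib
import Pool.Agent.R320.IT.Apply

set_option autoImplicit false
set_option linter.unusedSectionVars false

/-! # Windows with few chosen integers: bounds for the conditional probabilities -/

open MeasureTheory Filter Set
open scoped ENNReal Topology

namespace Pool.Agent.R320.IT

open Pool.Agent.R528.RM

variable {Ω : Type} {m0 : MeasurableSpace Ω} {μ : Measure Ω} [IsProbabilityMeasure μ]
  {ℱ : Filtration ℕ m0} {A : ℕ → Set Ω}

open Classical in
/-- the number of the chosen elements of `F` among `s + 1, ..., s + j` -/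
noncomputable def cn (A : ℕ → Set Ω) (F : Set ℕ) (s j : ℕ) (ω : Ω) : ℕ :=
  ((Finset.range j).filter (fun i => s + i + 1 ∈ F ∧ ω ∈ A (s + i + 1))).card

lemma cn_zero (F : Set ℕ) (s : ℕ) (ω : Ω) : cn A F s 0 ω = 0 := by simp [cn]

lemma cn_succ_mem {F : Set ℕ} {s j : ℕ} {ω : Ω} (h : s + j + 1 ∈ F) (h' : ω ∈ A (s + j + 1)) :
    cn A F s (j + 1) ω = cn A F s j ω + 1 := by
  classical
  unfold cn
  rw [Finset.range_add_one, Finset.filter_insert, if_pos ⟨h, h'⟩, Finset.card_insert_of_notMem (by simp)]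

lemma cn_succ_not {F : Set ℕ} {s j : ℕ} {ω : Ω} (h : ¬ (s + j + 1 ∈ F ∧ ω ∈ A (s + j + 1))) :
    cn A F s (j + 1) ω = cn A F s j ω := by
  classical
  unfold cn
  rw [Finset.range_add_one, Finset.filter_insert, if_neg h]

/-- exactly `r` chosen -/
def exa (A : ℕ → Set Ω) (F : Set ℕ) (s j r : ℕ) : Set Ω := {ω | cn A F s j ω = r}

lemma exa_not {F : Set ℕ} {s j r : ℕ} (h : s + j + 1 ∉ F) : exa A F s (j + 1) r = exa A F s j r := by
  ext ω
  simp only [exa, mem_ofPred_eq]
  rw [cn_succ_not (fun h' => h h'.1)]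

lemma exa_zero {F : Set ℕ} {s j : ℕ} (h : s + j + 1 ∈ F) :
    exa A F s (j + 1) 0 = exa A F s j 0 \ A (s + j + 1) := by
  ext ω
  simp only [exa, mem_ofPred_eq, Set.mem_sdiff]
  by_cases hw : ω ∈ A (s + j + 1)
  · rw [cn_succ_mem h hw]
    simp [hw]
  · rw [cn_succ_not (fun h' => hw h'.2)]
    simp [hw]

lemma exa_succ {F : Set ℕ} {s j r : ℕ} (h : s + j + 1 ∈ F) :
    exa A F s (j + 1) (r + 1) = (exa A F s j (r + 1) \ A (s + j + 1)) ∪ (exa A F s j r ∩ A (s + j + 1)) := by
  ext ω
  simp only [exa, mem_ofPred_eq, Set.mem_sdiff, mem_union, mem_inter_iff]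
  by_cases hw : ω ∈ A (s + j + 1)
  · rw [cn_succ_mem h hw]
    simp [hw]
  · rw [cn_succ_not (fun h' => hw h'.2)]
    simp [hw]

lemma exa_meas (hA : ∀ n, MeasurableSet[ℱ n] (A n)) (F : Set ℕ) (s j : ℕ) :
    ∀ r, MeasurableSet[ℱ (s + j)] (exa A F s j r) := by
  induction j with
  | zero =>
    intro r
    by_cases hr : r = 0
    · have : exa A F s 0 r = univ := by
        ext ω; simp [exa, cn_zero, hr]
      rw [this]; exact @MeasurableSet.univ _ (ℱ _)
    · have : exa A F s 0 r = ∅ := by
        ext ω; simp only [exa, cn_zero, mem_ofPred_eq, mem_empty_iff_false, iff_false]; omega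
      rw [this]; exact @MeasurableSet.empty _ (ℱ _)
  | succ j ih =>
    intro r
    have h1 : ∀ r, MeasurableSet[ℱ (s + (j + 1))] (exa A F s j r) := fun r => ℱ.mono (by omega) _ (ih r)
    by_cases h : s + j + 1 ∈ F
    · rcases r with _ | r
      · rw [exa_zero h]
        exact MeasurableSet.diff (h1 0) (hA (s + j + 1))
      · rw [exa_succ h]
        exact @MeasurableSet.union _ (ℱ (s + (j + 1))) _ _ (MeasurableSet.diff (h1 _) (hA (s + j + 1)))
          (@MeasurableSet.inter _ (ℱ (s + (j + 1))) _ _ (h1 _) (hA (s + j + 1)))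
    · rw [exa_not h]
      exact h1 r

/-- the weights of the binomial law with separate weights `x`, `y` -/
noncomputable def bin (x y : ℝ) (m r : ℕ) : ℝ := (m.choose r : ℝ) * x ^ r * y ^ (m - r)

lemma bin_zero (x y : ℝ) (m : ℕ) : bin x y (m + 1) 0 = y * bin x y m 0 := by
  unfold bin
  simp
  ring

lemma bin_succ (x y : ℝ) (m r : ℕ) : bin x y (m + 1) (r + 1) = y * bin x y m (r + 1) + x * bin x y m r := by
  unfold bin
  rw [Nat.choose_succ_succ]
  push_cast
  rcases Nat.lt_or_ge r m with h | h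
  · have e2 : m - r = (m - (r + 1)) + 1 := by omega
    rw [e2, pow_succ y, pow_succ x]
    ring
  · have e1 : m.choose (r + 1) = 0 := Nat.choose_eq_zero_of_lt (by omega)
    rw [e1, pow_succ]
    push_cast
    ring

lemma bin_nonneg {x y : ℝ} (hx : 0 ≤ x) (hy : 0 ≤ y) (m r : ℕ) : 0 ≤ bin x y m r := by
  unfold bin
  positivity

/-- bounds for the probability of `r` chosen integers in a window -/
theorem exa_bounds (hA : ∀ n, MeasurableSet[ℱ n] (A n)) {l u : ℝ} (hl0 : 0 ≤ l) (hlu' : l ≤ u) (hu1 : u ≤ 1)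
    (F : Set ℕ) (s G : ℕ) {B : Set Ω} (hB : MeasurableSet[ℱ s] B)
    (hlu : ∀ n, s ≤ n → n < s + G → n + 1 ∈ F → ∀ᵐ ω ∂μ, ω ∈ B → l ≤ dens μ ℱ A n ω ∧ dens μ ℱ A n ω ≤ u) :
    ∀ j ≤ G, ∀ r, bin l (1 - u) (cF F s j) r * μ.real B ≤ μ.real (B ∩ exa A F s j r) ∧
      μ.real (B ∩ exa A F s j r) ≤ bin u (1 - l) (cF F s j) r * μ.real B := by
  intro j
  induction j with
  | zero =>
    intro _ r
    by_cases hr : r = 0
    · have e : exa A F s 0 r = univ := by
        ext ω; simp [exa, cn_zero, hr]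
      rw [e, inter_univ, cF_zero, hr]
      simp [bin]
    · have e : exa A F s 0 r = ∅ := by
        ext ω; simp only [exa, cn_zero, mem_ofPred_eq, mem_empty_iff_false, iff_false]; omega
      rw [e, inter_empty, cF_zero]
      have h0 : (0 : ℕ).choose r = 0 := Nat.choose_eq_zero_of_lt (by omega)
      simp [bin, h0]
  | succ j ih =>
    intro hj r
    have ih := ih (by omega)
    by_cases h : s + j + 1 ∈ F
    · have hA' : MeasurableSet (A (s + j + 1)) := ℱ.le _ _ (hA _)
      have h1 := hlu (s + j) (by omega) (by omega) h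
      have hC : ∀ r, MeasurableSet[ℱ (s + j)] (B ∩ exa A F s j r) := fun r =>
        MeasurableSet.inter (ℱ.mono (by omega) _ hB) (exa_meas hA F s j r)
      have h2 : ∀ r, l * μ.real (B ∩ exa A F s j r) ≤ μ.real ((B ∩ exa A F s j r) ∩ A (s + j + 1)) := fun r =>
        lower_ae (μ := μ) hA (s + j) (hC r) (l := l) (h1.mono fun ω h hω => (h hω.1).1)
      have h3 : ∀ r, μ.real ((B ∩ exa A F s j r) ∩ A (s + j + 1)) ≤ u * μ.real (B ∩ exa A F s j r) := fun r =>
        upper_ae (μ := μ) hA (s + j) (hC r) (u := u) (h1.mono fun ω h hω => (h hω.1).2)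
      have hd : ∀ r, μ.real ((B ∩ exa A F s j r) \ A (s + j + 1)) =
          μ.real (B ∩ exa A F s j r) - μ.real ((B ∩ exa A F s j r) ∩ A (s + j + 1)) := by
        intro r
        have := measureReal_inter_add_sdiff (μ := μ) (s := B ∩ exa A F s j r) hA'
        linarith
      have hl1 : l ≤ 1 := hlu'.trans hu1
      have hu0 : 0 ≤ u := hl0.trans hlu'
      rw [cF_succ_mem h]
      rcases r with _ | r
      · have e : B ∩ exa A F s (j + 1) 0 = (B ∩ exa A F s j 0) \ A (s + j + 1) := by
          rw [exa_zero h, inter_sdiff_assoc]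
        rw [e, hd, bin_zero, bin_zero]
        obtain ⟨i1, i2⟩ := ih 0
        have h4 := h2 0
        have h5 := h3 0
        constructor
        · have h6 : (1 - u) * (bin l (1 - u) (cF F s j) 0 * μ.real B) ≤ (1 - u) * μ.real (B ∩ exa A F s j 0) :=
            mul_le_mul_of_nonneg_left i1 (by linarith)
          linarith
        · have h6 : (1 - l) * μ.real (B ∩ exa A F s j 0) ≤ (1 - l) * (bin u (1 - l) (cF F s j) 0 * μ.real B) :=
            mul_le_mul_of_nonneg_left i2 (by linarith)
          linarith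
      · have e : B ∩ exa A F s (j + 1) (r + 1) = ((B ∩ exa A F s j (r + 1)) \ A (s + j + 1)) ∪
            ((B ∩ exa A F s j r) ∩ A (s + j + 1)) := by
          rw [exa_succ h, inter_union_distrib_left, inter_sdiff_assoc, inter_assoc]
        have hdis : Disjoint ((B ∩ exa A F s j (r + 1)) \ A (s + j + 1)) ((B ∩ exa A F s j r) ∩ A (s + j + 1)) := by
          rw [Set.disjoint_left]
          rintro ω ⟨_, h7⟩ ⟨_, h8⟩
          exact h7 h8
        rw [e, measureReal_union hdis ((ℱ.le _ _ (hC r)).inter hA'), hd, bin_succ, bin_succ]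
        obtain ⟨i1, i2⟩ := ih (r + 1)
        obtain ⟨i3, i4⟩ := ih r
        have h4 := h2 (r + 1)
        have h5 := h3 (r + 1)
        have h6 := h2 r
        have h7 := h3 r
        constructor
        · have g1 : (1 - u) * (bin l (1 - u) (cF F s j) (r + 1) * μ.real B) ≤
              (1 - u) * μ.real (B ∩ exa A F s j (r + 1)) := mul_le_mul_of_nonneg_left i1 (by linarith)
          have g2 : l * (bin l (1 - u) (cF F s j) r * μ.real B) ≤ l * μ.real (B ∩ exa A F s j r) :=
            mul_le_mul_of_nonneg_left i3 hl0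
          linarith
        · have g1 : (1 - l) * μ.real (B ∩ exa A F s j (r + 1)) ≤
              (1 - l) * (bin u (1 - l) (cF F s j) (r + 1) * μ.real B) := mul_le_mul_of_nonneg_left i2 (by linarith)
          have g2 : u * μ.real (B ∩ exa A F s j r) ≤ u * (bin u (1 - l) (cF F s j) r * μ.real B) :=
            mul_le_mul_of_nonneg_left i4 hu0
          linarith
    · rw [exa_not h, cF_succ_not h]
      exact ih r

/-- at most `R` chosen -/
def few (A : ℕ → Set Ω) (F : Set ℕ) (s j R : ℕ) : Set Ω := {ω | cn A F s j ω ≤ R}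

lemma few_eq (F : Set ℕ) (s j R : ℕ) : few A F s j R = ⋃ r ∈ Finset.range (R + 1), exa A F s j r := by
  ext ω
  simp only [few, exa, mem_ofPred_eq, mem_iUnion, Finset.mem_range, exists_prop]
  constructor
  · intro h; exact ⟨_, by omega, rfl⟩
  · rintro ⟨r, h1, h2⟩; omega

lemma few_meas (hA : ∀ n, MeasurableSet[ℱ n] (A n)) (F : Set ℕ) (s j R : ℕ) :
    MeasurableSet[ℱ (s + j)] (few A F s j R) := by
  rw [few_eq]
  exact Finset.measurableSet_biUnion _ fun r _ => exa_meas hA F s j r

lemma few_real (hA : ∀ n, MeasurableSet[ℱ n] (A n)) (F : Set ℕ) (s j R : ℕ) {C : Set Ω} (hC : MeasurableSet C) :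
    μ.real (C ∩ few A F s j R) = ∑ r ∈ Finset.range (R + 1), μ.real (C ∩ exa A F s j r) := by
  have e : C ∩ few A F s j R = ⋃ r ∈ Finset.range (R + 1), (C ∩ exa A F s j r) := by
    rw [few_eq]
    ext ω
    simp only [mem_inter_iff, mem_iUnion, exists_prop]
    constructor
    · rintro ⟨h1, r, h2, h3⟩; exact ⟨r, h2, h1, h3⟩
    · rintro ⟨r, h2, h1, h3⟩; exact ⟨h1, r, h2, h3⟩
  rw [e, measureReal_biUnion_finset]
  · intro r _ r' _ hrr
    rw [Function.onFun, Set.disjoint_left]
    rintro ω ⟨_, h1⟩ ⟨_, h2⟩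
    simp only [exa, mem_ofPred_eq] at h1 h2
    exact hrr (h1.symm.trans h2)
  · intro r _
    exact hC.inter (ℱ.le _ _ (exa_meas hA F s j r))

/-- bounds for the probability of at most `R` chosen integers in a window -/
theorem few_bounds (hA : ∀ n, MeasurableSet[ℱ n] (A n)) {l u : ℝ} (hl0 : 0 ≤ l) (hlu' : l ≤ u) (hu1 : u ≤ 1)
    (F : Set ℕ) (s G R : ℕ) {B : Set Ω} (hB : MeasurableSet[ℱ s] B)
    (hlu : ∀ n, s ≤ n → n < s + G → n + 1 ∈ F → ∀ᵐ ω ∂μ, ω ∈ B → l ≤ dens μ ℱ A n ω ∧ dens μ ℱ A n ω ≤ u) :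
    (∑ r ∈ Finset.range (R + 1), bin l (1 - u) (cF F s G) r) * μ.real B ≤ μ.real (B ∩ few A F s G R) ∧
      μ.real (B ∩ few A F s G R) ≤ (∑ r ∈ Finset.range (R + 1), bin u (1 - l) (cF F s G) r) * μ.real B := by
  rw [few_real (μ := μ) hA F s G R (ℱ.le _ _ hB), Finset.sum_mul, Finset.sum_mul]
  have h := exa_bounds (μ := μ) hA hl0 hlu' hu1 F s G hB hlu G le_rfl
  exact ⟨Finset.sum_le_sum fun r _ => (h r).1, Finset.sum_le_sum fun r _ => (h r).2⟩

/-- asymptotics of `bin` -/
lemma bin_asymp {q κ b b' : ℝ} {L : ℕ → ℝ} (hL : Tendsto L atTop atTop) {g : ℕ → ℕ}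
    (hq : 0 < q) (hκ : 0 < κ) (hg : Tendsto (fun k => q * g k / L k ^ 2) atTop (𝓝 κ)) (R r : ℕ) (hr : r ≤ R) :
    Tendsto (fun k => bin (q / (L k + b')) (1 - q / (L k + b)) (g k) r /
      ((q * g k / L k) ^ R / R.factorial * Real.exp (-(q * g k / L k)))) atTop
      (𝓝 (if r = R then Real.exp (κ * (b - q / 2)) else 0)) := by
  have hz : Tendsto (fun k => q * g k / L k) atTop atTop := by
    have h1 := hg.pos_mul_atTop hκ hL
    refine h1.congr' ?_
    filter_upwards [hL.eventually_gt_atTop 0] with k hk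
    field_simp
  have hgt : Tendsto g atTop atTop := by
    have h1 : Tendsto (fun k => (g k : ℝ)) atTop atTop := by
      have h2 : Tendsto (fun k => (q * g k / L k) * L k * q⁻¹) atTop atTop :=
        (hz.atTop_mul_atTop₀ hL).atTop_mul_const (inv_pos.2 hq)
      refine h2.congr' ?_
      filter_upwards [hL.eventually_gt_atTop 0] with k hk
      field_simp
    exact tendsto_natCast_atTop_iff.1 h1
  -- `choose (g, r) / g ^ r → 1 / r!`
  have hch : Tendsto (fun k => ((g k).choose r : ℝ) / (g k : ℝ) ^ r) atTop (𝓝 (1 / r.factorial)) := by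
    have h1 : Tendsto (fun m : ℕ => ((m.choose r : ℕ) : ℝ) / (m : ℝ) ^ r) atTop (𝓝 (1 / r.factorial)) := by
      have h2 : Tendsto (fun m : ℕ => ((m.descFactorial r : ℕ) : ℝ) / (m : ℝ) ^ r) atTop (𝓝 1) := by
        induction r with
        | zero => simp
        | succ r ih =>
          have h3 : Tendsto (fun m : ℕ => ((m - r : ℕ) : ℝ) / (m : ℝ)) atTop (𝓝 1) := by
            have h4 : Tendsto (fun m : ℕ => 1 - (r : ℝ) / m) atTop (𝓝 (1 - 0)) :=
              tendsto_const_nhds.sub (tendsto_const_nhds.div_atTop tendsto_natCast_atTop_atTop)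
            rw [sub_zero] at h4
            refine h4.congr' ?_
            filter_upwards [eventually_ge_atTop (r + 1)] with m hm
            rw [Nat.cast_sub (by omega)]
            have : (m : ℝ) ≠ 0 := by
              have : 0 < m := by omega
              positivity
            field_simp
          have h5 := h3.mul (ih (by omega))
          rw [one_mul] at h5
          refine h5.congr fun m => ?_
          rw [Nat.descFactorial_succ, pow_succ]
          push_cast
          rw [div_mul_div_comm, mul_comm (m : ℝ) ((m : ℝ) ^ r)]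
      have h3 := h2.div_const (r.factorial : ℝ)
      refine h3.congr fun m => ?_
      have h4 : ((m.descFactorial r : ℕ) : ℝ) = r.factorial * (m.choose r : ℕ) := by
        exact_mod_cast Nat.descFactorial_eq_factorial_mul_choose m r
      rw [h4]
      have : (r.factorial : ℝ) ≠ 0 := by positivity
      field_simp
    exact h1.comp hgt
  have hy1 : Tendsto (fun k => (1 - q / (L k + b)) ^ r) atTop (𝓝 1) := by
    have h1 : Tendsto (fun k => q / (L k + b)) atTop (𝓝 0) :=
      tendsto_const_nhds.div_atTop (tendsto_atTop_add_const_right _ b hL)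
    have := (h1.const_sub 1).pow r
    simpa using this
  have hx1 : Tendsto (fun k => (L k / (L k + b')) ^ r) atTop (𝓝 1) := by
    have := ((tendsto_ratio b').comp hL).pow r
    simpa using this
  have hp := prob3 (b := b) hL hq hg
  have hzr : Tendsto (fun k => (R.factorial : ℝ) * ((q * g k / L k) ^ r / (q * g k / L k) ^ R)) atTop
      (𝓝 (if r = R then (R.factorial : ℝ) else 0)) := by
    by_cases h : r = R
    · subst h
      rw [if_pos rfl]
      refine (tendsto_const_nhds (x := (r.factorial : ℝ))).congr' ?_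
      filter_upwards [hz.eventually_gt_atTop 0] with k hk
      rw [div_self (pow_pos hk r).ne', mul_one]
    · rw [if_neg h]
      have h1 : Tendsto (fun k => ((q * g k / L k) ^ (R - r))⁻¹) atTop (𝓝 0) :=
        ((tendsto_pow_atTop (by omega)).comp hz).inv_tendsto_atTop
      have h2 := h1.const_mul (R.factorial : ℝ)
      rw [mul_zero] at h2
      refine h2.congr' ?_
      filter_upwards [hz.eventually_gt_atTop 0] with k hk
      congr 1
      have h3 : (q * g k / L k) ^ R = (q * g k / L k) ^ (R - r) * (q * g k / L k) ^ r := by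
        rw [← pow_add]; congr 1; omega
      rw [h3]
      have := (pow_pos hk r).ne'
      have := (pow_pos hk (R - r)).ne'
      field_simp
  have h1 := (((hch.mul hx1).mul hzr).mul hp).mul (hy1.inv₀ one_ne_zero)
  rw [inv_one, mul_one, mul_one] at h1
  have e : 1 / (r.factorial : ℝ) * (if r = R then (R.factorial : ℝ) else 0) * Real.exp (κ * (b - q / 2)) =
      if r = R then Real.exp (κ * (b - q / 2)) else 0 := by
    by_cases h : r = R
    · subst h
      rw [if_pos rfl, if_pos rfl]
      have : (r.factorial : ℝ) ≠ 0 := by positivity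
      field_simp
    · rw [if_neg h, if_neg h]; ring
  rw [e] at h1
  refine h1.congr' ?_
  filter_upwards [hL.eventually_gt_atTop (q - b), hL.eventually_gt_atTop (-b'), hL.eventually_gt_atTop (0 : ℝ),
    hz.eventually_gt_atTop 0, hgt.eventually_ge_atTop r, hgt.eventually_gt_atTop 0] with k hLb hLb' hL0 hzk hgr hg0
  have hpos : 0 < 1 - q / (L k + b) := by
    have h2 : q < L k + b := by linarith
    have : q / (L k + b) < 1 := by
      rw [div_lt_one (by linarith)]
      exact h2
    linarith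
  obtain ⟨y, hy⟩ : ∃ y, y = 1 - q / (L k + b) := ⟨_, rfl⟩
  obtain ⟨Y, hY⟩ : ∃ Y, Y = L k + b' := ⟨_, rfl⟩
  have hYpos : 0 < Y := by rw [hY]; linarith
  obtain ⟨E, hE⟩ : ∃ E, E = Real.exp (-(q * g k / L k)) := ⟨_, rfl⟩
  have hEpos : 0 < E := by rw [hE]; exact Real.exp_pos _
  have hgk : (0 : ℝ) < g k := by exact_mod_cast hg0
  unfold bin
  rw [← hy] at hpos ⊢
  rw [← hY, ← hE]
  have e1 : y ^ g k = y ^ (g k - r) * y ^ r := by rw [← pow_add]; congr 1; omega
  rw [e1]
  have hyr : 0 < y ^ r := pow_pos hpos r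
  have hfac : (0 : ℝ) < R.factorial := by positivity
  simp only [div_pow, mul_pow]
  have h7 : (0 : ℝ) < (g k : ℝ) ^ r := by positivity
  have h8 : (0 : ℝ) < (L k) ^ r := by positivity
  have h9 : (0 : ℝ) < q ^ r := by positivity
  field_simp

end Pool.Agent.R320.IT
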