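import Mathlib
import Pool.Agent.R320.IT.Few

set_option autoImplicit false
set_option linter.unusedSectionVars false

/-! # Windows with few chosen integers: integral test and exact count -/

open MeasureTheory Filter Set
open scoped ENNReal Topology

namespace Pool.Agent.R320.IT

open Pool.Agent.R528.RM

variable {Ω : Type} {m0 : MeasurableSpace Ω} {μ : Measure Ω} [IsProbabilityMeasure μ]
  {ℱ : Filtration ℕ m0} {A : ℕ → Set Ω}

/-- the weight of a window for at most `R` chosen integers -/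
noncomputable def wR (s M : ℕ → ℕ) (F : ℕ → Set ℕ) (q : ℝ) (R k : ℕ) : ℝ :=
  (q * cF (F k) (s k) (M k) / L1 (s k)) ^ R / R.factorial * Real.exp (-(q * cF (F k) (s k) (M k) / L1 (s k)))

lemma wR_nonneg (s M : ℕ → ℕ) (F : ℕ → Set ℕ) {q : ℝ} (hq : 0 < q) (R k : ℕ) : 0 ≤ wR s M F q R k := by
  unfold wR
  have h1 : 0 ≤ q * cF (F k) (s k) (M k) / L1 (s k) := div_nonneg (by positivity) (L1_nonneg _)
  positivity

lemma z_top {s M : ℕ → ℕ} {F : ℕ → Set ℕ} {q κ : ℝ} (hw : Win s M F q κ) (hκ : 0 < κ) :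
    Tendsto (fun k => q * cF (F k) (s k) (M k) / L1 (s k)) atTop atTop := by
  have hL : Tendsto (fun k => L1 (s k)) atTop atTop := L1_top.comp hw.top
  have h1 := hw.lim.pos_mul_atTop hκ hL
  refine h1.congr' ?_
  filter_upwards [hL.eventually_gt_atTop 0] with k hk
  field_simp

lemma wR_pos {s M : ℕ → ℕ} {F : ℕ → Set ℕ} {q κ : ℝ} (hw : Win s M F q κ) (hκ : 0 < κ) (R : ℕ) :
    ∀ᶠ k in atTop, 0 < wR s M F q R k := by
  filter_upwards [(z_top hw hκ).eventually_gt_atTop 0] with k hk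
  unfold wR
  have := Real.exp_pos (-(q * cF (F k) (s k) (M k) / L1 (s k)))
  positivity

lemma sum_bin_asymp {s M : ℕ → ℕ} {F : ℕ → Set ℕ} {q κ : ℝ} (hq : 0 < q) (hw : Win s M F q κ) (hκ : 0 < κ)
    (R : ℕ) (b b' : ℝ) :
    Tendsto (fun k => (∑ r ∈ Finset.range (R + 1), bin (q / (L1 (s k) + b')) (1 - q / (L1 (s k) + b))
      (cF (F k) (s k) (M k)) r) / wR s M F q R k) atTop (𝓝 (Real.exp (κ * (b - q / 2)))) := by
  have hL : Tendsto (fun k => L1 (s k)) atTop atTop := L1_top.comp hw.top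
  have h1 : Tendsto (fun k => ∑ r ∈ Finset.range (R + 1), bin (q / (L1 (s k) + b')) (1 - q / (L1 (s k) + b))
      (cF (F k) (s k) (M k)) r / wR s M F q R k) atTop
      (𝓝 (∑ r ∈ Finset.range (R + 1), if r = R then Real.exp (κ * (b - q / 2)) else 0)) := by
    apply tendsto_finset_sum
    intro r hr
    exact bin_asymp hL hq hκ hw.lim R r (by
      have := Finset.mem_range.1 hr
      omega)
  rw [Finset.sum_ite_eq' (Finset.range (R + 1)) R, if_pos (by simp)] at h1
  refine h1.congr fun k => ?_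
  rw [Finset.sum_div]

/-- the core estimate for windows with few chosen integers -/
theorem few_core (hA : ∀ n, MeasurableSet[ℱ n] (A n)) {K : ℝ} (hK0 : 0 ≤ K) {n₀ : ℕ} {q κ : ℝ} (hq : 0 < q)
    (hκ : 0 < κ) {D : ℕ → Ω → ℝ} (hD : ∀ n, StronglyMeasurable[ℱ n] (D n))
    (hK : ∀ᵐ ω ∂μ, ∀ n, n₀ ≤ n → |D (n + 1) ω - D n ω| ≤ K / n * |D n ω|)
    {P : Set ℕ} (hDd : ∀ᵐ ω ∂μ, ∀ n, n₀ ≤ n → n + 1 ∈ P → dens μ ℱ A n ω = q / D n ω)
    {s M : ℕ → ℕ} {F : ℕ → Set ℕ} (hF : ∀ k, F k ⊆ P) (hw : Win s M F q κ) (R : ℕ) (c : ℝ) {δ : ℝ} (hδ : 0 < δ) :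
    ∀ᵐ ω ∂μ, (∃ k₁, ∀ k, k₁ ≤ k → ω ∈ nearD D c δ k) →
      (¬ Summable (wR s M F q R) → ∀ ε : ℝ, 0 < ε → ∀ᶠ n : ℕ in atTop,
        Real.exp (κ * (c - 2 * δ - q / 2)) - ε <
          EC (fun k => few A (F k) (s k) (M k) R) n ω / ∑ k ∈ Finset.range n, wR s M F q R k ∧
        EC (fun k => few A (F k) (s k) (M k) R) n ω / ∑ k ∈ Finset.range n, wR s M F q R k <
          Real.exp (κ * (c + 2 * δ - q / 2)) + ε) ∧
      (Summable (wR s M F q R) → ∀ᶠ k in atTop, ω ∉ few A (F k) (s k) (M k) R) := by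
  classical
  obtain ⟨Rc, hR0, hR⟩ := hw.len
  have hLtop : Tendsto (fun k => L1 (s k)) atTop atTop := L1_top.comp hw.top
  have hurA := sum_bin_asymp hq hw hκ R (c + 2 * δ) (c - 2 * δ)
  have hlrA := sum_bin_asymp hq hw hκ R (c - 2 * δ) (c + 2 * δ)
  -- the upper bound is at most `1` eventually: replace it by the minimum with `1`
  obtain ⟨k₀, hk₀⟩ : ∃ k₀ : ℕ, ∀ k, k₀ ≤ k → n₀ ≤ s k ∧ 1 ≤ s k ∧ s k + M k ≤ s (k + 1) ∧
      (∀ i ≤ M k, ((1 + K / s k) ^ i - 1) * (L1 (s k) + c + δ) ≤ δ) ∧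
      1 ≤ L1 (s k) + c - 2 * δ ∧ q ≤ L1 (s k) + c - 2 * δ := by
    rw [← eventually_atTop]
    filter_upwards [hw.top.eventually_ge_atTop n₀, hw.top.eventually_ge_atTop 1, hw.dis,
      hw.top.eventually (window3 K c Rc hK0 hR0 hδ), hR,
      hLtop.eventually_ge_atTop (1 - c + 2 * δ), hLtop.eventually_ge_atTop (q - c + 2 * δ)] with k h1 h2 h3 h4 h5 h6 h7
    refine ⟨h1, h2, h3, fun i hi => h4 i (le_trans ?_ h5), by linarith, by linarith⟩
    exact_mod_cast hi
  set s' : ℕ → ℕ := fun k => if k₀ ≤ k then s k else 0 with hs'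
  set E : ℕ → Set Ω := fun k => few A (F k) (s k) (M k) R with hE
  set E' : ℕ → Set Ω := fun k => if k₀ ≤ k then E k else ∅ with hE'
  set B : ℕ → Set Ω := fun k => if k₀ ≤ k then nearD D c δ (s k) else ∅ with hB
  have hsmono : ∀ i j, k₀ ≤ i → i ≤ j → s i ≤ s j := by
    intro i j hi hij
    induction j, hij using Nat.le_induction with
    | base => exact le_rfl
    | succ j hj ih =>
      have := (hk₀ j (hi.trans hj)).2.2.1
      omega
  have hs'mono : ∀ i j, i ≤ j → s' i ≤ s' j := by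
    intro i j hij
    by_cases hi : k₀ ≤ i
    · simp only [hs', if_pos hi, if_pos (hi.trans hij)]
      exact hsmono i j hi hij
    · simp only [hs', if_neg hi]
      exact Nat.zero_le _
  have hs'e : ∀ k, k₀ ≤ k → s' k = s k := fun k h => by simp only [hs', if_pos h]
  have hBm : ∀ k, MeasurableSet[ℱ (s' k)] (B k) := by
    intro k
    by_cases h : k₀ ≤ k
    · have e2 : B k = nearD D c δ (s k) := by simp only [hB, if_pos h]
      rw [hs'e k h, e2]
      exact nearD_meas hD c δ (s k)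
    · have e2 : B k = ∅ := by simp only [hB, if_neg h]
      rw [e2]
      exact @MeasurableSet.empty _ (ℱ (s' k))
  have hE0 : ∀ i, MeasurableSet (E' i) := by
    intro i
    by_cases h : k₀ ≤ i
    · simp only [hE', if_pos h]
      exact ℱ.le _ _ (few_meas hA (F i) (s i) (M i) R)
    · simp only [hE', if_neg h]
      exact MeasurableSet.empty
  have hEj : ∀ i j, i < j → MeasurableSet[ℱ (s' j)] (E' i) := by
    intro i j hij
    by_cases h : k₀ ≤ i
    · have e2 : E' i = few A (F i) (s i) (M i) R := by simp only [hE', hE, if_pos h]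
      rw [hs'e j (h.trans hij.le), e2]
      refine ℱ.mono ?_ _ (few_meas hA (F i) (s i) (M i) R)
      have h1 := (hk₀ i h).2.2.1
      have h2 := hsmono (i + 1) j (by omega) (by omega)
      omega
    · have e2 : E' i = ∅ := by simp only [hE', if_neg h]
      rw [e2]
      exact @MeasurableSet.empty _ (ℱ (s' j))
  set l' : ℕ → ℝ := fun k => q / (L1 (s k) + (c + 2 * δ)) with hl'
  set u' : ℕ → ℝ := fun k => q / (L1 (s k) + (c - 2 * δ)) with hu'
  set U : ℕ → ℝ := fun k => ∑ r ∈ Finset.range (R + 1), bin (u' k) (1 - l' k) (cF (F k) (s k) (M k)) r with hU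
  set V : ℕ → ℝ := fun k => ∑ r ∈ Finset.range (R + 1), bin (l' k) (1 - u' k) (cF (F k) (s k) (M k)) r with hV
  set u : ℕ → ℝ := fun k => if k₀ ≤ k then min (U k) 1 else 0 with hu
  set l : ℕ → ℝ := fun k => if k₀ ≤ k then min (V k) 1 else 0 with hl
  have hb : ∀ k, k₀ ≤ k → 0 < l' k ∧ l' k ≤ u' k ∧ u' k ≤ 1 := by
    intro k hk
    obtain ⟨h1, h2, h3, h4, h5, h6⟩ := hk₀ k hk
    refine ⟨div_pos hq (by linarith), div_le_div_of_nonneg_left hq.le (by linarith) (by linarith), ?_⟩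
    simp only [hu']
    rw [div_le_one (by linarith)]
    linarith
  have hwin : ∀ k, k₀ ≤ k → ∀ n, s k ≤ n → n < s k + M k → n + 1 ∈ F k → ∀ᵐ ω ∂μ, ω ∈ nearD D c δ (s k) →
      l' k ≤ dens μ ℱ A n ω ∧ dens μ ℱ A n ω ≤ u' k := by
    intro k hk n hn1 hn2 hnF
    obtain ⟨h1, h2, h3, h4, h5, h6⟩ := hk₀ k hk
    filter_upwards [hK, hDd] with ω hKω hDω hnear
    obtain ⟨g1, g2⟩ := nearD_window hK0 (x := fun n => D n ω) hKω c h1 h2 h4 h5 hδ hnear n hn1 hn2.le
    rw [hDω n (h1.trans hn1) (hF k hnF)]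
    have g3 : 0 < D n ω := by linarith
    exact ⟨div_le_div_of_nonneg_left hq.le g3 g2, div_le_div_of_nonneg_left hq.le (by linarith) g1⟩
  have hU0 : ∀ k, k₀ ≤ k → 0 ≤ U k := fun k hk => by
    obtain ⟨h1, h2, h3⟩ := hb k hk
    exact Finset.sum_nonneg fun r _ => bin_nonneg (by linarith) (by linarith) _ _
  have hV0 : ∀ k, k₀ ≤ k → 0 ≤ V k := fun k hk => by
    obtain ⟨h1, h2, h3⟩ := hb k hk
    exact Finset.sum_nonneg fun r _ => bin_nonneg (by linarith) (by linarith) _ _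
  have hu0 : ∀ k, 0 ≤ u k := by
    intro k
    by_cases h : k₀ ≤ k
    · simp only [hu, if_pos h]
      exact le_min (hU0 k h) zero_le_one
    · simp only [hu, if_neg h]; exact le_rfl
  have hu1 : ∀ k, u k ≤ 1 := by
    intro k
    by_cases h : k₀ ≤ k
    · simp only [hu, if_pos h]; exact min_le_right _ _
    · simp only [hu, if_neg h]; exact zero_le_one
  have hl0 : ∀ k, 0 ≤ l k := by
    intro k
    by_cases h : k₀ ≤ k
    · simp only [hl, if_pos h]
      exact le_min (hV0 k h) zero_le_one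
    · simp only [hl, if_neg h]; exact le_rfl
  have hl1 : ∀ k, l k ≤ 1 := by
    intro k
    by_cases h : k₀ ≤ k
    · simp only [hl, if_pos h]; exact min_le_right _ _
    · simp only [hl, if_neg h]; exact zero_le_one
  have hup : ∀ k, ∀ C ⊆ B k, MeasurableSet[ℱ (s' k)] C → μ.real (C ∩ E' k) ≤ u k * μ.real C := by
    intro k C hC hCm
    by_cases h : k₀ ≤ k
    · obtain ⟨h1, h2, h3⟩ := hb k h
      simp only [hB, if_pos h] at hC
      rw [hs'e k h] at hCm
      simp only [hu, hE', hE, if_pos h]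
      have g1 := (few_bounds (μ := μ) hA h1.le h2 h3 (F k) (s k) (M k) R hCm (by
        intro n hn1 hn2 hn3
        filter_upwards [hwin k h n hn1 hn2 hn3] with ω hω hωC
        exact hω (hC hωC))).2
      have g2 : μ.real (C ∩ few A (F k) (s k) (M k) R) ≤ 1 * μ.real C := by
        rw [one_mul]; exact measureReal_mono inter_subset_left
      rcases min_choice (U k) 1 with g3 | g3
      · rw [g3]; exact g1
      · rw [g3]; exact g2
    · simp only [hB, if_neg h] at hC
      have : C = ∅ := subset_empty_iff.1 hC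
      rw [this]
      simp
  have hlow : ∀ k, ∀ C ⊆ B k, MeasurableSet[ℱ (s' k)] C → l k * μ.real C ≤ μ.real (C ∩ E' k) := by
    intro k C hC hCm
    by_cases h : k₀ ≤ k
    · obtain ⟨h1, h2, h3⟩ := hb k h
      simp only [hB, if_pos h] at hC
      rw [hs'e k h] at hCm
      simp only [hl, hE', hE, if_pos h]
      have g1 := (few_bounds (μ := μ) hA h1.le h2 h3 (F k) (s k) (M k) R hCm (by
        intro n hn1 hn2 hn3
        filter_upwards [hwin k h n hn1 hn2 hn3] with ω hω hωC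
        exact hω (hC hωC))).1
      exact (mul_le_mul_of_nonneg_right (min_le_left _ _) measureReal_nonneg).trans g1
    · simp only [hB, if_neg h] at hC
      have : C = ∅ := subset_empty_iff.1 hC
      rw [this]
      simp
  have hw0 : Tendsto (wR s M F q R) atTop (𝓝 0) := by
    have h1 : Tendsto (fun x : ℝ => x ^ R / R.factorial * Real.exp (-x)) atTop (𝓝 0) := by
      have h2 := (Real.tendsto_pow_mul_exp_neg_atTop_nhds_zero R).div_const (R.factorial : ℝ)
      rw [zero_div] at h2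
      refine h2.congr fun x => ?_
      ring
    exact h1.comp (z_top hw hκ)
  have hmin : ∀ {X : ℕ → ℝ} {t : ℝ}, Tendsto (fun k => X k / wR s M F q R k) atTop (𝓝 t) →
      ∀ᶠ k in atTop, min (X k) 1 = X k := by
    intro X t hX
    have h1 := hX.mul hw0
    rw [mul_zero] at h1
    filter_upwards [h1.eventually (eventually_lt_nhds (show (0 : ℝ) < 1 by norm_num)), wR_pos hw hκ R] with k g1 g2
    rw [div_mul_cancel₀ _ g2.ne'] at g1
    exact min_eq_left g1.le
  have hur : Tendsto (fun k => u k / wR s M F q R k) atTop (𝓝 (Real.exp (κ * (c + 2 * δ - q / 2)))) := by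
    refine hurA.congr' ?_
    filter_upwards [eventually_ge_atTop k₀, hmin hurA] with k hk hk2
    simp only [hu, if_pos hk, hU, hl', hu']
    rw [hk2]
  have hlr : Tendsto (fun k => l k / wR s M F q R k) atTop (𝓝 (Real.exp (κ * (c - 2 * δ - q / 2)))) := by
    refine hlrA.congr' ?_
    filter_upwards [eventually_ge_atTop k₀, hmin hlrA] with k hk hk2
    simp only [hl, if_pos hk, hV, hl', hu']
    rw [hk2]
  have hnearB : ∀ ω, (∃ k₁, ∀ k, k₁ ≤ k → ω ∈ nearD D c δ k) → ∃ k₁, ∀ k, k₁ ≤ k → ω ∈ B k := by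
    rintro ω ⟨k₁, hk₁⟩
    rw [← eventually_atTop]
    filter_upwards [hw.top.eventually_ge_atTop k₁, eventually_ge_atTop k₀] with k h1 h2
    simp only [hB, if_pos h2]
    exact hk₁ _ h1
  have hEE : ∀ n ω, EC E' n ω ≤ EC E n ω ∧ EC E n ω ≤ EC E' n ω + k₀ := by
    intro n ω
    induction n with
    | zero => simp [EC]
    | succ n ih =>
      unfold EC at ih ⊢
      rw [Finset.sum_range_succ, Finset.sum_range_succ]
      by_cases hn : k₀ ≤ n
      · have h1 : E' n = E n := by simp only [hE', if_pos hn]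
        rw [h1]
        constructor <;> linarith [ih.1, ih.2]
      · have h1 : E' n = ∅ := by simp only [hE', if_neg hn]
        have h2 := ind01 (E n) ω
        have h3 : ∑ k ∈ Finset.range n, (E k).indicator (fun _ => (1 : ℝ)) ω ≤ n := by
          calc ∑ k ∈ Finset.range n, (E k).indicator (fun _ => (1 : ℝ)) ω ≤ ∑ k ∈ Finset.range n, (1 : ℝ) :=
                Finset.sum_le_sum fun k _ => (ind01 _ ω).2.1
            _ = n := by simp
        have h4 : (0 : ℝ) ≤ ∑ k ∈ Finset.range n, (E' k).indicator (fun _ => (1 : ℝ)) ω :=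
          Finset.sum_nonneg fun k _ => (ind01 _ ω).1
        have h5 : ((n : ℝ) + 1) ≤ k₀ := by exact_mod_cast (by omega : n + 1 ≤ k₀)
        rw [h1, indicator_empty]
        constructor <;> linarith [ih.1, ih.2, h2.1, h2.2.1]
  by_cases hsum : Summable (wR s M F q R)
  · have h1 := seq_conv (μ := μ) E' B (fun k => ℱ (s' k)) hBm hu0 hup (wR_pos hw hκ R) hur hsum
    filter_upwards [h1] with ω h1 hnear
    refine ⟨fun h => absurd hsum h, fun _ => ?_⟩
    filter_upwards [h1 (hnearB ω hnear), eventually_ge_atTop k₀] with k h2 h3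
    simpa only [hE', if_pos h3] using h2
  · have hW : Tendsto (fun n => ∑ k ∈ Finset.range n, wR s M F q R k) atTop atTop :=
      (not_summable_iff_tendsto_nat_atTop_of_nonneg fun k => wR_nonneg s M F hq R k).1 hsum
    have h1 := seq_law (μ := μ) (fun k => ℱ (s' k)) (fun k => ℱ.le _) E' hE0 hEj
      (fun i j hij => ℱ.mono (hs'mono i j hij)) B hBm hu0 hu1 hl0 hl1 hup hlow
      (fun k => wR_nonneg s M F hq R k) (wR_pos hw hκ R) (Real.exp_pos _) hur hlr hW
    filter_upwards [h1] with ω h1 hnear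
    refine ⟨fun _ ε hε => ?_, fun h => absurd h hsum⟩
    have h2 := h1 (hnearB ω hnear) (ε / 2) (by linarith)
    have h3 : Tendsto (fun n : ℕ => (k₀ : ℝ) / ∑ k ∈ Finset.range n, wR s M F q R k) atTop (𝓝 0) :=
      tendsto_const_nhds.div_atTop hW
    filter_upwards [h2, h3.eventually (eventually_lt_nhds (show (0 : ℝ) < ε / 2 by linarith)),
      hW.eventually_gt_atTop 0] with n g1 g2 g3
    obtain ⟨e1, e2⟩ := hEE n ω
    constructor
    · refine lt_of_lt_of_le ?_ (div_le_div_of_nonneg_right e1 g3.le)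
      linarith [g1.1]
    · refine lt_of_le_of_lt (div_le_div_of_nonneg_right e2 g3.le) ?_
      rw [add_div]
      linarith [g1.2]

/-- **the law for windows with few chosen integers** -/
theorem few_law (hA : ∀ n, MeasurableSet[ℱ n] (A n)) {K : ℝ} (hK0 : 0 ≤ K) {n₀ : ℕ} {q κ : ℝ} (hq : 0 < q)
    (hκ : 0 < κ) {D : ℕ → Ω → ℝ} (hD : ∀ n, StronglyMeasurable[ℱ n] (D n))
    (hK : ∀ᵐ ω ∂μ, ∀ n, n₀ ≤ n → |D (n + 1) ω - D n ω| ≤ K / n * |D n ω|)
    {P : Set ℕ} (hDd : ∀ᵐ ω ∂μ, ∀ n, n₀ ≤ n → n + 1 ∈ P → dens μ ℱ A n ω = q / D n ω)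
    {s M : ℕ → ℕ} {F : ℕ → Set ℕ} (hF : ∀ k, F k ⊆ P) (hw : Win s M F q κ) (R : ℕ) :
    ∀ᵐ ω ∂μ, ∀ C : ℝ, Tendsto (fun n : ℕ => D n ω - Real.log n) atTop (𝓝 C) →
      (¬ Summable (wR s M F q R) → Tendsto (fun n : ℕ => EC (fun k => few A (F k) (s k) (M k) R) n ω /
        ∑ k ∈ Finset.range n, wR s M F q R k) atTop (𝓝 (Real.exp (κ * (C - q / 2))))) ∧
      (Summable (wR s M F q R) → ∀ᶠ k in atTop, ω ∉ few A (F k) (s k) (M k) R) := by
  have h1 := ae_all_iff.2 fun m : ℕ => ae_all_iff.2 fun c : ℚ =>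
    few_core (μ := μ) (ℱ := ℱ) (A := A) hA hK0 hq hκ hD hK hDd hF hw R (c : ℝ) (δ := 1 / ((m : ℝ) + 1)) (by positivity)
  filter_upwards [h1] with ω h1 C hC
  have hcm : ∀ m : ℕ, ∃ c : ℚ, C < c ∧ (c : ℝ) < C + 1 / ((m : ℝ) + 1) ∧
      ∃ k₁, ∀ k, k₁ ≤ k → ω ∈ nearD D c (1 / ((m : ℝ) + 1)) k := by
    intro m
    have hm : 0 < 1 / ((m : ℝ) + 1) := by positivity
    obtain ⟨c, hc1, hc2⟩ := exists_rat_btwn (show C < C + 1 / ((m : ℝ) + 1) by linarith)
    refine ⟨c, hc1, hc2, nearD_all hC ?_⟩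
    rw [abs_lt]
    constructor <;> linarith
  refine ⟨fun hs => ?_, fun hs => ?_⟩
  · have hcont : Tendsto (fun x : ℝ => Real.exp (κ * (C + x - q / 2))) (𝓝 0) (𝓝 (Real.exp (κ * (C - q / 2)))) := by
      have h3 : Continuous (fun x : ℝ => Real.exp (κ * (C + x - q / 2))) := by fun_prop
      have := h3.tendsto 0
      simpa using this
    have hseq : Tendsto (fun m : ℕ => 3 * (1 / ((m : ℝ) + 1))) atTop (𝓝 0) := by
      have := (tendsto_one_div_add_atTop_nhds_zero_nat (𝕜 := ℝ)).const_mul 3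
      simpa using this
    have hkey : ∀ m : ℕ, ∀ ε : ℝ, 0 < ε → ∀ᶠ n : ℕ in atTop,
        Real.exp (κ * (C + -(3 * (1 / ((m : ℝ) + 1))) - q / 2)) - ε <
          EC (fun k => few A (F k) (s k) (M k) R) n ω / ∑ k ∈ Finset.range n, wR s M F q R k ∧
        EC (fun k => few A (F k) (s k) (M k) R) n ω / ∑ k ∈ Finset.range n, wR s M F q R k <
          Real.exp (κ * (C + 3 * (1 / ((m : ℝ) + 1)) - q / 2)) + ε := by
      intro m ε hε
      obtain ⟨c, hc1, hc2, h3⟩ := hcm m
      filter_upwards [(h1 m c h3).1 hs ε hε] with n hn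
      have g1 : Real.exp (κ * (C + -(3 * (1 / ((m : ℝ) + 1))) - q / 2)) ≤
          Real.exp (κ * (c - 2 * (1 / ((m : ℝ) + 1)) - q / 2)) :=
        Real.exp_le_exp.2 (mul_le_mul_of_nonneg_left (by
          have hm : 0 < 1 / ((m : ℝ) + 1) := by positivity
          linarith) hκ.le)
      have g2 : Real.exp (κ * (c + 2 * (1 / ((m : ℝ) + 1)) - q / 2)) ≤
          Real.exp (κ * (C + 3 * (1 / ((m : ℝ) + 1)) - q / 2)) :=
        Real.exp_le_exp.2 (mul_le_mul_of_nonneg_left (by linarith) hκ.le)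
      constructor <;> linarith [hn.1, hn.2]
    have hup := (hcont.comp hseq)
    have hlow := hcont.comp (by simpa using hseq.neg : Tendsto (fun m : ℕ => -(3 * (1 / ((m : ℝ) + 1)))) atTop (𝓝 0))
    rw [tendsto_order]
    constructor
    · intro a ha
      obtain ⟨m, hm⟩ := (hlow.eventually (eventually_gt_nhds ha)).exists
      simp only [Function.comp] at hm
      filter_upwards [hkey m (Real.exp (κ * (C + -(3 * (1 / ((m : ℝ) + 1))) - q / 2)) - a) (by linarith)] with n hn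
      linarith [hn.1]
    · intro a ha
      obtain ⟨m, hm⟩ := (hup.eventually (eventually_lt_nhds ha)).exists
      simp only [Function.comp] at hm
      filter_upwards [hkey m (a - Real.exp (κ * (C + (3 * (1 / ((m : ℝ) + 1))) - q / 2))) (by linarith)] with n hn
      linarith [hn.2]
  · obtain ⟨c, hc1, hc2, h3⟩ := hcm 0
    exact (h1 0 c h3).2 hs

end Pool.Agent.R320.IT
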