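import Mathlib
import Pool.Agent.R320.IT.Apply

set_option autoImplicit false
set_option linter.unusedSectionVars false

/-! # Two-sided windows around the squares: integral test and exact count -/

open MeasureTheory Filter Set
open scoped ENNReal Topology

namespace Pool.Agent.R320.IT

open Pool.Agent.R528.RM

/-- all elements of `S` below `x ^ 2` are at distance at least `a`, all elements above `x ^ 2` are at
distance at least `b` -/
def Far (S : Set ℕ) (x : ℕ) (a b : ℝ) : Prop :=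
  (∀ m ∈ S, m < x ^ 2 → a ≤ (x : ℝ) ^ 2 - m) ∧ (∀ m ∈ S, x ^ 2 < m → b ≤ (m : ℝ) - (x : ℝ) ^ 2)

/-- the start of the window -/
noncomputable def sa (a : ℕ → ℝ) (x : ℕ) : ℕ := x ^ 2 - ⌈a x⌉₊

/-- the length of the window -/
noncomputable def Mab (a b : ℕ → ℝ) (x : ℕ) : ℕ := ⌈a x⌉₊ + (⌈b x⌉₊ - 1)

variable {Ω : Type} {m0 : MeasurableSpace Ω} {μ : Measure Ω} [IsProbabilityMeasure μ]
  {ℱ : Filtration ℕ m0} {A : ℕ → Set Ω}

lemma ceil_le_sq {a : ℕ → ℝ} (ha : ∀ x : ℕ, a x ≤ (x : ℝ) ^ 2) (x : ℕ) : ⌈a x⌉₊ ≤ x ^ 2 := by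
  rw [Nat.ceil_le]
  push_cast
  exact ha x

lemma far_iff {Q : ℕ} (hcop : ∀ n, ¬ Nat.Coprime n Q → A n = ∅) {a b : ℕ → ℝ}
    (ha : ∀ x : ℕ, a x ≤ (x : ℝ) ^ 2) (x : ℕ) (ω : Ω) :
    ω ∈ void A (cop Q \ {x ^ 2}) (sa a x) (Mab a b x) ↔ Far {k | ω ∈ A k} x (a x) (b x) := by
  have h1 := ceil_le_sq ha x
  simp only [void, Far, mem_ofPred_eq, sa, Mab]
  have hmemQ : ∀ m, ω ∈ A m → m ∈ cop Q := by
    intro m hm
    by_contra hc
    rw [hcop m hc] at hm
    exact hm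
  constructor
  · intro h
    constructor
    · intro m hm hmx
      by_contra hcon
      push Not at hcon
      have h2 : ((x ^ 2 - m : ℕ) : ℝ) < a x := by
        rw [Nat.cast_sub hmx.le]
        push_cast
        exact hcon
      have h3 : x ^ 2 - m < ⌈a x⌉₊ := Nat.lt_ceil.2 h2
      exact h m (by omega) (by omega) ⟨hmemQ m hm, by simp only [mem_singleton_iff]; omega⟩ hm
    · intro m hm hmx
      by_contra hcon
      push Not at hcon
      have h2 : ((m - x ^ 2 : ℕ) : ℝ) < b x := by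
        rw [Nat.cast_sub hmx.le]
        push_cast
        exact hcon
      have h3 : m - x ^ 2 < ⌈b x⌉₊ := Nat.lt_ceil.2 h2
      exact h m (by omega) (by omega) ⟨hmemQ m hm, by simp only [mem_singleton_iff]; omega⟩ hm
  · rintro ⟨h2, h3⟩ m hm1 hm2 hmF hm
    have hne : m ≠ x ^ 2 := fun h => hmF.2 (by rw [h]; exact mem_singleton _)
    rcases Nat.lt_or_gt_of_ne hne with h4 | h4
    · have h5 := h2 m hm h4
      have h6 : ⌈a x⌉₊ ≤ x ^ 2 - m := by
        rw [Nat.ceil_le, Nat.cast_sub h4.le]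
        push_cast
        exact h5
      omega
    · have h5 := h3 m hm h4
      have h6 : ⌈b x⌉₊ ≤ m - x ^ 2 := by
        rw [Nat.ceil_le, Nat.cast_sub h4.le]
        push_cast
        exact h5
      omega

/-- **the integral test around the squares** -/
theorem squares (hA : ∀ n, MeasurableSet[ℱ n] (A n)) {K : ℝ} {n₀ : ℕ} {Q : ℕ} (hQ : 0 < Q)
    (hcop : ∀ n, ¬ Nat.Coprime n Q → A n = ∅)
    {D : ℕ → Ω → ℝ} (hD : ∀ n, StronglyMeasurable[ℱ n] (D n))
    (hK : ∀ᵐ ω ∂μ, ∀ n, n₀ ≤ n → |D (n + 1) ω - D n ω| ≤ K / n * |D n ω|)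
    (hDd : ∀ᵐ ω ∂μ, ∀ n, n₀ ≤ n → Nat.Coprime (n + 1) Q → dens μ ℱ A n ω = (Q : ℝ) / Nat.totient Q / D n ω)
    {a b : ℕ → ℝ} (ha0 : ∀ x, 0 ≤ a x) (hb0 : ∀ x, 0 ≤ b x) (ha : ∀ x : ℕ, a x ≤ (x : ℝ) ^ 2) {lam : ℝ}
    (hlam : Tendsto (fun x : ℕ => (a x + b x) / Real.log x ^ 2) atTop (𝓝 lam)) :
    ∀ᵐ ω ∂μ, ∀ C : ℝ, Tendsto (fun n : ℕ => D n ω - Real.log n) atTop (𝓝 C) →
      (¬ Summable (fun x : ℕ => Real.exp (-((a x + b x) / (2 * Real.log x)))) →
        Tendsto (fun X : ℕ => (Set.ncard {x : ℕ | x ≤ X ∧ Far {k | ω ∈ A k} x (a x) (b x)} : ℝ) /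
          ∑ x ∈ Finset.range (X + 1), Real.exp (-((a x + b x) / (2 * Real.log x)))) atTop
          (𝓝 (Real.exp (lam / 4 * (C - (Q : ℝ) / Nat.totient Q / 2))))) ∧
      (Summable (fun x : ℕ => Real.exp (-((a x + b x) / (2 * Real.log x)))) →
        ∀ᶠ x : ℕ in atTop, ¬ Far {k | ω ∈ A k} x (a x) (b x)) := by
  have hlam0 : 0 ≤ lam := ge_of_tendsto' hlam fun x => div_nonneg (add_nonneg (ha0 x) (hb0 x)) (sq_nonneg _)
  have hlx : Tendsto (fun x : ℕ => Real.log x ^ 2 / (x : ℝ)) atTop (𝓝 0) := by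
    have h1 : Tendsto (fun x : ℝ => Real.log x ^ 2 / x) atTop (𝓝 0) :=
      (Real.isLittleO_pow_log_id_atTop (n := 2)).tendsto_div_nhds_zero
    exact h1.comp tendsto_natCast_atTop_atTop
  have hTx : Tendsto (fun x : ℕ => (a x + b x) / (x : ℝ)) atTop (𝓝 0) := by
    have h1 := hlam.mul hlx
    rw [mul_zero] at h1
    refine h1.congr' ?_
    filter_upwards [tendsto_log.eventually_gt_atTop 0, eventually_gt_atTop 0] with x hx hx0
    have hx' : (0 : ℝ) < x := by exact_mod_cast hx0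
    field_simp
  have hsmall : ∀ᶠ x : ℕ in atTop, 4 * ⌈a x⌉₊ ≤ x ∧ 4 * ⌈b x⌉₊ ≤ x ∧ 16 ≤ x := by
    filter_upwards [hTx.eventually (eventually_lt_nhds (show (0 : ℝ) < 1 / 8 by norm_num)),
      eventually_ge_atTop 16] with x h1 h2
    have hx : (16 : ℝ) ≤ x := by exact_mod_cast h2
    rw [div_lt_iff₀ (by linarith)] at h1
    have h3 := (Nat.ceil_lt_add_one (ha0 x)).le
    have h4 := (Nat.ceil_lt_add_one (hb0 x)).le
    have := ha0 x
    have := hb0 x
    refine ⟨?_, ?_, h2⟩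
    · have : ((4 * ⌈a x⌉₊ : ℕ) : ℝ) ≤ x := by push_cast; linarith
      exact_mod_cast this
    · have : ((4 * ⌈b x⌉₊ : ℕ) : ℝ) ≤ x := by push_cast; linarith
      exact_mod_cast this
  have hs : Tendsto (sa a) atTop atTop := by
    refine tendsto_atTop_mono' _ ?_ tendsto_id
    filter_upwards [hsmall] with x ⟨h1, h2, h3⟩
    unfold sa
    simp only [id]
    have : x * 16 ≤ x ^ 2 := by nlinarith
    omega
  have hdis : ∀ᶠ x : ℕ in atTop, sa a x + Mab a b x ≤ sa a (x + 1) := by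
    filter_upwards [hsmall, (tendsto_add_atTop_nat 1).eventually hsmall] with x ⟨h1, h2, h3⟩ ⟨h4, h5, h6⟩
    unfold sa Mab
    have h7 := ceil_le_sq ha x
    have h8 := ceil_le_sq ha (x + 1)
    have h9 : (x + 1) ^ 2 = x ^ 2 + 2 * x + 1 := by ring
    omega
  have hMT : ∀ᶠ x : ℕ in atTop, |((Mab a b x : ℕ) : ℝ) - (a x + b x)| ≤ 2 := by
    filter_upwards with x
    have h1 := Nat.le_ceil (a x)
    have h2 := (Nat.ceil_lt_add_one (ha0 x)).le
    have h3 := Nat.le_ceil (b x)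
    have h4 := (Nat.ceil_lt_add_one (hb0 x)).le
    have h5 : ((⌈b x⌉₊ - 1 : ℕ) : ℝ) ≤ ⌈b x⌉₊ ∧ (⌈b x⌉₊ : ℝ) - 1 ≤ ((⌈b x⌉₊ - 1 : ℕ) : ℝ) := by
      constructor
      · exact_mod_cast Nat.sub_le _ _
      · have : (⌈b x⌉₊ : ℝ) ≤ ((⌈b x⌉₊ - 1 : ℕ) : ℝ) + 1 := by exact_mod_cast (by omega : ⌈b x⌉₊ ≤ ⌈b x⌉₊ - 1 + 1)
        linarith
    unfold Mab
    push_cast
    rw [abs_le]
    constructor <;> linarith [h5.1, h5.2]
  -- the logarithm at the start
  have hL : Tendsto (fun x : ℕ => L1 (sa a x) - 2 * Real.log x) atTop (𝓝 0) := by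
    have hax : Tendsto (fun x : ℕ => ((⌈a x⌉₊ : ℝ) - 1) / (x : ℝ) ^ 2) atTop (𝓝 0) := by
      have h1 : Tendsto (fun x : ℕ => 1 / (x : ℝ)) atTop (𝓝 0) := tendsto_one_div_atTop_nhds_zero_nat
      refine squeeze_zero_norm' ?_ h1
      filter_upwards [hsmall] with x ⟨h1, h2, h3⟩
      have hx : (16 : ℝ) ≤ x := by exact_mod_cast h3
      have h4 : (4 : ℝ) * ⌈a x⌉₊ ≤ x := by exact_mod_cast h1
      have h5 : (0 : ℝ) ≤ ⌈a x⌉₊ := Nat.cast_nonneg _
      rw [norm_div, norm_pow, Real.norm_of_nonneg (show (0 : ℝ) ≤ x by linarith), div_le_div_iff₀ (by positivity) (by linarith),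
        one_mul, sq]
      apply mul_le_mul_of_nonneg_right _ (by linarith)
      rw [Real.norm_eq_abs, abs_le]
      constructor <;> linarith
    have h2 : Tendsto (fun x : ℕ => Real.log (1 - ((⌈a x⌉₊ : ℝ) - 1) / (x : ℝ) ^ 2)) atTop (𝓝 (Real.log (1 - 0))) := by
      apply Tendsto.log
      · exact tendsto_const_nhds.sub hax
      · norm_num
    rw [sub_zero, Real.log_one] at h2
    refine h2.congr' ?_
    filter_upwards [hsmall] with x ⟨h1, h3, h4⟩
    have hx : (16 : ℝ) ≤ x := by exact_mod_cast h4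
    have h5 : (4 : ℝ) * ⌈a x⌉₊ ≤ x := by exact_mod_cast h1
    have h6 : ((sa a x : ℕ) : ℝ) = (x : ℝ) ^ 2 - ⌈a x⌉₊ := by
      unfold sa
      rw [Nat.cast_sub (ceil_le_sq ha x)]
      push_cast
      ring
    unfold L1
    rw [h6]
    have h7 : (0 : ℝ) < (x : ℝ) ^ 2 - ⌈a x⌉₊ + 1 := by nlinarith
    have h8 : (2 : ℝ) * Real.log x = Real.log ((x : ℝ) ^ 2) := by rw [Real.log_pow]; norm_num
    rw [h8, ← Real.log_div h7.ne' (by positivity)]
    congr 1
    field_simp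
    ring
  have hLtop : Tendsto (fun x => L1 (sa a x)) atTop atTop := L1_top.comp hs
  have hr : Tendsto (fun x : ℕ => L1 (sa a x) / Real.log x) atTop (𝓝 2) := by
    have h1 := (hL.div_atTop tendsto_log).add_const 2
    rw [zero_add] at h1
    refine h1.congr' ?_
    filter_upwards [tendsto_log.eventually_gt_atTop 0] with x hx
    field_simp
    ring
  have hr' : Tendsto (fun x : ℕ => Real.log x / L1 (sa a x)) atTop (𝓝 (1 / 2)) := by
    have := hr.inv₀ (by norm_num)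
    rw [← one_div] at this
    exact this.congr fun x => by rw [inv_div]
  have hT : Tendsto (fun x : ℕ => (a x + b x) / L1 (sa a x) ^ 2) atTop (𝓝 (lam / 4)) := by
    have h1 := hlam.mul (hr'.pow 2)
    have e : lam * (1 / 2) ^ 2 = lam / 4 := by ring
    rw [e] at h1
    refine h1.congr' ?_
    filter_upwards [tendsto_log.eventually_gt_atTop 0, hLtop.eventually_gt_atTop 0] with x hx hx2
    field_simp
  have hTL : Tendsto (fun x : ℕ => (a x + b x) / L1 (sa a x) - (a x + b x) / (2 * Real.log x)) atTop (𝓝 0) := by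
    have h1 := ((hlam.mul hr').mul hL).const_mul (-(1 / 2) : ℝ)
    rw [mul_zero, mul_zero] at h1
    refine h1.congr' ?_
    filter_upwards [tendsto_log.eventually_gt_atTop 0, hLtop.eventually_gt_atTop 0] with x hx hx2
    field_simp
    ring
  filter_upwards [win_final (μ := μ) (ℱ := ℱ) (A := A) hA hQ hD hK hDd (s := sa a)
    (M := Mab a b) (e := fun x => x ^ 2) hs hdis zero_le_two hMT hT (by positivity) hTL] with ω hω C hC
  obtain ⟨h1, h2⟩ := hω C hC
  simp only [far_iff hcop ha] at h1 h2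
  exact ⟨h1, h2⟩

end Pool.Agent.R320.IT
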