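import Mathlib
import Pool.Agent.R320.IT.Sq
import Pool.Agent.R320.IT.FewLaw

set_option autoImplicit false
set_option linter.unusedSectionVars false

/-! # Windows around the squares with few chosen integers: integral test and exact count -/

open MeasureTheory Filter Set
open scoped ENNReal Topology

namespace Pool.Agent.R320.IT

open Pool.Agent.R528.RM

variable {Ω : Type} {m0 : MeasurableSpace Ω} {μ : Measure Ω} [IsProbabilityMeasure μ]
  {ℱ : Filtration ℕ m0} {A : ℕ → Set Ω}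

/-- **windows with few chosen integers, convenient weights** -/
theorem few_final (hA : ∀ n, MeasurableSet[ℱ n] (A n)) {K : ℝ} {n₀ : ℕ} {Q : ℕ} (hQ : 0 < Q)
    {D : ℕ → Ω → ℝ} (hD : ∀ n, StronglyMeasurable[ℱ n] (D n))
    (hK : ∀ᵐ ω ∂μ, ∀ n, n₀ ≤ n → |D (n + 1) ω - D n ω| ≤ K / n * |D n ω|)
    (hDd : ∀ᵐ ω ∂μ, ∀ n, n₀ ≤ n → Nat.Coprime (n + 1) Q → dens μ ℱ A n ω = (Q : ℝ) / Nat.totient Q / D n ω)
    {s M : ℕ → ℕ} {T Lg : ℕ → ℝ} {κ : ℝ} (hs : Tendsto s atTop atTop)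
    (hdis : ∀ᶠ k in atTop, s k + M k ≤ s (k + 1)) {Rc : ℝ} (hRc : 0 ≤ Rc)
    (hMT : ∀ᶠ k in atTop, |(M k : ℝ) - T k| ≤ Rc)
    (hT : Tendsto (fun k => T k / L1 (s k) ^ 2) atTop (𝓝 κ)) (hκ : 0 < κ)
    (hTL : Tendsto (fun k => T k / L1 (s k) - T k / Lg k) atTop (𝓝 0))
    (hy0 : ∀ k, 0 ≤ T k / Lg k) (R : ℕ) :
    ∀ᵐ ω ∂μ, ∀ C : ℝ, Tendsto (fun n : ℕ => D n ω - Real.log n) atTop (𝓝 C) →
      (¬ Summable (fun k => (T k / Lg k) ^ R / R.factorial * Real.exp (-(T k / Lg k))) →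
        Tendsto (fun X : ℕ => (Set.ncard {x : ℕ | x ≤ X ∧ ω ∈ few A (cop Q) (s x) (M x) R} : ℝ) /
          ∑ k ∈ Finset.range (X + 1), (T k / Lg k) ^ R / R.factorial * Real.exp (-(T k / Lg k))) atTop
          (𝓝 (Real.exp (κ * (C - (Q : ℝ) / Nat.totient Q / 2))))) ∧
      (Summable (fun k => (T k / Lg k) ^ R / R.factorial * Real.exp (-(T k / Lg k))) →
        ∀ᶠ k in atTop, ω ∉ few A (cop Q) (s k) (M k) R) := by
  have hφ : (0 : ℝ) < Nat.totient Q := by exact_mod_cast Nat.totient_pos.2 hQ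
  have hQ' : (0 : ℝ) < Q := by exact_mod_cast hQ
  have hq : (0 : ℝ) < (Q : ℝ) / Nat.totient Q := by positivity
  obtain ⟨q, hqd⟩ : ∃ q, q = (Q : ℝ) / Nat.totient Q := ⟨_, rfl⟩
  rw [← hqd] at hq
  simp only [← hqd] at hDd ⊢
  set F : ℕ → Set ℕ := fun _ => cop Q with hF
  have hLtop : Tendsto (fun k => L1 (s k)) atTop atTop := L1_top.comp hs
  have hdiff : ∀ᶠ k in atTop, |q * cF (F k) (s k) (M k) - T k| ≤ Q + Rc := by
    filter_upwards [hMT] with k hk
    have h1 := abs_le.1 (cF_cop hQ (s k) (M k))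
    rw [← hqd] at h1
    have h2 := abs_le.1 hk
    rw [abs_le]
    constructor <;> linarith
  have hd1 : Tendsto (fun k => q * cF (F k) (s k) (M k) / L1 (s k) - T k / L1 (s k)) atTop (𝓝 0) := by
    have h0 : Tendsto (fun k => (Q + Rc) / L1 (s k)) atTop (𝓝 0) := tendsto_const_nhds.div_atTop hLtop
    refine squeeze_zero_norm' ?_ h0
    filter_upwards [hdiff, hLtop.eventually_gt_atTop 0] with k h1 h2
    rw [← sub_div, norm_div, Real.norm_eq_abs, Real.norm_eq_abs, abs_of_pos h2]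
    exact div_le_div_of_nonneg_right h1 h2.le
  have hlim : Tendsto (fun k => q * cF (F k) (s k) (M k) / L1 (s k) ^ 2) atTop (𝓝 κ) := by
    have h0 : Tendsto (fun k => (L1 (s k))⁻¹) atTop (𝓝 0) := hLtop.inv_tendsto_atTop
    have h1 := (hd1.mul h0).add hT
    rw [mul_zero, zero_add] at h1
    refine h1.congr' ?_
    filter_upwards [hLtop.eventually_gt_atTop 0] with k hk
    field_simp
    ring
  have hwin : Win s M F q κ := by
    refine ⟨hs, hdis, ⟨κ + 1 + Rc, by positivity, ?_⟩, hlim⟩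
    filter_upwards [hT.eventually (eventually_le_nhds (show κ < κ + 1 by linarith)), hMT,
      hLtop.eventually_ge_atTop 1] with k h1 h2 h3
    have h4 : 1 ≤ L1 (s k) ^ 2 := one_le_pow₀ h3
    rw [div_le_iff₀ (by positivity)] at h1
    have h5 := abs_le.1 h2
    nlinarith
  have hlaw := few_law (μ := μ) (ℱ := ℱ) (A := A) (F := F) hA (K := |K|) (abs_nonneg K) (n₀ := n₀) hq hκ hD (by
    filter_upwards [hK] with ω hω n hn
    refine (hω n hn).trans ?_
    apply mul_le_mul_of_nonneg_right _ (abs_nonneg _)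
    exact div_le_div_of_nonneg_right (le_abs_self K) (Nat.cast_nonneg n))
    (P := cop Q) (by
      filter_upwards [hDd] with ω hω n hn hc
      exact hω n hn hc) (fun k => le_rfl) hwin R
  -- comparison of the weights
  have hfac : (0 : ℝ) < R.factorial := by positivity
  set v : ℕ → ℝ := fun k => (T k / Lg k) ^ R / R.factorial * Real.exp (-(T k / Lg k)) with hv
  have hz := z_top hwin hκ
  have hzy : Tendsto (fun k => q * cF (F k) (s k) (M k) / L1 (s k) - T k / Lg k) atTop (𝓝 0) := by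
    have h1 := hd1.add hTL
    rw [add_zero] at h1
    refine h1.congr fun k => ?_
    ring
  have hy : Tendsto (fun k => T k / Lg k) atTop atTop := by
    have h1 := hz.atTop_add hzy.neg
    refine h1.congr fun k => ?_
    ring
  have hv0 : ∀ k, 0 ≤ v k := fun k => by
    simp only [hv]
    have := hy0 k
    positivity
  have hvp : ∀ᶠ k in atTop, 0 < v k := by
    filter_upwards [hy.eventually_gt_atTop 0] with k hk
    simp only [hv]
    positivity
  have hrat : Tendsto (fun k => (T k / Lg k) / (q * cF (F k) (s k) (M k) / L1 (s k))) atTop (𝓝 1) := by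
    have h1 := (hzy.div_atTop hz).const_sub 1
    rw [sub_zero] at h1
    refine h1.congr' ?_
    filter_upwards [hz.eventually_gt_atTop 0] with k hk
    rw [sub_div, div_self hk.ne']
    ring
  have hwp := wR_pos hwin hκ R
  have hr : Tendsto (fun k => v k / wR s M F q R k) atTop (𝓝 1) := by
    have h2 := (Real.continuous_exp.tendsto _).comp hzy
    rw [Real.exp_zero] at h2
    have h3 := (hrat.pow R).mul h2
    rw [one_pow, mul_one] at h3
    refine h3.congr' ?_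
    filter_upwards [hz.eventually_gt_atTop 0] with k hk
    simp only [Function.comp, hv, wR]
    rw [div_pow (T k / Lg k), Real.exp_sub, Real.exp_neg, Real.exp_neg]
    have g1 := (pow_pos hk R).ne'
    have g2 := (Real.exp_pos (q * cF (F k) (s k) (M k) / L1 (s k))).ne'
    have g3 := (Real.exp_pos (T k / Lg k)).ne'
    generalize Real.exp (q * cF (F k) (s k) (M k) / L1 (s k)) = e1 at *
    generalize Real.exp (T k / Lg k) = e2 at *
    generalize (q * cF (F k) (s k) (M k) / L1 (s k)) ^ R = e3 at *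
    generalize (T k / Lg k) ^ R = e4 at *
    field_simp
  have hr' : Tendsto (fun k => wR s M F q R k / v k) atTop (𝓝 1) := by
    have := hr.inv₀ one_ne_zero
    rw [inv_one] at this
    exact this.congr fun k => by rw [inv_div]
  have hsum : Summable v ↔ Summable (wR s M F q R) := by
    constructor
    · intro h
      refine summable_of_isBigO_nat h (Asymptotics.isBigO_of_div_tendsto_nhds ?_ _ hr')
      filter_upwards [hvp] with k hk h0
      exact absurd h0 hk.ne'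
    · intro h
      refine summable_of_isBigO_nat h (Asymptotics.isBigO_of_div_tendsto_nhds ?_ _ hr)
      filter_upwards [hwp] with k hk h0
      exact absurd h0 hk.ne'
  filter_upwards [hlaw] with ω hω C hC
  obtain ⟨h1, h2⟩ := hω C hC
  refine ⟨fun hns => ?_, fun hs' => h2 (hsum.1 hs')⟩
  have hW : Tendsto (fun n => ∑ k ∈ Finset.range n, wR s M F q R k) atTop atTop :=
    (not_summable_iff_tendsto_nat_atTop_of_nonneg fun k => wR_nonneg s M F hq R k).1 (fun h => hns (hsum.2 h))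
  have hV : Tendsto (fun n => ∑ k ∈ Finset.range n, v k) atTop atTop :=
    (not_summable_iff_tendsto_nat_atTop_of_nonneg hv0).1 hns
  have h3 := (h1 (fun h => hns (hsum.2 h))).mul (sum_ratio hv0 hvp hr' hV)
  rw [mul_one] at h3
  have h4 : Tendsto (fun n : ℕ => EC (fun k => few A (F k) (s k) (M k) R) n ω / ∑ k ∈ Finset.range n, v k) atTop
      (𝓝 (Real.exp (κ * (C - q / 2)))) := by
    refine h3.congr' ?_
    filter_upwards [hW.eventually_gt_atTop 0] with n hn
    have := hn.ne'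
    field_simp
  refine ((tendsto_add_atTop_iff_nat 1).2 h4).congr fun X => ?_
  show EC (fun k => few A (F k) (s k) (M k) R) (X + 1) ω / ∑ k ∈ Finset.range (X + 1), v k = _
  rw [EC_card]

/-- the start of the closed window -/
noncomputable def sc (a : ℕ → ℝ) (x : ℕ) : ℕ := x ^ 2 - (⌊a x⌋₊ + 1)

/-- the length of the closed window -/
noncomputable def Mc (a b : ℕ → ℝ) (x : ℕ) : ℕ := x ^ 2 + ⌊b x⌋₊ - sc a x

/-- the number of the positive elements of `S` in `[x² - a, x² + b]` -/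
noncomputable def num (S : Set ℕ) (x : ℕ) (a b : ℝ) : ℕ :=
  Set.ncard {m : ℕ | m ∈ S ∧ 1 ≤ m ∧ (x : ℝ) ^ 2 - a ≤ m ∧ (m : ℝ) ≤ (x : ℝ) ^ 2 + b}

lemma cn_eq_ncard {Q : ℕ} (hcop : ∀ n, ¬ Nat.Coprime n Q → A n = ∅) (s M : ℕ) (ω : Ω) :
    cn A (cop Q) s M ω = Set.ncard {m : ℕ | ω ∈ A m ∧ s < m ∧ m ≤ s + M} := by
  classical
  have e : {m : ℕ | ω ∈ A m ∧ s < m ∧ m ≤ s + M} =
      (((Finset.range M).filter (fun i => s + i + 1 ∈ cop Q ∧ ω ∈ A (s + i + 1))).image
        (fun i => s + i + 1) : Finset ℕ) := by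
    ext m
    simp only [mem_ofPred_eq, Finset.coe_image, Finset.coe_filter, Finset.mem_range, mem_image]
    constructor
    · rintro ⟨h1, h2, h3⟩
      have h4 : s + (m - s - 1) + 1 = m := by omega
      refine ⟨m - s - 1, ⟨by omega, ?_⟩, h4⟩
      rw [h4]
      refine ⟨?_, h1⟩
      by_contra hc
      rw [hcop m hc] at h1
      exact h1
    · rintro ⟨i, ⟨h1, h2, h3⟩, h4⟩
      rw [← h4]
      exact ⟨h3, by omega, by omega⟩
  rw [e, Set.ncard_coe_finset, Finset.card_image_of_injective _ (fun i j h => by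
    have h' : s + i + 1 = s + j + 1 := h
    omega)]
  unfold cn
  congr!

lemma few_iff {Q : ℕ} (hcop : ∀ n, ¬ Nat.Coprime n Q → A n = ∅) {a b : ℕ → ℝ}
    (ha0 : ∀ x, 0 ≤ a x) (hb0 : ∀ x, 0 ≤ b x) (x R : ℕ) (ω : Ω) :
    ω ∈ few A (cop Q) (sc a x) (Mc a b x) R ↔ num {k | ω ∈ A k} x (a x) (b x) ≤ R := by
  have hle : sc a x ≤ x ^ 2 := Nat.sub_le _ _
  have e : {m : ℕ | ω ∈ A m ∧ sc a x < m ∧ m ≤ sc a x + Mc a b x} =
      {m : ℕ | m ∈ {k | ω ∈ A k} ∧ 1 ≤ m ∧ (x : ℝ) ^ 2 - a x ≤ m ∧ (m : ℝ) ≤ (x : ℝ) ^ 2 + b x} := by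
    ext m
    simp only [mem_ofPred_eq]
    have h1 : sc a x < m ↔ 1 ≤ m ∧ (x : ℝ) ^ 2 - a x ≤ m := by
      have g1 : sc a x < m ↔ 1 ≤ m ∧ x ^ 2 ≤ m + ⌊a x⌋₊ := by
        unfold sc; omega
      have g2 : x ^ 2 ≤ m + ⌊a x⌋₊ ↔ (x : ℝ) ^ 2 - a x ≤ m := by
        rcases Nat.le_total (x ^ 2) m with h | h
        · have h' : ((x : ℝ)) ^ 2 ≤ m := by exact_mod_cast h
          have := ha0 x
          exact ⟨fun _ => by linarith, fun _ => by omega⟩
        · have g3 : x ^ 2 ≤ m + ⌊a x⌋₊ ↔ x ^ 2 - m ≤ ⌊a x⌋₊ := by omega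
          rw [g3, Nat.le_floor_iff (ha0 x), Nat.cast_sub h]
          push_cast
          constructor <;> intro _ <;> linarith
      rw [g1, g2]
    have h2 : m ≤ sc a x + Mc a b x ↔ (m : ℝ) ≤ (x : ℝ) ^ 2 + b x := by
      have g1 : m ≤ sc a x + Mc a b x ↔ m ≤ x ^ 2 + ⌊b x⌋₊ := by
        unfold Mc; omega
      rw [g1]
      rcases Nat.le_total m (x ^ 2) with h | h
      · have h' : (m : ℝ) ≤ (x : ℝ) ^ 2 := by exact_mod_cast h
        have := hb0 x
        exact ⟨fun _ => by linarith, fun _ => by omega⟩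
      · have g3 : m ≤ x ^ 2 + ⌊b x⌋₊ ↔ m - x ^ 2 ≤ ⌊b x⌋₊ := by omega
        rw [g3, Nat.le_floor_iff (hb0 x), Nat.cast_sub h]
        push_cast
        constructor <;> intro _ <;> linarith
    rw [h1, h2]
    tauto
  simp only [few, mem_ofPred_eq]
  rw [cn_eq_ncard hcop, e]
  rfl

/-- **the integral test around the squares, `k`-fold form** -/
theorem squares_few (hA : ∀ n, MeasurableSet[ℱ n] (A n)) {K : ℝ} {n₀ : ℕ} {Q : ℕ} (hQ : 0 < Q)
    (hcop : ∀ n, ¬ Nat.Coprime n Q → A n = ∅)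
    {D : ℕ → Ω → ℝ} (hD : ∀ n, StronglyMeasurable[ℱ n] (D n))
    (hK : ∀ᵐ ω ∂μ, ∀ n, n₀ ≤ n → |D (n + 1) ω - D n ω| ≤ K / n * |D n ω|)
    (hDd : ∀ᵐ ω ∂μ, ∀ n, n₀ ≤ n → Nat.Coprime (n + 1) Q → dens μ ℱ A n ω = (Q : ℝ) / Nat.totient Q / D n ω)
    {a b : ℕ → ℝ} (ha0 : ∀ x, 0 ≤ a x) (hb0 : ∀ x, 0 ≤ b x) {lam : ℝ} (hlam0 : 0 < lam)
    (hlam : Tendsto (fun x : ℕ => (a x + b x) / Real.log x ^ 2) atTop (𝓝 lam)) (R : ℕ) :
    ∀ᵐ ω ∂μ, ∀ C : ℝ, Tendsto (fun n : ℕ => D n ω - Real.log n) atTop (𝓝 C) →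
      (¬ Summable (fun x : ℕ => ((a x + b x) / (2 * Real.log x)) ^ R / R.factorial *
          Real.exp (-((a x + b x) / (2 * Real.log x)))) →
        Tendsto (fun X : ℕ => (Set.ncard {x : ℕ | x ≤ X ∧ num {k | ω ∈ A k} x (a x) (b x) ≤ R} : ℝ) /
          ∑ x ∈ Finset.range (X + 1), ((a x + b x) / (2 * Real.log x)) ^ R / R.factorial *
          Real.exp (-((a x + b x) / (2 * Real.log x)))) atTop
          (𝓝 (Real.exp (lam / 4 * (C - (Q : ℝ) / Nat.totient Q / 2))))) ∧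
      (Summable (fun x : ℕ => ((a x + b x) / (2 * Real.log x)) ^ R / R.factorial *
          Real.exp (-((a x + b x) / (2 * Real.log x)))) →
        ∀ᶠ x : ℕ in atTop, ¬ num {k | ω ∈ A k} x (a x) (b x) ≤ R) := by
  have hlx : Tendsto (fun x : ℕ => Real.log x ^ 2 / (x : ℝ)) atTop (𝓝 0) := by
    have h1 : Tendsto (fun x : ℝ => Real.log x ^ 2 / x) atTop (𝓝 0) :=
      (Real.isLittleO_pow_log_id_atTop (n := 2)).tendsto_div_nhds_zero
    exact h1.comp tendsto_natCast_atTop_atTop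
  have hTx : Tendsto (fun x : ℕ => (a x + b x) / (x : ℝ)) atTop (𝓝 0) := by
    have h1 := hlam.mul hlx
    rw [mul_zero] at h1
    refine h1.congr' ?_
    filter_upwards [tendsto_log.eventually_gt_atTop 0, eventually_gt_atTop 0] with x hx hx0
    have hx' : (0 : ℝ) < x := by exact_mod_cast hx0
    field_simp
  have hsmall : ∀ᶠ x : ℕ in atTop, 4 * (⌊a x⌋₊ + 1) ≤ x ∧ 4 * (⌊b x⌋₊ + 1) ≤ x ∧ 16 ≤ x := by
    filter_upwards [hTx.eventually (eventually_lt_nhds (show (0 : ℝ) < 1 / 16 by norm_num)),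
      eventually_ge_atTop 16] with x h1 h2
    have hx : (16 : ℝ) ≤ x := by exact_mod_cast h2
    rw [div_lt_iff₀ (by linarith)] at h1
    have h3 := Nat.floor_le (ha0 x)
    have h4 := Nat.floor_le (hb0 x)
    have := ha0 x
    have := hb0 x
    refine ⟨?_, ?_, h2⟩
    · have : ((4 * (⌊a x⌋₊ + 1) : ℕ) : ℝ) ≤ x := by push_cast; linarith
      exact_mod_cast this
    · have : ((4 * (⌊b x⌋₊ + 1) : ℕ) : ℝ) ≤ x := by push_cast; linarith
      exact_mod_cast this
  have hsq : ∀ {x : ℕ}, 16 ≤ x → x * 16 ≤ x ^ 2 := fun {x} h => by nlinarith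
  have hs : Tendsto (sc a) atTop atTop := by
    refine tendsto_atTop_mono' _ ?_ tendsto_id
    filter_upwards [hsmall] with x ⟨h1, h2, h3⟩
    unfold sc
    simp only [id]
    have := hsq h3
    omega
  have hdis : ∀ᶠ x : ℕ in atTop, sc a x + Mc a b x ≤ sc a (x + 1) := by
    filter_upwards [hsmall, (tendsto_add_atTop_nat 1).eventually hsmall] with x ⟨h1, h2, h3⟩ ⟨h4, h5, h6⟩
    unfold Mc
    have h9 : (x + 1) ^ 2 = x ^ 2 + 2 * x + 1 := by ring
    have h10 : sc a x ≤ x ^ 2 := Nat.sub_le _ _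
    have h11 : sc a (x + 1) = (x + 1) ^ 2 - (⌊a (x + 1)⌋₊ + 1) := rfl
    rw [h11]
    omega
  have hcast : ∀ᶠ x : ℕ in atTop, ((sc a x : ℕ) : ℝ) = (x : ℝ) ^ 2 - (⌊a x⌋₊ + 1) := by
    filter_upwards [hsmall] with x ⟨h1, h2, h3⟩
    have h4 := hsq h3
    unfold sc
    rw [Nat.cast_sub (by omega)]
    push_cast
    ring
  have hMT : ∀ᶠ x : ℕ in atTop, |((Mc a b x : ℕ) : ℝ) - (a x + b x)| ≤ 2 := by
    filter_upwards [hcast] with x hx
    have h1 := Nat.floor_le (ha0 x)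
    have h2 := Nat.lt_floor_add_one (a x)
    have h3 := Nat.floor_le (hb0 x)
    have h4 := Nat.lt_floor_add_one (b x)
    have h10 : sc a x ≤ x ^ 2 := Nat.sub_le _ _
    unfold Mc
    rw [Nat.cast_sub (by omega), hx]
    push_cast
    rw [abs_le]
    constructor <;> linarith
  -- the logarithm at the start
  have hL : Tendsto (fun x : ℕ => L1 (sc a x) - 2 * Real.log x) atTop (𝓝 0) := by
    have hax : Tendsto (fun x : ℕ => (⌊a x⌋₊ : ℝ) / (x : ℝ) ^ 2) atTop (𝓝 0) := by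
      have h1 : Tendsto (fun x : ℕ => 1 / (x : ℝ)) atTop (𝓝 0) := tendsto_one_div_atTop_nhds_zero_nat
      refine squeeze_zero_norm' ?_ h1
      filter_upwards [hsmall] with x ⟨h1, h2, h3⟩
      have hx : (16 : ℝ) ≤ x := by exact_mod_cast h3
      have h4 : (4 : ℝ) * (⌊a x⌋₊ + 1) ≤ x := by exact_mod_cast h1
      have h5 : (0 : ℝ) ≤ ⌊a x⌋₊ := Nat.cast_nonneg _
      rw [Real.norm_of_nonneg (by positivity), div_le_div_iff₀ (by positivity) (by linarith), one_mul, sq]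
      apply mul_le_mul_of_nonneg_right _ (by linarith)
      linarith
    have h2 : Tendsto (fun x : ℕ => Real.log (1 - (⌊a x⌋₊ : ℝ) / (x : ℝ) ^ 2)) atTop (𝓝 (Real.log (1 - 0))) := by
      apply Tendsto.log
      · exact tendsto_const_nhds.sub hax
      · norm_num
    rw [sub_zero, Real.log_one] at h2
    refine h2.congr' ?_
    filter_upwards [hsmall, hcast] with x ⟨h1, h3, h4⟩ h6
    have hx : (16 : ℝ) ≤ x := by exact_mod_cast h4
    have h5 : (4 : ℝ) * (⌊a x⌋₊ + 1) ≤ x := by exact_mod_cast h1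
    unfold L1
    rw [h6]
    have e1 : (x : ℝ) ^ 2 - ((⌊a x⌋₊ : ℝ) + 1) + 1 = (x : ℝ) ^ 2 - ⌊a x⌋₊ := by ring
    rw [e1]
    have h7 : (0 : ℝ) < (x : ℝ) ^ 2 - ⌊a x⌋₊ := by nlinarith
    have h8 : (2 : ℝ) * Real.log x = Real.log ((x : ℝ) ^ 2) := by rw [Real.log_pow]; norm_num
    rw [h8, ← Real.log_div h7.ne' (by positivity)]
    congr 1
    field_simp
  have hLtop : Tendsto (fun x => L1 (sc a x)) atTop atTop := L1_top.comp hs
  have hr : Tendsto (fun x : ℕ => L1 (sc a x) / Real.log x) atTop (𝓝 2) := by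
    have h1 := (hL.div_atTop tendsto_log).add_const 2
    rw [zero_add] at h1
    refine h1.congr' ?_
    filter_upwards [tendsto_log.eventually_gt_atTop 0] with x hx
    field_simp
    ring
  have hr' : Tendsto (fun x : ℕ => Real.log x / L1 (sc a x)) atTop (𝓝 (1 / 2)) := by
    have := hr.inv₀ (by norm_num)
    rw [← one_div] at this
    exact this.congr fun x => by rw [inv_div]
  have hT : Tendsto (fun x : ℕ => (a x + b x) / L1 (sc a x) ^ 2) atTop (𝓝 (lam / 4)) := by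
    have h1 := hlam.mul (hr'.pow 2)
    have e : lam * (1 / 2) ^ 2 = lam / 4 := by ring
    rw [e] at h1
    refine h1.congr' ?_
    filter_upwards [tendsto_log.eventually_gt_atTop 0, hLtop.eventually_gt_atTop 0] with x hx hx2
    field_simp
  have hTL : Tendsto (fun x : ℕ => (a x + b x) / L1 (sc a x) - (a x + b x) / (2 * Real.log x)) atTop (𝓝 0) := by
    have h1 := ((hlam.mul hr').mul hL).const_mul (-(1 / 2) : ℝ)
    rw [mul_zero, mul_zero] at h1
    refine h1.congr' ?_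
    filter_upwards [tendsto_log.eventually_gt_atTop 0, hLtop.eventually_gt_atTop 0] with x hx hx2
    field_simp
    ring
  filter_upwards [few_final (μ := μ) (ℱ := ℱ) (A := A) hA hQ hD hK hDd (s := sc a)
    (M := Mc a b) hs hdis zero_le_two hMT hT (by positivity) hTL (fun x => div_nonneg
      (add_nonneg (ha0 x) (hb0 x)) (mul_nonneg zero_le_two (Real.log_natCast_nonneg x))) R] with ω hω C hC
  obtain ⟨h1, h2⟩ := hω C hC
  simp only [few_iff hcop ha0 hb0] at h1 h2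
  exact ⟨h1, h2⟩

end Pool.Agent.R320.IT
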