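import Mathlib
import Pool.Agent.R320.IT.FewSq

set_option autoImplicit false
set_option linter.unusedSectionVars false

/-! # Windows above the odd squares with few chosen integers: integral test and exact count -/

open MeasureTheory Filter Set
open scoped ENNReal Topology

namespace Pool.Agent.R320.IT

open Pool.Agent.R528.RM

variable {Ω : Type} {m0 : MeasurableSpace Ω} {μ : Measure Ω} [IsProbabilityMeasure μ]
  {ℱ : Filtration ℕ m0} {A : ℕ → Set Ω}

/-- the number of the elements `m` of `S` with `(2 k - 1)² < m ≤ (2 k - 1)² + y` -/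
noncomputable def numO (S : Set ℕ) (k : ℕ) (y : ℝ) : ℕ :=
  Set.ncard {m : ℕ | m ∈ S ∧ (2 * k - 1) ^ 2 < m ∧ (m : ℝ) ≤ ((2 * k - 1 : ℕ) : ℝ) ^ 2 + y}

lemma fewO_iff {Q : ℕ} (hcop : ∀ n, ¬ Nat.Coprime n Q → A n = ∅) {h : ℕ → ℝ}
    (h0 : ∀ k, 0 ≤ h k) (k R : ℕ) (ω : Ω) :
    ω ∈ few A (cop Q) ((2 * k - 1) ^ 2) ⌊h k⌋₊ R ↔ numO {j | ω ∈ A j} k (h k) ≤ R := by
  have e : {m : ℕ | ω ∈ A m ∧ (2 * k - 1) ^ 2 < m ∧ m ≤ (2 * k - 1) ^ 2 + ⌊h k⌋₊} =
      {m : ℕ | m ∈ {j | ω ∈ A j} ∧ (2 * k - 1) ^ 2 < m ∧ (m : ℝ) ≤ ((2 * k - 1 : ℕ) : ℝ) ^ 2 + h k} := by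
    ext m
    simp only [mem_ofPred_eq]
    have h2 : m ≤ (2 * k - 1) ^ 2 + ⌊h k⌋₊ ↔ (m : ℝ) ≤ ((2 * k - 1 : ℕ) : ℝ) ^ 2 + h k := by
      generalize (2 * k - 1 : ℕ) = x
      rcases Nat.le_total m (x ^ 2) with h' | h'
      · have h'' : (m : ℝ) ≤ (x : ℝ) ^ 2 := by exact_mod_cast h'
        have := h0 k
        exact ⟨fun _ => by linarith, fun _ => by omega⟩
      · have g3 : m ≤ x ^ 2 + ⌊h k⌋₊ ↔ m - x ^ 2 ≤ ⌊h k⌋₊ := by omega
        rw [g3, Nat.le_floor_iff (h0 k), Nat.cast_sub h']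
        push_cast
        constructor <;> intro _ <;> linarith
    rw [h2]
  simp only [few, mem_ofPred_eq]
  rw [cn_eq_ncard hcop, e]
  rfl

/-- **the integral test above the odd squares, `r`-fold form** -/
theorem odd_squares_few (hA : ∀ n, MeasurableSet[ℱ n] (A n)) {K : ℝ} {n₀ : ℕ} {Q : ℕ} (hQ : 0 < Q)
    (hcop : ∀ n, ¬ Nat.Coprime n Q → A n = ∅)
    {D : ℕ → Ω → ℝ} (hD : ∀ n, StronglyMeasurable[ℱ n] (D n))
    (hK : ∀ᵐ ω ∂μ, ∀ n, n₀ ≤ n → |D (n + 1) ω - D n ω| ≤ K / n * |D n ω|)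
    (hDd : ∀ᵐ ω ∂μ, ∀ n, n₀ ≤ n → Nat.Coprime (n + 1) Q → dens μ ℱ A n ω = (Q : ℝ) / Nat.totient Q / D n ω)
    {h : ℕ → ℝ} (h0 : ∀ k, 0 ≤ h k) {t : ℝ} (ht0 : 0 < t)
    (ht : Tendsto (fun k : ℕ => h k / Real.log k ^ 2) atTop (𝓝 t)) (R : ℕ) :
    ∀ᵐ ω ∂μ, ∀ C : ℝ, Tendsto (fun n : ℕ => D n ω - Real.log n) atTop (𝓝 C) →
      (¬ Summable (fun k : ℕ => (h k / (2 * Real.log (2 * k - 1 : ℕ))) ^ R / R.factorial *
          Real.exp (-(h k / (2 * Real.log (2 * k - 1 : ℕ))))) →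
        Tendsto (fun X : ℕ => (Set.ncard {k : ℕ | k ≤ X ∧ numO {j | ω ∈ A j} k (h k) ≤ R} : ℝ) /
          ∑ k ∈ Finset.range (X + 1), (h k / (2 * Real.log (2 * k - 1 : ℕ))) ^ R / R.factorial *
          Real.exp (-(h k / (2 * Real.log (2 * k - 1 : ℕ))))) atTop
          (𝓝 (Real.exp (t / 4 * (C - (Q : ℝ) / Nat.totient Q / 2))))) ∧
      (Summable (fun k : ℕ => (h k / (2 * Real.log (2 * k - 1 : ℕ))) ^ R / R.factorial *
          Real.exp (-(h k / (2 * Real.log (2 * k - 1 : ℕ))))) →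
        ∀ᶠ k : ℕ in atTop, ¬ numO {j | ω ∈ A j} k (h k) ≤ R) := by
  have hlx : Tendsto (fun x : ℕ => Real.log x ^ 2 / (x : ℝ)) atTop (𝓝 0) := by
    have h1 : Tendsto (fun x : ℝ => Real.log x ^ 2 / x) atTop (𝓝 0) :=
      (Real.isLittleO_pow_log_id_atTop (n := 2)).tendsto_div_nhds_zero
    exact h1.comp tendsto_natCast_atTop_atTop
  have hTx : Tendsto (fun x : ℕ => h x / (x : ℝ)) atTop (𝓝 0) := by
    have h1 := ht.mul hlx
    rw [mul_zero] at h1
    refine h1.congr' ?_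
    filter_upwards [tendsto_log.eventually_gt_atTop 0, eventually_gt_atTop 0] with x hx hx0
    have hx' : (0 : ℝ) < x := by exact_mod_cast hx0
    field_simp
  have hsmall : ∀ᶠ x : ℕ in atTop, ⌊h x⌋₊ ≤ x ∧ 16 ≤ x := by
    filter_upwards [hTx.eventually (eventually_lt_nhds (show (0 : ℝ) < 1 by norm_num)),
      eventually_ge_atTop 16] with x h1 h2
    have hx : (16 : ℝ) ≤ x := by exact_mod_cast h2
    rw [div_lt_iff₀ (by linarith)] at h1
    have h3 := Nat.floor_le (h0 x)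
    refine ⟨?_, h2⟩
    have : ((⌊h x⌋₊ : ℕ) : ℝ) ≤ x := by linarith
    exact_mod_cast this
  have hs : Tendsto (fun k : ℕ => (2 * k - 1) ^ 2) atTop atTop := by
    refine tendsto_atTop_mono' _ ?_ tendsto_id
    filter_upwards [eventually_ge_atTop 1] with k hk
    simp only [id]
    have h1 : k ≤ 2 * k - 1 := by omega
    nlinarith
  have hdis : ∀ᶠ k : ℕ in atTop, (2 * k - 1) ^ 2 + ⌊h k⌋₊ ≤ (2 * (k + 1) - 1) ^ 2 := by
    filter_upwards [hsmall] with k ⟨h1, h2⟩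
    obtain ⟨j, rfl⟩ : ∃ j, k = j + 1 := ⟨k - 1, by omega⟩
    have e1 : 2 * (j + 1) - 1 = 2 * j + 1 := by omega
    have e2 : 2 * (j + 1 + 1) - 1 = 2 * j + 3 := by omega
    rw [e1, e2]
    nlinarith
  have hMT : ∀ᶠ k : ℕ in atTop, |((⌊h k⌋₊ : ℕ) : ℝ) - h k| ≤ 1 := by
    filter_upwards with k
    have h3 := Nat.floor_le (h0 k)
    have h4 := Nat.lt_floor_add_one (h k)
    rw [abs_le]
    constructor <;> linarith
  -- the logarithm at the start
  have hinv : Tendsto (fun k : ℕ => 1 / (k : ℝ)) atTop (𝓝 0) := tendsto_one_div_atTop_nhds_zero_nat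
  have hcast : ∀ᶠ k : ℕ in atTop, ((2 * k - 1 : ℕ) : ℝ) = 2 * k - 1 := by
    filter_upwards [eventually_ge_atTop 1] with k hk
    rw [Nat.cast_sub (by omega)]
    push_cast
    ring
  have hL : Tendsto (fun k : ℕ => L1 ((2 * k - 1) ^ 2) - 2 * Real.log (2 * k - 1 : ℕ)) atTop (𝓝 0) := by
    have h1 : Tendsto (fun k : ℕ => 1 / (((2 * k - 1 : ℕ) : ℝ)) ^ 2) atTop (𝓝 0) := by
      have h2 := tendsto_one_div_atTop_nhds_zero_nat (𝕜 := ℝ).comp hs
      refine h2.congr fun k => ?_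
      simp only [Function.comp]
      push_cast
      rfl
    have h2 : Tendsto (fun k : ℕ => Real.log (1 + 1 / (((2 * k - 1 : ℕ) : ℝ)) ^ 2)) atTop (𝓝 (Real.log (1 + 0))) := by
      apply Tendsto.log
      · exact h1.const_add 1
      · norm_num
    rw [add_zero, Real.log_one] at h2
    refine h2.congr' ?_
    filter_upwards [eventually_ge_atTop 1] with k hk
    have h3 : (0 : ℝ) < ((2 * k - 1 : ℕ) : ℝ) := by
      have : 0 < 2 * k - 1 := by omega
      exact_mod_cast this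
    unfold L1
    have h8 : (2 : ℝ) * Real.log (2 * k - 1 : ℕ) = Real.log (((2 * k - 1 : ℕ) : ℝ) ^ 2) := by
      rw [Real.log_pow]; norm_num
    rw [h8, ← Real.log_div (by positivity) (by positivity)]
    congr 1
    rw [Nat.cast_pow]
    field_simp
  have hLk : Tendsto (fun k : ℕ => L1 ((2 * k - 1) ^ 2) - 2 * Real.log k) atTop (𝓝 (Real.log 4)) := by
    have h1 : Tendsto (fun k : ℕ => 4 - 4 * (1 / (k : ℝ)) + 2 * (1 / (k : ℝ)) ^ 2) atTop (𝓝 (4 - 4 * 0 + 2 * 0 ^ 2)) :=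
      ((hinv.const_mul 4).const_sub 4).add ((hinv.pow 2).const_mul 2)
    have e : (4 : ℝ) - 4 * 0 + 2 * 0 ^ 2 = 4 := by norm_num
    rw [e] at h1
    have h2 := h1.log (by norm_num)
    refine h2.congr' ?_
    filter_upwards [eventually_ge_atTop 1, hcast] with k hk hc
    have h3 : (1 : ℝ) ≤ k := by exact_mod_cast hk
    unfold L1
    rw [Nat.cast_pow, hc]
    have h8 : (2 : ℝ) * Real.log k = Real.log ((k : ℝ) ^ 2) := by
      rw [Real.log_pow]; norm_num
    rw [h8, ← Real.log_div (by positivity) (by positivity)]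
    congr 1
    field_simp
    ring
  have hLtop : Tendsto (fun k : ℕ => L1 ((2 * k - 1) ^ 2)) atTop atTop := L1_top.comp hs
  have hr : Tendsto (fun k : ℕ => L1 ((2 * k - 1) ^ 2) / Real.log k) atTop (𝓝 2) := by
    have h1 := (hLk.div_atTop tendsto_log).add_const 2
    rw [zero_add] at h1
    refine h1.congr' ?_
    filter_upwards [tendsto_log.eventually_gt_atTop 0] with x hx
    field_simp
    ring
  have hr' : Tendsto (fun k : ℕ => Real.log k / L1 ((2 * k - 1) ^ 2)) atTop (𝓝 (1 / 2)) := by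
    have := hr.inv₀ (by norm_num)
    rw [← one_div] at this
    exact this.congr fun x => by rw [inv_div]
  have hr2 : Tendsto (fun k : ℕ => Real.log (2 * k - 1 : ℕ) / Real.log k) atTop (𝓝 1) := by
    have h1 := (hr.sub (hL.div_atTop tendsto_log)).div_const 2
    have e : ((2 : ℝ) - 0) / 2 = 1 := by norm_num
    rw [e] at h1
    refine h1.congr' ?_
    filter_upwards [tendsto_log.eventually_gt_atTop 0] with x hx
    field_simp
    ring
  have hr2' : Tendsto (fun k : ℕ => Real.log k / Real.log (2 * k - 1 : ℕ)) atTop (𝓝 1) := by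
    have := hr2.inv₀ one_ne_zero
    rw [inv_one] at this
    exact this.congr fun x => by rw [inv_div]
  have hT : Tendsto (fun k : ℕ => h k / L1 ((2 * k - 1) ^ 2) ^ 2) atTop (𝓝 (t / 4)) := by
    have h1 := ht.mul (hr'.pow 2)
    have e : t * (1 / 2) ^ 2 = t / 4 := by ring
    rw [e] at h1
    refine h1.congr' ?_
    filter_upwards [tendsto_log.eventually_gt_atTop 0, hLtop.eventually_gt_atTop 0] with x hx hx2
    field_simp
  have hTL : Tendsto (fun k : ℕ => h k / L1 ((2 * k - 1) ^ 2) - h k / (2 * Real.log (2 * k - 1 : ℕ))) atTop (𝓝 0) := by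
    have h1 := (((ht.mul hr').mul hr2').mul hL).const_mul (-(1 / 2) : ℝ)
    rw [mul_zero, mul_zero] at h1
    refine h1.congr' ?_
    filter_upwards [tendsto_log.eventually_gt_atTop 0, hLtop.eventually_gt_atTop 0,
      hr2.eventually (eventually_gt_nhds (show (0 : ℝ) < 1 by norm_num))] with x hx hx2 hx3
    have hx4 : 0 < Real.log (2 * x - 1 : ℕ) := by
      by_contra hcon
      push Not at hcon
      have := div_nonpos_of_nonpos_of_nonneg hcon hx.le
      linarith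
    field_simp
    ring
  filter_upwards [few_final (μ := μ) (ℱ := ℱ) (A := A) hA hQ hD hK hDd (s := fun k => (2 * k - 1) ^ 2)
    (M := fun k => ⌊h k⌋₊) (T := h) (Lg := fun k => 2 * Real.log (2 * k - 1 : ℕ)) hs hdis zero_le_one hMT hT
    (by positivity) hTL (fun x => div_nonneg (h0 x) (mul_nonneg zero_le_two (Real.log_natCast_nonneg _))) R]
    with ω hω C hC
  obtain ⟨h1, h2⟩ := hω C hC
  simp only [fewO_iff hcop h0] at h1 h2
  exact ⟨h1, h2⟩

end Pool.Agent.R320.IT
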