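import Mathlib
import Pool.Agent.R320.IT.Apply
import Pool.Agent.R528.RM.Sp4

set_option autoImplicit false
set_option linter.unusedSectionVars false

/-! # Intervals just above the powers -/

open MeasureTheory Filter Set
open scoped ENNReal Topology

namespace Pool.Agent.R320.IT

open Pool.Agent.R528.RM

/-- `[g ^ n, g ^ n + y]` contains no element of `S` -/
def Misses (S : Set ℕ) (g n : ℕ) (y : ℝ) : Prop := ∀ m ∈ S, g ^ n ≤ m → ((g ^ n : ℕ) : ℝ) + y < m

variable {Ω : Type} {m0 : MeasurableSpace Ω} {μ : Measure Ω} [IsProbabilityMeasure μ]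
  {ℱ : Filtration ℕ m0} {A : ℕ → Set Ω}

lemma misses_iff {Q g n : ℕ} (hg : 2 ≤ g) (hcop : ∀ n, ¬ Nat.Coprime n Q → A n = ∅) {y : ℝ} (hy : 0 ≤ y) (ω : Ω) :
    ω ∈ void A (cop Q \ {0}) (g ^ n - 1) (⌊y⌋₊ + 1) ↔ Misses {k | ω ∈ A k} g n y := by
  have h1 : 1 ≤ g ^ n := Nat.one_le_pow _ _ (by omega)
  simp only [void, Misses, mem_ofPred_eq]
  constructor
  · intro h m hm hgm
    by_contra hcon
    push Not at hcon
    have h2 : ((m - g ^ n : ℕ) : ℝ) ≤ y := by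
      rw [Nat.cast_sub hgm]
      linarith
    have h3 : m - g ^ n ≤ ⌊y⌋₊ := Nat.le_floor h2
    refine h m (by omega) (by omega) ⟨?_, ?_⟩ hm
    · by_contra hc
      have := hcop m hc
      rw [this] at hm
      exact hm
    · simp only [mem_singleton_iff]
      omega
  · intro h m h2 h3 _ hm
    have h4 := h m hm (by omega)
    have h5 : m ≤ g ^ n + ⌊y⌋₊ := by omega
    have h6 : (m : ℝ) ≤ (g ^ n : ℕ) + ⌊y⌋₊ := by exact_mod_cast h5
    have h7 := Nat.floor_le hy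
    linarith

lemma pow_room {g : ℕ} (hg : 2 ≤ g) {h : ℕ → ℝ} {c : ℝ} (hc : ∀ᶠ n : ℕ in atTop, h n ≤ c * (n : ℝ) ^ 2) :
    ∀ᶠ n : ℕ in atTop, ⌊h n⌋₊ + 1 ≤ g ^ n := by
  have h1 : Tendsto (fun n : ℕ => (n : ℝ) ^ 2 / 2 ^ n) atTop (𝓝 0) :=
    tendsto_pow_const_div_const_pow_of_one_lt 2 (by norm_num)
  have h2 := h1.const_mul |c|
  rw [mul_zero] at h2
  have h3 : Tendsto (fun n : ℕ => (2 : ℝ) ^ n) atTop atTop := tendsto_pow_atTop_atTop_of_one_lt (by norm_num)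
  filter_upwards [hc, h2.eventually (eventually_lt_nhds (show (0 : ℝ) < 1 / 2 by norm_num)),
    h3.eventually_ge_atTop 4] with n h4 h5 h6
  have h7 : (0 : ℝ) < 2 ^ n := by positivity
  have h8 : |c| * (n : ℝ) ^ 2 < 1 / 2 * 2 ^ n := by
    have := mul_lt_mul_of_pos_right h5 h7
    rwa [mul_assoc, div_mul_cancel₀ _ h7.ne'] at this
  have h9 : h n ≤ |c| * (n : ℝ) ^ 2 := h4.trans (mul_le_mul_of_nonneg_right (le_abs_self c) (by positivity))
  have h10 : ((⌊h n⌋₊ : ℕ) : ℝ) ≤ |c| * (n : ℝ) ^ 2 := by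
    rcases le_or_gt 0 (h n) with h0 | h0
    · exact (Nat.floor_le h0).trans h9
    · rw [Nat.floor_of_nonpos h0.le]
      push_cast
      positivity
  have h11 : ((⌊h n⌋₊ + 1 : ℕ) : ℝ) ≤ (g ^ n : ℕ) := by
    have h12 : (2 : ℝ) ^ n ≤ (g : ℝ) ^ n := by
      apply pow_le_pow_left₀ (by norm_num)
      exact_mod_cast hg
    push_cast
    linarith
  exact_mod_cast h11

/-- **the integral test for intervals above the powers** -/
theorem powers (hA : ∀ n, MeasurableSet[ℱ n] (A n)) {K : ℝ} {n₀ : ℕ} {Q : ℕ} (hQ : 0 < Q)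
    (hcop : ∀ n, ¬ Nat.Coprime n Q → A n = ∅)
    {D : ℕ → Ω → ℝ} (hD : ∀ n, StronglyMeasurable[ℱ n] (D n))
    (hK : ∀ᵐ ω ∂μ, ∀ n, n₀ ≤ n → |D (n + 1) ω - D n ω| ≤ K / n * |D n ω|)
    (hDd : ∀ᵐ ω ∂μ, ∀ n, n₀ ≤ n → Nat.Coprime (n + 1) Q → dens μ ℱ A n ω = (Q : ℝ) / Nat.totient Q / D n ω)
    {g : ℕ} (hg : 2 ≤ g) {h : ℕ → ℝ} (h0 : ∀ n, 0 ≤ h n) {κ : ℝ}
    (hh : Tendsto (fun n : ℕ => h n / ((n : ℝ) * Real.log g) ^ 2) atTop (𝓝 κ)) :
    ∀ᵐ ω ∂μ, ∀ C : ℝ, Tendsto (fun n : ℕ => D n ω - Real.log n) atTop (𝓝 C) →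
      (¬ Summable (fun n : ℕ => Real.exp (-(h n / ((n : ℝ) * Real.log g)))) →
        Tendsto (fun N : ℕ => (Set.ncard {n : ℕ | n ≤ N ∧ Misses {k | ω ∈ A k} g n (h n)} : ℝ) /
          ∑ n ∈ Finset.range (N + 1), Real.exp (-(h n / ((n : ℝ) * Real.log g)))) atTop
          (𝓝 (Real.exp (κ * (C - (Q : ℝ) / Nat.totient Q / 2))))) ∧
      (Summable (fun n : ℕ => Real.exp (-(h n / ((n : ℝ) * Real.log g)))) →
        ∀ᶠ n : ℕ in atTop, ¬ Misses {k | ω ∈ A k} g n (h n)) := by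
  have hg' : (2 : ℝ) ≤ g := by exact_mod_cast hg
  have hlg : 0 < Real.log g := Real.log_pos (by linarith)
  have hL : ∀ n : ℕ, L1 (g ^ n - 1) = (n : ℝ) * Real.log g := by
    intro n
    unfold L1
    have h1 : 1 ≤ g ^ n := Nat.one_le_pow _ _ (by omega)
    have h2 : ((g ^ n - 1 : ℕ) : ℝ) + 1 = (g : ℝ) ^ n := by
      rw [Nat.cast_sub h1]
      push_cast
      ring
    rw [h2, Real.log_pow]
  have hκ : 0 ≤ κ := ge_of_tendsto' hh fun n => div_nonneg (h0 n) (sq_nonneg _)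
  have hs : Tendsto (fun n : ℕ => g ^ n - 1) atTop atTop :=
    (tendsto_sub_atTop_nat 1).comp (tendsto_pow_atTop_atTop_of_one_lt (by omega))
  have hc : ∀ᶠ n : ℕ in atTop, h n ≤ ((κ + 1) * Real.log g ^ 2) * (n : ℝ) ^ 2 := by
    filter_upwards [hh.eventually (eventually_le_nhds (show κ < κ + 1 by linarith)), eventually_gt_atTop 0]
      with n h1 h2
    have hn : (0 : ℝ) < n := by exact_mod_cast h2
    rw [div_le_iff₀ (by positivity)] at h1
    calc h n ≤ (κ + 1) * ((n : ℝ) * Real.log g) ^ 2 := h1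
      _ = _ := by ring
  have hdis : ∀ᶠ n : ℕ in atTop, (g ^ n - 1) + (⌊h n⌋₊ + 1) ≤ g ^ (n + 1) - 1 := by
    filter_upwards [pow_room hg hc] with n hn
    have h1 : 1 ≤ g ^ n := Nat.one_le_pow _ _ (by omega)
    have h2 : 2 * g ^ n ≤ g ^ (n + 1) := by
      rw [pow_succ, mul_comm]
      exact Nat.mul_le_mul_left _ hg
    omega
  have hMT : ∀ᶠ n : ℕ in atTop, |((⌊h n⌋₊ + 1 : ℕ) : ℝ) - h n| ≤ 1 := by
    filter_upwards with n
    have h1 := Nat.floor_le (h0 n)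
    have h2 := Nat.lt_floor_add_one (h n)
    rw [abs_le]
    push_cast
    constructor <;> linarith
  have hT : Tendsto (fun n : ℕ => h n / L1 (g ^ n - 1) ^ 2) atTop (𝓝 κ) := by
    simp only [hL]
    exact hh
  have hTL : Tendsto (fun n : ℕ => h n / L1 (g ^ n - 1) - h n / ((n : ℝ) * Real.log g)) atTop (𝓝 0) := by
    simp only [hL, sub_self]
    exact tendsto_const_nhds
  filter_upwards [win_final (μ := μ) (ℱ := ℱ) (A := A) hA hQ hD hK hDd (s := fun n => g ^ n - 1)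
    (M := fun n => ⌊h n⌋₊ + 1) (e := fun _ => 0) hs hdis zero_le_one hMT hT hκ hTL] with ω hω C hC
  obtain ⟨h1, h2⟩ := hω C hC
  simp only [misses_iff hg hcop (h0 _)] at h1 h2
  exact ⟨h1, h2⟩

/-- the `n`-th prime -/
noncomputable def pp (n : ℕ) : ℕ := Nat.nth Nat.Prime (n - 1)

lemma pp_ratio {g : ℕ} (hg : 2 ≤ g) :
    Tendsto (fun n : ℕ => (pp n : ℝ) / ((n : ℝ) * Real.log g) ^ 2) atTop (𝓝 0) := by
  have hg' : (2 : ℝ) ≤ g := by exact_mod_cast hg
  have hlg : 0 < Real.log g := Real.log_pos (by linarith)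
  have h1 : Tendsto (fun n : ℕ => Real.log n / (n : ℝ)) atTop (𝓝 0) := by
    have h1 : Tendsto (fun x : ℝ => Real.log x / x) atTop (𝓝 0) :=
      (Real.isLittleO_log_id_atTop).tendsto_div_nhds_zero
    exact h1.comp tendsto_natCast_atTop_atTop
  have h2 := (nth_prime_asymp.mul h1).div_const (Real.log g ^ 2)
  rw [mul_zero, zero_div] at h2
  refine h2.congr' ?_
  filter_upwards [tendsto_log.eventually_gt_atTop 0, eventually_gt_atTop 0] with n hn hn0
  have hn' : (0 : ℝ) < n := by exact_mod_cast hn0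
  unfold pp
  field_simp

/-- the exponents for `h = p` -/
lemma pp_exp {g : ℕ} (hg : 2 ≤ g) {a : ℝ} :
    (a < 1 / Real.log g → ∀ᶠ n : ℕ in atTop, Real.exp (-((pp n : ℝ) / ((n : ℝ) * Real.log g))) ≤ (n : ℝ) ^ (-a)) ∧
    (1 / Real.log g < a → ∀ᶠ n : ℕ in atTop, (n : ℝ) ^ (-a) ≤ Real.exp (-((pp n : ℝ) / ((n : ℝ) * Real.log g)))) := by
  have hg' : (2 : ℝ) ≤ g := by exact_mod_cast hg
  have hlg : 0 < Real.log g := Real.log_pos (by linarith)
  have h1 : Tendsto (fun n : ℕ => (pp n : ℝ) / ((n : ℝ) * Real.log g) / Real.log n) atTop (𝓝 (1 / Real.log g)) := by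
    have h2 := nth_prime_asymp.div_const (Real.log g)
    refine h2.congr' ?_
    filter_upwards [tendsto_log.eventually_gt_atTop 0, eventually_gt_atTop 0] with n hn hn0
    have hn' : (0 : ℝ) < n := by exact_mod_cast hn0
    unfold pp
    field_simp
  constructor
  · intro ha
    filter_upwards [h1.eventually (eventually_gt_nhds ha), tendsto_log.eventually_gt_atTop 0,
      eventually_gt_atTop 0] with n h2 h3 h4
    have hn' : (0 : ℝ) < n := by exact_mod_cast h4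
    rw [lt_div_iff₀ h3] at h2
    rw [Real.rpow_def_of_pos hn']
    apply Real.exp_le_exp.2
    linarith
  · intro ha
    filter_upwards [h1.eventually (eventually_lt_nhds ha), tendsto_log.eventually_gt_atTop 0,
      eventually_gt_atTop 0] with n h2 h3 h4
    have hn' : (0 : ℝ) < n := by exact_mod_cast h4
    rw [div_lt_iff₀ h3] at h2
    rw [Real.rpow_def_of_pos hn']
    apply Real.exp_le_exp.2
    linarith

lemma pp_summable_two : Summable (fun n : ℕ => Real.exp (-((pp n : ℝ) / ((n : ℝ) * Real.log (2 : ℕ))))) := by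
  have hl2 : 0 < Real.log 2 := Real.log_pos (by norm_num)
  have h1 : (6 / 5 : ℝ) < 1 / Real.log ((2 : ℕ) : ℝ) := by
    push_cast
    rw [lt_div_iff₀ hl2]
    linarith [Real.log_two_lt_d9]
  have h2 := (pp_exp (g := 2) le_rfl (a := 6 / 5)).1 h1
  have h3 : Summable (fun n : ℕ => (n : ℝ) ^ (-(6 / 5 : ℝ))) := by
    rw [Real.summable_nat_rpow]
    norm_num
  refine summable_of_isBigO_nat h3 (Asymptotics.IsBigO.of_bound 1 ?_)
  filter_upwards [h2] with n hn
  rw [one_mul, Real.norm_of_nonneg (Real.exp_pos _).le, Real.norm_of_nonneg (Real.rpow_nonneg (Nat.cast_nonneg n) _)]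
  exact hn

lemma pp_not_summable {g : ℕ} (hg : 3 ≤ g) :
    ¬ Summable (fun n : ℕ => Real.exp (-((pp n : ℝ) / ((n : ℝ) * Real.log g)))) := by
  have h0 : 1 < Real.log g := by
    have h1 : (3 : ℝ) ≤ g := by exact_mod_cast hg
    rw [Real.lt_log_iff_exp_lt (by linarith)]
    have := Real.exp_one_lt_d9
    linarith
  have h1 : 1 / Real.log g < 1 := by
    rw [div_lt_one (by linarith)]
    exact h0
  have h2 := (pp_exp (g := g) (by omega) (a := 1)).2 h1
  intro hs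
  have h3 : Summable (fun n : ℕ => (n : ℝ) ^ (-(1 : ℝ))) := by
    refine summable_of_isBigO_nat hs (Asymptotics.IsBigO.of_bound 1 ?_)
    filter_upwards [h2] with n hn
    rw [one_mul, Real.norm_of_nonneg (Real.exp_pos _).le, Real.norm_of_nonneg (Real.rpow_nonneg (Nat.cast_nonneg n) _)]
    exact hn
  rw [Real.summable_nat_rpow] at h3
  norm_num at h3

end Pool.Agent.R320.IT
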