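import Mathlib
import Pool.Agent.R320.IT.Apply

set_option autoImplicit false
set_option linter.unusedSectionVars false

/-! # Half-open windows just above the squares: integral test and explicit counts -/

open MeasureTheory Filter Set
open scoped ENNReal Topology

namespace Pool.Agent.R320.IT

open Pool.Agent.R528.RM

/-- `(n ^ 2, n ^ 2 + y]` contains no element of `S` -/
def EmptyUp (S : Set ℕ) (n : ℕ) (y : ℝ) : Prop := ∀ m ∈ S, n ^ 2 < m → ((n ^ 2 : ℕ) : ℝ) + y < m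

variable {Ω : Type} {m0 : MeasurableSpace Ω} {μ : Measure Ω} [IsProbabilityMeasure μ]
  {ℱ : Filtration ℕ m0} {A : ℕ → Set Ω}

lemma emptyUp_iff {Q n : ℕ} (hcop : ∀ n, ¬ Nat.Coprime n Q → A n = ∅) {y : ℝ} (hy : 0 ≤ y) (ω : Ω) :
    ω ∈ void A (cop Q \ {0}) (n ^ 2) ⌊y⌋₊ ↔ EmptyUp {k | ω ∈ A k} n y := by
  simp only [void, EmptyUp, mem_ofPred_eq]
  constructor
  · intro h m hm hgm
    by_contra hcon
    push Not at hcon
    have h2 : ((m - n ^ 2 : ℕ) : ℝ) ≤ y := by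
      rw [Nat.cast_sub hgm.le]
      linarith
    have h3 : m - n ^ 2 ≤ ⌊y⌋₊ := Nat.le_floor h2
    refine h m (by omega) (by omega) ⟨?_, ?_⟩ hm
    · by_contra hc
      have := hcop m hc
      rw [this] at hm
      exact hm
    · simp only [mem_singleton_iff]
      omega
  · intro h m h2 h3 _ hm
    have h4 := h m hm (by omega)
    have h6 : (m : ℝ) ≤ (n ^ 2 : ℕ) + ⌊y⌋₊ := by exact_mod_cast h3
    have h7 := Nat.floor_le hy
    linarith

/-- **the integral test above the squares** -/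
theorem squaresUp (hA : ∀ n, MeasurableSet[ℱ n] (A n)) {K : ℝ} {n₀ : ℕ} {Q : ℕ} (hQ : 0 < Q)
    (hcop : ∀ n, ¬ Nat.Coprime n Q → A n = ∅)
    {D : ℕ → Ω → ℝ} (hD : ∀ n, StronglyMeasurable[ℱ n] (D n))
    (hK : ∀ᵐ ω ∂μ, ∀ n, n₀ ≤ n → |D (n + 1) ω - D n ω| ≤ K / n * |D n ω|)
    (hDd : ∀ᵐ ω ∂μ, ∀ n, n₀ ≤ n → Nat.Coprime (n + 1) Q → dens μ ℱ A n ω = (Q : ℝ) / Nat.totient Q / D n ω)
    {h : ℕ → ℝ} (h0 : ∀ x, 0 ≤ h x) {lam : ℝ}
    (hlam : Tendsto (fun x : ℕ => h x / Real.log x ^ 2) atTop (𝓝 lam)) :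
    ∀ᵐ ω ∂μ, ∀ C : ℝ, Tendsto (fun n : ℕ => D n ω - Real.log n) atTop (𝓝 C) →
      (¬ Summable (fun x : ℕ => Real.exp (-(h x / (2 * Real.log x)))) →
        Tendsto (fun X : ℕ => (Set.ncard {x : ℕ | x ≤ X ∧ EmptyUp {k | ω ∈ A k} x (h x)} : ℝ) /
          ∑ x ∈ Finset.range (X + 1), Real.exp (-(h x / (2 * Real.log x)))) atTop
          (𝓝 (Real.exp (lam / 4 * (C - (Q : ℝ) / Nat.totient Q / 2))))) ∧
      (Summable (fun x : ℕ => Real.exp (-(h x / (2 * Real.log x)))) →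
        ∀ᶠ x : ℕ in atTop, ¬ EmptyUp {k | ω ∈ A k} x (h x)) := by
  have hlam0 : 0 ≤ lam := ge_of_tendsto' hlam fun x => div_nonneg (h0 x) (sq_nonneg _)
  have hlx : Tendsto (fun x : ℕ => Real.log x ^ 2 / (x : ℝ)) atTop (𝓝 0) := by
    have h1 : Tendsto (fun x : ℝ => Real.log x ^ 2 / x) atTop (𝓝 0) :=
      (Real.isLittleO_pow_log_id_atTop (n := 2)).tendsto_div_nhds_zero
    exact h1.comp tendsto_natCast_atTop_atTop
  have hTx : Tendsto (fun x : ℕ => h x / (x : ℝ)) atTop (𝓝 0) := by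
    have h1 := hlam.mul hlx
    rw [mul_zero] at h1
    refine h1.congr' ?_
    filter_upwards [tendsto_log.eventually_gt_atTop 0, eventually_gt_atTop 0] with x hx hx0
    have hx' : (0 : ℝ) < x := by exact_mod_cast hx0
    field_simp
  have hs : Tendsto (fun x : ℕ => x ^ 2) atTop atTop := tendsto_pow_atTop two_ne_zero
  have hdis : ∀ᶠ x : ℕ in atTop, x ^ 2 + ⌊h x⌋₊ ≤ (x + 1) ^ 2 := by
    filter_upwards [hTx.eventually (eventually_lt_nhds (show (0 : ℝ) < 1 by norm_num)),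
      eventually_gt_atTop 0] with x h1 h2
    have hx : (0 : ℝ) < x := by exact_mod_cast h2
    rw [div_lt_iff₀ hx, one_mul] at h1
    have h3 : ⌊h x⌋₊ ≤ x := by
      have h4 := Nat.floor_le (h0 x)
      have h5 : (⌊h x⌋₊ : ℝ) ≤ x := by linarith
      exact_mod_cast h5
    have h9 : (x + 1) ^ 2 = x ^ 2 + 2 * x + 1 := by ring
    omega
  have hMT : ∀ᶠ x : ℕ in atTop, |((⌊h x⌋₊ : ℕ) : ℝ) - h x| ≤ 1 := by
    filter_upwards with x
    have h1 := Nat.floor_le (h0 x)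
    have h2 := Nat.lt_floor_add_one (h x)
    rw [abs_le]
    constructor <;> linarith
  have hL : Tendsto (fun x : ℕ => L1 (x ^ 2) - 2 * Real.log x) atTop (𝓝 0) := by
    have hax : Tendsto (fun x : ℕ => 1 / (x : ℝ) ^ 2) atTop (𝓝 0) := by
      have h1 := (tendsto_one_div_atTop_nhds_zero_nat (𝕜 := ℝ)).pow 2
      rw [zero_pow two_ne_zero] at h1
      exact h1.congr fun x => by rw [div_pow, one_pow]
    have h2 : Tendsto (fun x : ℕ => Real.log (1 + 1 / (x : ℝ) ^ 2)) atTop (𝓝 (Real.log (1 + 0))) := by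
      apply Tendsto.log
      · exact tendsto_const_nhds.add hax
      · norm_num
    rw [add_zero, Real.log_one] at h2
    refine h2.congr' ?_
    filter_upwards [eventually_gt_atTop 0] with x hx0
    have hx : (0 : ℝ) < x := by exact_mod_cast hx0
    unfold L1
    have h8 : (2 : ℝ) * Real.log x = Real.log ((x : ℝ) ^ 2) := by rw [Real.log_pow]; norm_num
    push_cast
    rw [h8, ← Real.log_div (by positivity) (by positivity)]
    congr 1
    field_simp
  have hLtop : Tendsto (fun x : ℕ => L1 (x ^ 2)) atTop atTop := L1_top.comp hs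
  have hr : Tendsto (fun x : ℕ => L1 (x ^ 2) / Real.log x) atTop (𝓝 2) := by
    have h1 := (hL.div_atTop tendsto_log).add_const 2
    rw [zero_add] at h1
    refine h1.congr' ?_
    filter_upwards [tendsto_log.eventually_gt_atTop 0] with x hx
    field_simp
    ring
  have hr' : Tendsto (fun x : ℕ => Real.log x / L1 (x ^ 2)) atTop (𝓝 (1 / 2)) := by
    have := hr.inv₀ (by norm_num)
    rw [← one_div] at this
    exact this.congr fun x => by rw [inv_div]
  have hT : Tendsto (fun x : ℕ => h x / L1 (x ^ 2) ^ 2) atTop (𝓝 (lam / 4)) := by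
    have h1 := hlam.mul (hr'.pow 2)
    have e : lam * (1 / 2) ^ 2 = lam / 4 := by ring
    rw [e] at h1
    refine h1.congr' ?_
    filter_upwards [tendsto_log.eventually_gt_atTop 0, hLtop.eventually_gt_atTop 0] with x hx hx2
    field_simp
  have hTL : Tendsto (fun x : ℕ => h x / L1 (x ^ 2) - h x / (2 * Real.log x)) atTop (𝓝 0) := by
    have h1 := ((hlam.mul hr').mul hL).const_mul (-(1 / 2) : ℝ)
    rw [mul_zero, mul_zero] at h1
    refine h1.congr' ?_
    filter_upwards [tendsto_log.eventually_gt_atTop 0, hLtop.eventually_gt_atTop 0] with x hx hx2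
    field_simp
    ring
  filter_upwards [win_final (μ := μ) (ℱ := ℱ) (A := A) hA hQ hD hK hDd (s := fun x => x ^ 2)
    (M := fun x => ⌊h x⌋₊) (e := fun _ => 0) hs hdis zero_le_one hMT hT (by positivity) hTL] with ω hω C hC
  obtain ⟨h1, h2⟩ := hω C hC
  simp only [emptyUp_iff hcop (h0 _)] at h1 h2
  exact ⟨h1, h2⟩

/-- the weights for `h = c log²` -/
lemma exp_c (c : ℝ) {n : ℕ} (hn : 1 ≤ n) :
    Real.exp (-(c * Real.log n ^ 2 / (2 * Real.log n))) = (n : ℝ) ^ (-(c / 2)) := by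
  have hn' : (0 : ℝ) < n := by exact_mod_cast hn
  rw [Real.rpow_def_of_pos hn']
  congr 1
  rcases eq_or_ne (Real.log n) 0 with h0 | h0
  · rw [h0]; simp
  · field_simp

lemma slope_one (θ : ℝ) : Tendsto (fun k : ℕ => (k : ℝ) * ((1 + 1 / (k : ℝ)) ^ (1 - θ) - 1)) atTop (𝓝 (1 - θ)) := by
  have h1 : HasDerivAt (fun x : ℝ => x ^ (1 - θ)) (1 - θ) 1 := by
    have := Real.hasDerivAt_rpow_const (x := 1) (p := 1 - θ) (Or.inl one_ne_zero)
    simpa using this
  rw [hasDerivAt_iff_tendsto_slope_zero] at h1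
  have h2 : Tendsto (fun k : ℕ => 1 / (k : ℝ)) atTop (𝓝[≠] 0) := by
    rw [tendsto_nhdsWithin_iff]
    refine ⟨tendsto_one_div_atTop_nhds_zero_nat, ?_⟩
    filter_upwards [eventually_gt_atTop 0] with k hk
    have : (0 : ℝ) < k := by exact_mod_cast hk
    simp only [mem_compl_iff, mem_singleton_iff]
    positivity
  refine (h1.comp h2).congr fun k => ?_
  simp only [Function.comp, smul_eq_mul, Real.one_rpow, one_div, inv_inv]

/-- partial sums of `n ^ (-θ)` -/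
lemma sum_rpow {θ : ℝ} (hθ : θ < 1) :
    Tendsto (fun N : ℕ => (∑ n ∈ Finset.range (N + 1), (n : ℝ) ^ (-θ)) / ((N : ℝ) ^ (1 - θ) / (1 - θ))) atTop
      (𝓝 1) := by
  have h1θ : 0 < 1 - θ := by linarith
  set w : ℕ → ℝ := fun k => (((k : ℝ) + 1) ^ (1 - θ) - (k : ℝ) ^ (1 - θ)) / (1 - θ) with hw
  have hw0 : ∀ k, 0 < w k := by
    intro k
    apply div_pos _ h1θ
    have : (k : ℝ) ^ (1 - θ) < ((k : ℝ) + 1) ^ (1 - θ) :=
      Real.rpow_lt_rpow (Nat.cast_nonneg k) (by linarith) h1θ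
    linarith
  have hsum : ∀ n : ℕ, ∑ k ∈ Finset.range n, w k = (n : ℝ) ^ (1 - θ) / (1 - θ) := by
    intro n
    induction n with
    | zero => simp [Real.zero_rpow h1θ.ne']
    | succ n ih =>
      rw [Finset.sum_range_succ, ih]
      simp only [hw]
      push_cast
      ring
  have htop : Tendsto (fun n : ℕ => (n : ℝ) ^ (1 - θ) / (1 - θ)) atTop atTop :=
    ((tendsto_rpow_atTop h1θ).comp tendsto_natCast_atTop_atTop).atTop_div_const h1θ
  have hW : Tendsto (fun n : ℕ => ∑ k ∈ Finset.range n, w k) atTop atTop := by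
    simp only [hsum]
    exact htop
  have hratio : Tendsto (fun k : ℕ => (k : ℝ) ^ (-θ) / w k) atTop (𝓝 1) := by
    have h1 := ((slope_one θ).div_const (1 - θ)).inv₀ (by rw [div_self h1θ.ne']; norm_num)
    rw [div_self h1θ.ne', inv_one] at h1
    refine h1.congr' ?_
    filter_upwards [eventually_gt_atTop 0] with k hk
    have hk' : (0 : ℝ) < k := by exact_mod_cast hk
    have e1 : ((k : ℝ) + 1) ^ (1 - θ) = (k : ℝ) ^ (1 - θ) * (1 + 1 / (k : ℝ)) ^ (1 - θ) := by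
      rw [← Real.mul_rpow hk'.le (by positivity)]
      congr 1
      field_simp
    have e2 : (k : ℝ) ^ (1 - θ) = k * (k : ℝ) ^ (-θ) := by
      rw [sub_eq_add_neg, Real.rpow_add hk', Real.rpow_one]
    have e3 : 0 < (k : ℝ) ^ (-θ) := Real.rpow_pos_of_pos hk' _
    have e4 : w k = (k : ℝ) ^ (-θ) * ((k : ℝ) * ((1 + 1 / (k : ℝ)) ^ (1 - θ) - 1) / (1 - θ)) := by
      simp only [hw]
      rw [e1, e2]
      ring
    rw [e4]
    rw [div_mul_cancel_left₀ e3.ne']
  have h1 := sum_ratio (fun k => (hw0 k).le) (Eventually.of_forall hw0) hratio hW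
  simp only [hsum] at h1
  -- the last term
  have h2 : Tendsto (fun N : ℕ => (N : ℝ) ^ (-θ) / ((N : ℝ) ^ (1 - θ) / (1 - θ))) atTop (𝓝 0) := by
    have h3 : Tendsto (fun N : ℕ => (1 - θ) * (1 / (N : ℝ))) atTop (𝓝 ((1 - θ) * 0)) :=
      (tendsto_one_div_atTop_nhds_zero_nat).const_mul _
    rw [mul_zero] at h3
    refine h3.congr' ?_
    filter_upwards [eventually_gt_atTop 0] with k hk
    have hk' : (0 : ℝ) < k := by exact_mod_cast hk
    have e2 : (k : ℝ) ^ (1 - θ) = k * (k : ℝ) ^ (-θ) := by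
      rw [sub_eq_add_neg, Real.rpow_add hk', Real.rpow_one]
    have e3 : 0 < (k : ℝ) ^ (-θ) := Real.rpow_pos_of_pos hk' _
    rw [e2]
    field_simp
  have h4 := h1.add h2
  rw [add_zero] at h4
  refine h4.congr fun N => ?_
  rw [Finset.sum_range_succ, add_div]

/-- partial sums of the weights for `h = c log²`, `c < 2` -/
lemma sum_c {c : ℝ} (hc : c < 2) :
    Tendsto (fun N : ℕ => (∑ n ∈ Finset.range (N + 1), Real.exp (-(c * Real.log n ^ 2 / (2 * Real.log n)))) /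
      ((N : ℝ) ^ (1 - c / 2) / (1 - c / 2))) atTop (𝓝 1) := by
  have h1θ : 0 < 1 - c / 2 := by linarith
  have h1 := sum_rpow (θ := c / 2) (by linarith)
  have htop : Tendsto (fun n : ℕ => (n : ℝ) ^ (1 - c / 2) / (1 - c / 2)) atTop atTop :=
    ((tendsto_rpow_atTop h1θ).comp tendsto_natCast_atTop_atTop).atTop_div_const h1θ
  have h2 : Tendsto (fun N : ℕ => (Real.exp (-(c * Real.log (0 : ℕ) ^ 2 / (2 * Real.log (0 : ℕ)))) -
      ((0 : ℕ) : ℝ) ^ (-(c / 2))) / ((N : ℝ) ^ (1 - c / 2) / (1 - c / 2))) atTop (𝓝 0) :=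
    tendsto_const_nhds.div_atTop htop
  have h3 := h1.add h2
  rw [add_zero] at h3
  refine h3.congr fun N => ?_
  rw [← add_div]
  congr 1
  rw [Finset.sum_range_succ' (fun n : ℕ => (n : ℝ) ^ (-(c / 2))),
    Finset.sum_range_succ' (fun n : ℕ => Real.exp (-(c * Real.log n ^ 2 / (2 * Real.log n))))]
  have h4 : ∑ k ∈ Finset.range N, Real.exp (-(c * Real.log ((k + 1 : ℕ) : ℝ) ^ 2 / (2 * Real.log ((k + 1 : ℕ) : ℝ)))) =
      ∑ k ∈ Finset.range N, ((k + 1 : ℕ) : ℝ) ^ (-(c / 2)) :=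
    Finset.sum_congr rfl fun k _ => exp_c c (by omega)
  rw [h4]
  ring

lemma not_summable_c {c : ℝ} (hc : c ≤ 2) :
    ¬ Summable (fun n : ℕ => Real.exp (-(c * Real.log n ^ 2 / (2 * Real.log n)))) := by
  intro h
  have h1 : Summable (fun n : ℕ => (n : ℝ) ^ (-(c / 2))) := by
    refine summable_of_isBigO_nat h (Asymptotics.IsBigO.of_bound 1 ?_)
    filter_upwards [eventually_ge_atTop 1] with n hn
    rw [one_mul, exp_c c hn]
  rw [Real.summable_nat_rpow] at h1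
  linarith

lemma summable_c {c : ℝ} (hc : 2 < c) :
    Summable (fun n : ℕ => Real.exp (-(c * Real.log n ^ 2 / (2 * Real.log n)))) := by
  have h1 : Summable (fun n : ℕ => (n : ℝ) ^ (-(c / 2))) := by
    rw [Real.summable_nat_rpow]
    linarith
  refine summable_of_isBigO_nat h1 (Asymptotics.IsBigO.of_bound 1 ?_)
  filter_upwards [eventually_ge_atTop 1] with n hn
  rw [one_mul, exp_c c hn]

/-- partial sums of the weights for `h = 2 log²` -/
lemma sum_two :
    Tendsto (fun N : ℕ => (∑ n ∈ Finset.range (N + 1), Real.exp (-(2 * Real.log n ^ 2 / (2 * Real.log n)))) /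
      Real.log N) atTop (𝓝 1) := by
  have h0 : ∀ N : ℕ, ∑ n ∈ Finset.range (N + 1), Real.exp (-(2 * Real.log n ^ 2 / (2 * Real.log n))) =
      (harmonic N : ℝ) + 1 := by
    intro N
    rw [Finset.sum_range_succ']
    congr 1
    · unfold harmonic
      push_cast
      refine Finset.sum_congr rfl fun k _ => ?_
      rw [← Nat.cast_succ, Nat.succ_eq_add_one, exp_c 2 (by omega), div_self two_ne_zero, Real.rpow_neg_one]
    · simp
  simp only [h0]
  have h1 : Tendsto (fun N : ℕ => (((harmonic N : ℝ) - Real.log N) + 1) / Real.log N + 1) atTop (𝓝 (0 + 1)) := by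
    refine Tendsto.add_const 1 ?_
    exact (Real.tendsto_harmonic_sub_log.add_const 1).div_atTop tendsto_log
  rw [zero_add] at h1
  refine h1.congr' ?_
  filter_upwards [tendsto_log.eventually_gt_atTop 0] with N hN
  field_simp
  ring

lemma lim_c (c : ℝ) : Tendsto (fun x : ℕ => c * Real.log x ^ 2 / Real.log x ^ 2) atTop (𝓝 c) := by
  refine (tendsto_const_nhds (x := c)).congr' ?_
  filter_upwards [tendsto_log.eventually_gt_atTop 0] with x hx
  field_simp

/-- **explicit counts above the squares** -/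
theorem squares_c (hA : ∀ n, MeasurableSet[ℱ n] (A n)) {K : ℝ} {n₀ : ℕ} {Q : ℕ} (hQ : 0 < Q)
    (hcop : ∀ n, ¬ Nat.Coprime n Q → A n = ∅)
    {D : ℕ → Ω → ℝ} (hD : ∀ n, StronglyMeasurable[ℱ n] (D n))
    (hK : ∀ᵐ ω ∂μ, ∀ n, n₀ ≤ n → |D (n + 1) ω - D n ω| ≤ K / n * |D n ω|)
    (hDd : ∀ᵐ ω ∂μ, ∀ n, n₀ ≤ n → Nat.Coprime (n + 1) Q → dens μ ℱ A n ω = (Q : ℝ) / Nat.totient Q / D n ω)
    {c : ℝ} (hc : 0 ≤ c) :
    ∀ᵐ ω ∂μ, ∀ C : ℝ, Tendsto (fun n : ℕ => D n ω - Real.log n) atTop (𝓝 C) →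
      (c < 2 → Tendsto (fun N : ℕ =>
        (Set.ncard {n : ℕ | n ≤ N ∧ EmptyUp {k | ω ∈ A k} n (c * Real.log n ^ 2)} : ℝ) /
          ((N : ℝ) ^ (1 - c / 2) / (1 - c / 2))) atTop
          (𝓝 (Real.exp (c / 4 * (C - (Q : ℝ) / Nat.totient Q / 2))))) ∧
      (c = 2 → Tendsto (fun N : ℕ =>
        (Set.ncard {n : ℕ | n ≤ N ∧ EmptyUp {k | ω ∈ A k} n (c * Real.log n ^ 2)} : ℝ) / Real.log N) atTop
          (𝓝 (Real.exp (c / 4 * (C - (Q : ℝ) / Nat.totient Q / 2))))) ∧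
      (2 < c → ∀ᶠ n : ℕ in atTop, ¬ EmptyUp {k | ω ∈ A k} n (c * Real.log n ^ 2)) := by
  filter_upwards [squaresUp (μ := μ) (ℱ := ℱ) (A := A) hA hQ hcop hD hK hDd (h := fun n => c * Real.log n ^ 2)
    (fun x => by positivity) (lim_c c)] with ω hω C hC
  obtain ⟨h1, h2⟩ := hω C hC
  have hmul : ∀ {x y z : ℕ → ℝ} {L : ℝ}, Tendsto (fun n => x n / y n) atTop (𝓝 L) →
      Tendsto (fun n => y n / z n) atTop (𝓝 1) → (∀ᶠ n in atTop, 0 < y n) →
      Tendsto (fun n => x n / z n) atTop (𝓝 L) := by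
    intro x y z L hx hy hpos
    have h3 := hx.mul hy
    rw [mul_one] at h3
    refine h3.congr' ?_
    filter_upwards [hpos] with n hn
    have := hn.ne'
    field_simp
  have hpos : ∀ᶠ N : ℕ in atTop,
      0 < ∑ n ∈ Finset.range (N + 1), Real.exp (-(c * Real.log n ^ 2 / (2 * Real.log n))) :=
    Eventually.of_forall fun N => Finset.sum_pos (fun n _ => Real.exp_pos _) ⟨0, by simp⟩
  refine ⟨fun hc2 => hmul (h1 (not_summable_c hc2.le)) (sum_c hc2) hpos, fun hc2 => ?_, fun hc2 => h2 (summable_c hc2)⟩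
  subst hc2
  exact hmul (h1 (not_summable_c le_rfl)) sum_two hpos

end Pool.Agent.R320.IT
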